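import Pool.Agent.W384.Maass

set_option autoImplicit false

open Filter Topology

namespace Pool.Agent.W384

lemma QuadraticCharacter.ext' {E E' : QuadraticCharacter} (h : E.modulus = E'.modulus)
    (h' : HEq E.χ E'.χ) : E = E' := by
  obtain ⟨m, h1, χ, h2, h3, h4⟩ := E
  obtain ⟨m', h1', χ', h2', h3', h4'⟩ := E'
  simp only at h
  subst h
  simp only [heq_eq_eq] at h'
  subst h'
  rfl

/-- only finitely many quadratic characters of bounded modulus -/
instance finite_count (x : ℝ) : Finite {E : QuadraticCharacter // (E.modulus : ℝ) < x} := by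
  obtain ⟨n, hn⟩ := exists_nat_gt x
  have hfin : ∀ k : Fin n, Finite (DirichletCharacter ℂ ((k : ℕ) + 1)) := fun k => by
    have : NeZero ((k : ℕ) + 1) := ⟨Nat.succ_ne_zero _⟩
    infer_instance
  let f : {E : QuadraticCharacter // (E.modulus : ℝ) < x} →
      (Σ k : Fin n, DirichletCharacter ℂ ((k : ℕ) + 1)) := fun E =>
    ⟨⟨E.1.modulus - 1, by
      have h1 : (E.1.modulus : ℝ) < n := E.2.trans hn
      have h2 : E.1.modulus < n := by exact_mod_cast h1
      omega⟩, (Nat.sub_add_cancel E.1.modulus_pos).symm ▸ E.1.χ⟩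
  refine Finite.of_injective f fun E E' h => ?_
  apply Subtype.ext
  simp only [f, Sigma.mk.injEq, Fin.mk.injEq] at h
  obtain ⟨h1, h2⟩ := h
  have hm : E.1.modulus = E'.1.modulus := by
    have := E.1.modulus_pos
    have := E'.1.modulus_pos
    omega
  refine QuadraticCharacter.ext' hm ?_
  have e1 : HEq ((Nat.sub_add_cancel E.1.modulus_pos).symm ▸ E.1.χ :
      DirichletCharacter ℂ (E.1.modulus - 1 + 1)) E.1.χ := by
    exact eqRec_heq _ _
  have e2 : HEq ((Nat.sub_add_cancel E'.1.modulus_pos).symm ▸ E'.1.χ :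
      DirichletCharacter ℂ (E'.1.modulus - 1 + 1)) E'.1.χ := by
    exact eqRec_heq _ _
  exact e1.symm.trans (h2.trans e2)

/-- the Legendre symbol modulo an odd prime -/
lemma exists_quadratic (p : ℕ) (hp : p.Prime) (hp2 : p ≠ 2) :
    ∃ E : QuadraticCharacter, E.modulus = p := by
  have : Fact p.Prime := ⟨hp⟩
  have hchar : ringChar (ZMod p) ≠ 2 := by
    rw [ZMod.ringChar_zmod_n]; exact hp2
  let χ : DirichletCharacter ℂ p := (quadraticChar (ZMod p)).ringHomComp (Int.castRingHom ℂ)
  have hχ : χ ≠ 1 := by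
    intro h
    obtain ⟨a, ha⟩ := quadraticChar_exists_neg_one' hchar
    have h1 := congrArg (fun ψ : MulChar (ZMod p) ℂ => ψ a) h
    have h2 : χ a = ((quadraticChar (ZMod p) a : ℤ) : ℂ) := rfl
    simp only [h2, ha, MulChar.one_apply_coe] at h1
    norm_num at h1
  have hsq : χ ^ 2 = 1 := by
    ext a
    have h2 : χ a = ((quadraticChar (ZMod p) a : ℤ) : ℂ) := rfl
    have h3 := quadraticChar_sq_one (F := ZMod p) a.ne_zero
    rw [MulChar.pow_apply_coe, h2, MulChar.one_apply_coe]
    exact_mod_cast h3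
  have hprim : χ.IsPrimitive := by
    have h1 := χ.conductor_dvd_level
    rcases (Nat.dvd_prime hp).1 h1 with h | h
    · exact absurd (DirichletCharacter.eq_one_iff_conductor_eq_one.2 h) hχ
    · exact h
  exact ⟨⟨p, hp.pos, χ, hprim, hsq, hχ⟩, rfl⟩

theorem tendsto_countAll : Tendsto countAll atTop atTop := by
  rw [tendsto_atTop_atTop]
  intro k
  -- `k` odd primes
  have hinf : {p : ℕ | p.Prime ∧ p ≠ 2}.Infinite := by
    have h1 := Nat.infinite_setOfPred_prime
    have h2 : {p : ℕ | p.Prime ∧ p ≠ 2} = {p : ℕ | p.Prime} \ {2} := by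
      ext p; simp
    rw [h2]
    exact h1.sdiff (Set.finite_singleton 2)
  obtain ⟨s, hs, hcard⟩ := hinf.exists_subset_card_eq k
  obtain ⟨n, hn⟩ : ∃ n : ℕ, ∀ p ∈ s, p < n := ⟨s.sup id + 1, fun p hp =>
    Nat.lt_succ_of_le (Finset.le_sup (f := id) hp)⟩
  refine ⟨n, fun x hx => ?_⟩
  have hex : ∀ p : s, ∃ E : QuadraticCharacter, E.modulus = p := fun p =>
    exists_quadratic p (hs p.2).1 (hs p.2).2
  choose E hE using hex
  let f : s → {E : QuadraticCharacter // (E.modulus : ℝ) < x} := fun p => ⟨E p, by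
    rw [hE]
    have : ((p : ℕ) : ℝ) < n := by exact_mod_cast hn p p.2
    linarith⟩
  have hf : Function.Injective f := by
    intro p p' h
    apply Subtype.ext
    rw [← hE p, ← hE p']
    have := congrArg (fun u => u.1.modulus) h
    exact this
  have h1 := Nat.card_le_card_of_injective f hf
  unfold countAll
  rw [Nat.card_eq_fintype_card, Fintype.card_coe, hcard] at h1
  exact h1

end Pool.Agent.W384
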