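import Pool.Agent.W384.Form

set_option autoImplicit false

open UpperHalfPlane MeasureTheory Filter Topology Function
open scoped MatrixGroups ContDiff

namespace Pool.Agent.W384
namespace HeckeMaassCuspForm

variable (F : HeckeMaassCuspForm)

lemma odd_hor (hF : F.IsOdd) {y : ℝ} (hy : 0 < y) (x : ℝ) :
    F.G (pt (-x) y) = - F.G (pt x y) := by
  have h := hF ⟨pt x y, pt_mem hy⟩
  have e1 : -(starRingEnd ℂ (((⟨pt x y, pt_mem hy⟩ : ℍ)) : ℂ)) = pt (-x) y := by
    change -(starRingEnd ℂ (pt x y)) = _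
    unfold pt
    simp [Complex.conj_ofReal]
    ring
  rw [e1] at h
  have e3 : F.toFun ⟨pt x y, pt_mem hy⟩ = F.G (pt x y) := by
    unfold G
    rw [ofComplex_apply_of_im_pos (pt_mem hy)]
  rw [e3] at h
  exact h

lemma A_neg (hF : F.IsOdd) {y : ℝ} (hy : 0 < y) (n : ℤ) : F.A (-n) y = - F.A n y :=
  cf_odd (F.periodic_hor hy) (F.odd_hor hF hy) n

lemma A_zero (hF : F.IsOdd) {y : ℝ} (hy : 0 < y) : F.A 0 y = 0 := by
  have h := F.A_neg hF hy 0
  rw [neg_zero] at h
  linear_combination h / 2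

/-- Fourier expansion -/
lemma hasSum_G {y : ℝ} (hy : 0 < y) (hs : Summable (fun n : ℤ => F.A n y)) (x : ℝ) :
    HasSum (fun n : ℤ => F.A n y * ee n x) (F.G (pt x y)) :=
  cf_hasSum (F.cont_hor hy) (F.periodic_hor hy) hs x

lemma A_nat_of_one (h : ∀ y : ℝ, 0 < y → F.A 1 y = 0) :
    ∀ n : ℕ, 1 ≤ n → ∀ y : ℝ, 0 < y → F.A n y = 0 := by
  intro n
  induction n using Nat.strong_induction_on with
  | _ n ih =>
    intro hn y hy
    rcases hn.eq_or_lt with rfl | hn1
    · exact_mod_cast h y hy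
    · have hp : n.minFac.Prime := Nat.minFac_prime (by omega)
      set p := n.minFac with hpdef
      obtain ⟨m, hm⟩ := n.minFac_dvd
      rw [← hpdef] at hm
      have hm1 : 1 ≤ m := by
        rcases Nat.eq_zero_or_pos m with rfl | h
        · simp at hm; omega
        · exact h
      have hmn : m < n := by
        rw [hm]; nlinarith [hp.two_le]
      have hp0 : 0 < p := hp.pos
      have hpR : (0 : ℝ) < (p : ℕ) := by exact_mod_cast hp0
      have hpC : ((p : ℕ) : ℂ) ≠ 0 := by exact_mod_cast hp0.ne'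
      have hrel := F.hecke_A ⟨p, hp⟩ m (y := p * y) (by positivity)
      simp only at hrel
      rw [ih m hmn hm1 (p * y) (by positivity), mul_zero] at hrel
      have h1 : (if (p : ℤ) ∣ (m : ℤ) then F.A ((m : ℤ) / p) (p * (p * y)) else 0) = 0 := by
        split_ifs with hd
        · have hd' : p ∣ m := by exact_mod_cast hd
          have hmp : (m : ℤ) / p = ((m / p : ℕ) : ℤ) := by push_cast; rfl
          rw [hmp]
          refine ih (m / p) ((Nat.div_le_self m p).trans_lt hmn) ?_ _ (by positivity)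
          exact Nat.div_pos (Nat.le_of_dvd (by omega) hd') hp0
        · rfl
      rw [h1, zero_add, mul_div_cancel_left₀ _ hpR.ne'] at hrel
      have h2 : F.A ((m : ℤ) * p) y = 0 := by
        rcases mul_eq_zero.1 hrel with h | h
        · exact absurd h hpC
        · exact h
      rw [hm]
      push_cast
      rw [mul_comm]
      exact h2

lemma exists_t0 (hF : F.IsOdd) : ∃ t : ℝ, 0 < t ∧ F.A 1 t ≠ 0 := by
  by_contra hcon
  push Not at hcon
  have h1 := F.A_nat_of_one hcon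
  have h2 : ∀ (n : ℤ) (y : ℝ), 0 < y → F.A n y = 0 := by
    intro n y hy
    rcases lt_trichotomy n 0 with hn | hn | hn
    · obtain ⟨k, hk⟩ := Int.eq_ofNat_of_zero_le (by omega : 0 ≤ -n)
      have : n = -(k : ℤ) := by omega
      rw [this, F.A_neg hF hy, h1 k (by omega) y hy, neg_zero]
    · rw [hn]; exact F.A_zero hF hy
    · obtain ⟨k, hk⟩ := Int.eq_ofNat_of_zero_le (by omega : 0 ≤ n)
      rw [hk]; exact h1 k (by omega) y hy
  obtain ⟨z, hz⟩ := F.exists_ne_zero
  apply hz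
  have hz1 : (z : ℂ) = pt z.re z.im := by
    unfold pt
    apply Complex.ext <;> simp
  have hs : Summable (fun n : ℤ => F.A n z.im) := by
    have : (fun n : ℤ => F.A n z.im) = fun _ => 0 := by funext n; exact h2 n _ z.im_pos
    rw [this]; exact summable_zero
  have h3 := F.hasSum_G z.im_pos hs z.re
  rw [← hz1, F.G_coe] at h3
  have h4 : (fun n : ℤ => F.A n z.im * ee n z.re) = fun _ => 0 := by
    funext n; rw [h2 n _ z.im_pos, zero_mul]
  rw [h4] at h3
  exact h3.unique hasSum_zero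

/-- base point where `A 1` does not vanish -/
noncomputable def t0 (hF : F.IsOdd) : ℝ := (F.exists_t0 hF).choose

lemma t0_pos (hF : F.IsOdd) : 0 < F.t0 hF := (F.exists_t0 hF).choose_spec.1

lemma A_t0 (hF : F.IsOdd) : F.A 1 (F.t0 hF) ≠ 0 := (F.exists_t0 hF).choose_spec.2

/-- normalised Fourier coefficients -/
noncomputable def l (hF : F.IsOdd) (n : ℕ) : ℂ :=
  (Real.sqrt n : ℂ) * F.A n (F.t0 hF / n) / F.A 1 (F.t0 hF)

lemma l_zero (hF : F.IsOdd) : F.l hF 0 = 0 := by simp [l]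

lemma l_one (hF : F.IsOdd) : F.l hF 1 = 1 := by
  unfold l
  simp only [Nat.cast_one, Real.sqrt_one, div_one, Complex.ofReal_one, one_mul]
  exact div_self (F.A_t0 hF)

lemma A_eq (hF : F.IsOdd) : ∀ n : ℕ, 1 ≤ n → ∀ y : ℝ, 0 < y →
    F.A n y = (Real.sqrt n : ℂ)⁻¹ * F.l hF n * F.A 1 (n * y) := by
  -- it is enough that `A n y = K * A 1 (n y)` for some constant `K`
  have key : ∀ n : ℕ, 1 ≤ n → (∃ K : ℂ, ∀ y : ℝ, 0 < y → F.A n y = K * F.A 1 (n * y)) →
      ∀ y : ℝ, 0 < y → F.A n y = (Real.sqrt n : ℂ)⁻¹ * F.l hF n * F.A 1 (n * y) := by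
    rintro n hn ⟨K, hK⟩ y hy
    have hnR : (0 : ℝ) < n := by exact_mod_cast hn
    have hs : (Real.sqrt n : ℂ) ≠ 0 := by
      have := Real.sqrt_pos.mpr hnR
      exact_mod_cast this.ne'
    have h1 := hK (F.t0 hF / n) (div_pos (F.t0_pos hF) hnR)
    rw [mul_div_cancel₀ _ hnR.ne'] at h1
    have hA := F.A_t0 hF
    have h2 : (Real.sqrt n : ℂ)⁻¹ * F.l hF n = K := by
      unfold l
      rw [h1]
      field_simp
    rw [h2]
    exact hK y hy
  intro n
  induction n using Nat.strong_induction_on with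
  | _ n ih =>
    intro hn
    apply key n hn
    rcases hn.eq_or_lt with rfl | hn1
    · exact ⟨1, fun y hy => by simp⟩
    · have hp : n.minFac.Prime := Nat.minFac_prime (by omega)
      set p := n.minFac with hpdef
      obtain ⟨m, hm⟩ := n.minFac_dvd
      rw [← hpdef] at hm
      have hm1 : 1 ≤ m := by
        rcases Nat.eq_zero_or_pos m with rfl | h
        · simp at hm; omega
        · exact h
      have hmn : m < n := by
        rw [hm]; nlinarith [hp.two_le]
      have hp0 : 0 < p := hp.pos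
      have hpR : (0 : ℝ) < (p : ℕ) := by exact_mod_cast hp0
      have hpC : ((p : ℕ) : ℂ) ≠ 0 := by exact_mod_cast hp0.ne'
      refine ⟨(p : ℂ)⁻¹ * (Real.sqrt p * F.heckeEigenvalue ⟨p, hp⟩ *
        ((Real.sqrt m : ℂ)⁻¹ * F.l hF m) - (if p ∣ m then
          (Real.sqrt (m / p : ℕ) : ℂ)⁻¹ * F.l hF (m / p) else 0)), fun y hy => ?_⟩
      have hrel := F.hecke_A ⟨p, hp⟩ m (y := p * y) (by positivity)
      simp only at hrel
      rw [ih m hmn hm1 (p * y) (by positivity)] at hrel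
      have h1 : (if (p : ℤ) ∣ (m : ℤ) then F.A ((m : ℤ) / p) (p * (p * y)) else 0) =
          (if p ∣ m then (Real.sqrt (m / p : ℕ) : ℂ)⁻¹ * F.l hF (m / p) else 0) * F.A 1 (n * y) := by
        by_cases hd : p ∣ m
        · have hd' : (p : ℤ) ∣ (m : ℤ) := by exact_mod_cast hd
          rw [if_pos hd, if_pos hd']
          have hmp : (m : ℤ) / p = ((m / p : ℕ) : ℤ) := by push_cast; rfl
          rw [hmp, ih (m / p) ((Nat.div_le_self m p).trans_lt hmn)
            (Nat.div_pos (Nat.le_of_dvd (by omega) hd) hp0) _ (by positivity)]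
          congr 2
          rw [hm]
          obtain ⟨k, hk⟩ := hd
          have : m / p = k := by rw [hk, Nat.mul_div_cancel_left _ hp0]
          rw [this, hk]
          push_cast
          ring
        · have hd' : ¬ (p : ℤ) ∣ (m : ℤ) := by exact_mod_cast hd
          rw [if_neg hd, if_neg hd', zero_mul]
      rw [h1, mul_div_cancel_left₀ _ hpR.ne'] at hrel
      have h2 : F.A (n : ℤ) y = F.A ((m : ℤ) * p) y := by
        congr 1
        rw [hm]; push_cast; ring
      have h3 : (m : ℝ) * (p * y) = n * y := by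
        rw [hm]; push_cast; ring
      rw [h2]
      rw [h3] at hrel
      generalize (if p ∣ m then (Real.sqrt (m / p : ℕ) : ℂ)⁻¹ * F.l hF (m / p) else 0) = Q at hrel ⊢
      have h4 : (p : ℂ)⁻¹ * ((p : ℂ) * F.A ((m : ℤ) * p) y) = F.A ((m : ℤ) * p) y := by
        field_simp
      rw [← h4]
      linear_combination (p : ℂ)⁻¹ * hrel

lemma l_rec (hF : F.IsOdd) (p : Nat.Primes) (m : ℕ) (hm : 0 < m) :
    F.l hF (p * m) = F.heckeEigenvalue p * F.l hF m -
      (if (p : ℕ) ∣ m then F.l hF (m / p) else 0) := by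
  have hp0 : 0 < (p : ℕ) := p.2.pos
  have hpR : (0 : ℝ) < (p : ℕ) := by exact_mod_cast hp0
  have hpC : ((p : ℕ) : ℂ) ≠ 0 := by exact_mod_cast hp0.ne'
  have hmR : (0 : ℝ) < m := by exact_mod_cast hm
  have ht := F.t0_pos hF
  have hA := F.A_t0 hF
  -- apply the Hecke relation at y = t0 / m
  have hrel := F.hecke_A p m (y := F.t0 hF / m) (by positivity)
  have hsp : (Real.sqrt p : ℂ) ≠ 0 := by
    have := Real.sqrt_pos.mpr hpR
    exact_mod_cast this.ne'
  have hsm : (Real.sqrt m : ℂ) ≠ 0 := by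
    have := Real.sqrt_pos.mpr hmR
    exact_mod_cast this.ne'
  have hsp2 : (Real.sqrt p : ℂ) * Real.sqrt p = p := by
    rw [← Complex.ofReal_mul, Real.mul_self_sqrt hpR.le]; simp
  have e1 : F.A m (F.t0 hF / m) = (Real.sqrt m : ℂ)⁻¹ * F.l hF m * F.A 1 (F.t0 hF) := by
    rw [F.A_eq hF m hm _ (by positivity), mul_div_cancel₀ _ hmR.ne']
  have e2 : F.A ((m : ℤ) * (p : ℕ)) (F.t0 hF / m / (p : ℕ)) =
      ((Real.sqrt p : ℂ) * (Real.sqrt m : ℂ))⁻¹ * F.l hF (p * m) * F.A 1 (F.t0 hF) := by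
    have h1 : ((m : ℤ) * (p : ℕ)) = (((p : ℕ) * m : ℕ) : ℤ) := by push_cast; ring
    rw [h1, F.A_eq hF ((p : ℕ) * m) (Nat.mul_pos hp0 hm) _ (by positivity)]
    congr 1
    · congr 2
      rw [← Complex.ofReal_mul, ← Real.sqrt_mul hpR.le]
      push_cast
      rfl
    · congr 1
      push_cast
      field_simp
  have e3 : (if ((p : ℕ) : ℤ) ∣ (m : ℤ) then F.A ((m : ℤ) / (p : ℕ)) ((p : ℕ) * (F.t0 hF / m)) else 0) =
      (Real.sqrt p : ℂ) * (Real.sqrt m : ℂ)⁻¹ * (if (p : ℕ) ∣ m then F.l hF (m / p) else 0) *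
        F.A 1 (F.t0 hF) := by
    by_cases hd : (p : ℕ) ∣ m
    · have hd' : ((p : ℕ) : ℤ) ∣ (m : ℤ) := by exact_mod_cast hd
      rw [if_pos hd, if_pos hd']
      obtain ⟨k, hk⟩ := hd
      have hk0 : 0 < k := by
        rcases Nat.eq_zero_or_pos k with rfl | h
        · simp at hk; omega
        · exact h
      have hkR : (0 : ℝ) < k := by exact_mod_cast hk0
      have hmk : m / (p : ℕ) = k := by rw [hk, Nat.mul_div_cancel_left _ hp0]
      have hmp : (m : ℤ) / (p : ℕ) = ((k : ℕ) : ℤ) := by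
        rw [← hmk]; push_cast; rfl
      rw [hmp, hmk, F.A_eq hF k hk0 _ (by positivity)]
      have hsk : (Real.sqrt k : ℂ) ≠ 0 := by
        have := Real.sqrt_pos.mpr hkR
        exact_mod_cast this.ne'
      have hmk2 : (Real.sqrt m : ℂ) = Real.sqrt p * Real.sqrt k := by
        rw [hk, ← Complex.ofReal_mul, ← Real.sqrt_mul hpR.le]; push_cast; rfl
      have harg : (k : ℝ) * ((p : ℕ) * (F.t0 hF / m)) = F.t0 hF := by
        rw [hk]; push_cast; field_simp
      rw [harg, hmk2]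
      field_simp
    · have hd' : ¬ ((p : ℕ) : ℤ) ∣ (m : ℤ) := by exact_mod_cast hd
      rw [if_neg hd, if_neg hd']
      ring
  rw [e1, e2, e3] at hrel
  generalize (if (p : ℕ) ∣ m then F.l hF (m / p) else 0) = Q at hrel ⊢
  have h5 : (Real.sqrt p : ℂ) * (Real.sqrt m : ℂ)⁻¹ * F.A 1 (F.t0 hF) *
      (F.l hF (p * m) - (F.heckeEigenvalue p * F.l hF m - Q)) = 0 := by
    have h6 : ((p : ℕ) : ℂ) * (((Real.sqrt p : ℂ) * (Real.sqrt m : ℂ))⁻¹) =
        (Real.sqrt p : ℂ) * (Real.sqrt m : ℂ)⁻¹ := by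
      rw [← hsp2]; field_simp
    linear_combination hrel - (F.l hF (p * m) * F.A 1 (F.t0 hF)) * h6
  have h7 : (Real.sqrt p : ℂ) * (Real.sqrt m : ℂ)⁻¹ * F.A 1 (F.t0 hF) ≠ 0 :=
    mul_ne_zero (mul_ne_zero hsp (inv_ne_zero hsm)) hA
  exact sub_eq_zero.1 ((mul_eq_zero.1 h5).resolve_left h7)

lemma norm_l_le (hF : F.IsOdd) (n : ℕ) :
    ‖F.l hF n‖ ≤ F.M / ‖F.A 1 (F.t0 hF)‖ * Real.sqrt n := by
  unfold l
  rw [norm_div, norm_mul, Complex.norm_real, Real.norm_of_nonneg (Real.sqrt_nonneg _)]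
  have hA : 0 < ‖F.A 1 (F.t0 hF)‖ := norm_pos_iff.2 (F.A_t0 hF)
  rw [div_mul_eq_mul_div, div_le_div_iff_of_pos_right hA, mul_comm]
  exact mul_le_mul_of_nonneg_right (F.norm_A_le _ _) (Real.sqrt_nonneg _)

/-- the Whittaker constant -/
noncomputable def cst : ℂ := F.exists_whit.choose

lemma A_one_eq {y : ℝ} (hy : 0 < y) : F.A 1 y = F.cst * whit F.kap y := F.exists_whit.choose_spec y hy

lemma cst_ne_zero (hF : F.IsOdd) : F.cst ≠ 0 := by
  intro h
  apply F.A_t0 hF
  rw [F.A_one_eq (F.t0_pos hF), h, zero_mul]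

/-- exponential decay of the Whittaker function -/
lemma A_one_decay : ∃ C : ℝ, 0 ≤ C ∧ ∀ y : ℝ, 1 ≤ y → ‖F.A 1 y‖ ≤ C * Real.exp (-Real.pi * y) := by
  obtain ⟨W', h1, h2, C, hC⟩ := Pool.Agent.W31.KB.whit_ode F.kap
  refine ⟨‖F.cst‖ * |C|, by positivity, fun y hy => ?_⟩
  rw [F.A_one_eq (by linarith), norm_mul, mul_assoc]
  refine mul_le_mul_of_nonneg_left ?_ (norm_nonneg _)
  refine (hC y hy).1.trans ?_
  exact mul_le_mul_of_nonneg_right (le_abs_self C) (Real.exp_pos _).le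

end HeckeMaassCuspForm
end Pool.Agent.W384
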