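import Mathlib

set_option autoImplicit false

namespace Pool.Agent.W384

/-- A commuting family of operators preserving a nonzero finite dimensional space has a common
eigenvector there. -/
theorem common_eigen {X : Type*} [AddCommGroup X] [Module ℂ X] {ι : Type*} (T : ι → X →ₗ[ℂ] X)
    (hcomm : ∀ i j x, T i (T j x) = T j (T i x)) :
    ∀ (n : ℕ) (W : Submodule ℂ X) [FiniteDimensional ℂ W], Module.finrank ℂ W = n → W ≠ ⊥ →
      (∀ i, ∀ x ∈ W, T i x ∈ W) → ∃ x ∈ W, x ≠ 0 ∧ ∀ i, ∃ c : ℂ, T i x = c • x := by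
  intro n
  induction n using Nat.strong_induction_on with
  | _ n ih =>
    intro W _ hn hW hinv
    by_cases hall : ∀ i, ∃ c : ℂ, ∀ x ∈ W, T i x = c • x
    · obtain ⟨x, hx, hx0⟩ := W.ne_bot_iff.1 hW
      refine ⟨x, hx, hx0, fun i => ?_⟩
      obtain ⟨c, hc⟩ := hall i
      exact ⟨c, hc x hx⟩
    · push Not at hall
      obtain ⟨i, hi⟩ := hall
      have : Nontrivial W := W.nontrivial_iff_ne_bot.2 hW
      obtain ⟨c, hc⟩ := Module.End.exists_eigenvalue ((T i).restrict (hinv i))
      obtain ⟨v, hv⟩ := hc.exists_hasEigenvector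
      let W' : Submodule ℂ X := W ⊓ LinearMap.ker (T i - c • LinearMap.id)
      have hW'le : W' ≤ W := inf_le_left
      have hmem : ∀ x, x ∈ W' ↔ x ∈ W ∧ T i x = c • x := by
        intro x
        simp [W', sub_eq_zero]
      have hne : W' ≠ ⊥ := by
        rw [Submodule.ne_bot_iff]
        refine ⟨v, (hmem _).2 ⟨v.2, ?_⟩, ?_⟩
        · have := hv.apply_eq_smul
          have h2 := congrArg Subtype.val this
          simpa using h2
        · have := hv.2
          simpa using this
      have hlt : W' < W := by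
        refine lt_of_le_of_ne hW'le fun h => ?_
        obtain ⟨x, hx, hxne⟩ := hi c
        rw [← h] at hx
        exact hxne ((hmem x).1 hx).2
      have : FiniteDimensional ℂ W' := Submodule.finiteDimensional_of_le hW'le
      have hfr : Module.finrank ℂ W' < n := by
        rw [← hn]; exact Submodule.finrank_lt_finrank_of_lt hlt
      have hinv' : ∀ j, ∀ x ∈ W', T j x ∈ W' := by
        intro j x hx
        rw [hmem] at hx ⊢
        refine ⟨hinv j x hx.1, ?_⟩
        rw [hcomm i j, hx.2, map_smul]
      obtain ⟨x, hx, hx0, hx'⟩ := ih _ hfr W' rfl hne hinv'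
      exact ⟨x, hW'le hx, hx0, hx'⟩

end Pool.Agent.W384
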