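import Pool.Agent.W384.Four

set_option autoImplicit false

open Filter Topology

namespace Pool.Agent.W384

variable {N : ℕ} [NeZero N]

/-- the Gauss sum of a Dirichlet character -/
noncomputable def tau (χ : DirichletCharacter ℂ N) : ℂ := gaussSum χ (ZMod.stdAddChar (N := N))

lemma isPrimitive_std : (ZMod.stdAddChar (N := N)).IsPrimitive := ZMod.isPrimitive_stdAddChar N

lemma sum_char (χ : DirichletCharacter ℂ N) (hχ : χ.IsPrimitive) (hsq : χ ^ 2 = 1) (n : ℤ) :
    ∑ a : ZMod N, χ a * ee n ((a.val : ℝ) / N) = χ n * tau χ := by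
  have hinv : χ⁻¹ = χ := by
    rw [inv_eq_iff_mul_eq_one, ← sq, hsq]
  have h1 := gaussSum_mulShift_of_isPrimitive (ZMod.stdAddChar (N := N)) hχ (n : ZMod N)
  rw [hinv] at h1
  change _ = χ n * gaussSum χ (ZMod.stdAddChar (N := N))
  rw [← h1]
  unfold gaussSum
  refine Finset.sum_congr rfl fun a _ => ?_
  congr 1
  rw [AddChar.mulShift_apply]
  have h2 : (n : ZMod N) * a = ((n * a.val : ℤ) : ZMod N) := by
    push_cast
    rw [ZMod.natCast_zmod_val]
  rw [h2, ZMod.stdAddChar_coe]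
  unfold ee
  congr 1
  push_cast
  ring

lemma tau_ne_zero (χ : DirichletCharacter ℂ N) (hχ : χ.IsPrimitive) : tau χ ≠ 0 := by
  intro h
  have h1 : ZMod.dft (fun a : ZMod N => χ a) = 0 := by
    funext k
    have := DirichletCharacter.IsPrimitive.fourierTransform_eq_inv_mul_gaussSum hχ k
    rw [this]
    change χ⁻¹ (-k) * tau χ = 0
    rw [h, mul_zero]
  have h2 : (fun a : ZMod N => χ a) = 0 := by
    have := congrArg ZMod.dft.symm h1
    simpa using this
  have h3 := congrFun h2 1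
  simp at h3

/-- sum over `n ∈ ℤ` folded to `n ∈ ℕ` -/
lemma fold_sum {f : ℤ → ℂ} (hf : Summable f) (h0 : f 0 = 0) (hs : ∀ n, f (-n) = f n) :
    ∑' n : ℤ, f n = 2 * ∑' n : ℕ, f n := by
  have h1 := tsum_of_nat_of_neg_add_one (f := f)
    (hf.comp_injective (i := fun n : ℕ => (n : ℤ)) Nat.cast_injective)
    (hf.comp_injective (i := fun n : ℕ => (-((n : ℤ) + 1) : ℤ)) (by
      intro a b hab; simp at hab; exact hab))
  rw [h1, two_mul]
  congr 1
  have h2 : Summable (fun n : ℕ => f n) :=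
    hf.comp_injective (i := fun n : ℕ => (n : ℤ)) Nat.cast_injective
  rw [h2.tsum_eq_zero_add]
  simp only [Nat.cast_zero, h0, zero_add]
  refine tsum_congr fun n => ?_
  rw [hs]
  push_cast
  rfl

lemma twist_sum (χ : DirichletCharacter ℂ N) (hχ : χ.IsPrimitive) (hsq : χ ^ 2 = 1)
    (K : ℝ → ℂ) (c : ℤ → ℂ) (hc : Summable c) (hK : ∀ x, HasSum (fun n => c n * ee n x) (K x))
    (hc0 : c 0 = 0) (hs : ∀ n : ℤ, c (-n) * χ ((-n : ℤ) : ZMod N) = c n * χ (n : ZMod N)) :
    ∑ a : ZMod N, χ a * K ((a.val : ℝ) / N) = 2 * tau χ * ∑' n : ℕ, c n * χ n := by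
  have h1 : HasSum (fun n : ℤ => ∑ a : ZMod N, χ a * (c n * ee n ((a.val : ℝ) / N)))
      (∑ a : ZMod N, χ a * K ((a.val : ℝ) / N)) :=
    hasSum_sum fun a _ => (hK _).mul_left _
  have h2 : ∀ n : ℤ, ∑ a : ZMod N, χ a * (c n * ee n ((a.val : ℝ) / N)) =
      tau χ * (c n * χ n) := by
    intro n
    have : ∀ a : ZMod N, χ a * (c n * ee n ((a.val : ℝ) / N)) =
        c n * (χ a * ee n ((a.val : ℝ) / N)) := fun a => by ring
    simp_rw [this]
    rw [← Finset.mul_sum, sum_char χ hχ hsq]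
    ring
  simp_rw [h2] at h1
  have h3 : Summable (fun n : ℤ => c n * χ n) := by
    refine Summable.of_norm_bounded (g := fun n => ‖c n‖) hc.norm fun n => ?_
    rw [norm_mul]
    exact mul_le_of_le_one_right (norm_nonneg _) (DirichletCharacter.norm_le_one χ _)
  rw [← h1.tsum_eq, tsum_mul_left, fold_sum h3 (by simp [hc0]) (by
    intro n; exact hs n)]
  push_cast
  ring

end Pool.Agent.W384
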