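import Pool.Agent.W384.Coef
import Pool.Agent.W384.Gauss

set_option autoImplicit false

open UpperHalfPlane MeasureTheory Filter Topology Function
open scoped MatrixGroups ContDiff

namespace Pool.Agent.W384
namespace HeckeMaassCuspForm

variable (F : HeckeMaassCuspForm)

lemma G_cusp {a a' b : ℤ} {q : ℕ} (hq : 0 < q) (hab : a * a' + b * q = -1) {w : ℂ} (hw : w ∈ UH) :
    F.G ((a : ℂ) / q + w) = F.G ((a' : ℂ) / q - 1 / ((q : ℂ) ^ 2 * w)) := by
  have hw' : 0 < w.im := hw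
  have hw0 : w ≠ 0 := fun h => by simp [h] at hw'
  have hqC : (q : ℂ) ≠ 0 := by exact_mod_cast hq.ne'
  have hz : 0 < ((a : ℂ) / q + w).im := by
    have : ((a : ℂ) / q).im = 0 := by
      have : (a : ℂ) / q = (((a : ℝ) / q : ℝ) : ℂ) := by push_cast; rfl
      rw [this, Complex.ofReal_im]
    rw [Complex.add_im, this, zero_add]
    exact hw'
  let z : ℍ := ⟨(a : ℂ) / q + w, hz⟩
  let γ : SL(2, ℤ) := ⟨!![a', b; (q : ℤ), -a], by
    rw [Matrix.det_fin_two_of]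
    linarith⟩
  have h1 := F.invariant γ z
  rw [← F.G_coe, ← F.G_coe] at h1
  have h2 : ((γ • z : ℍ) : ℂ) = (a' : ℂ) / q - 1 / ((q : ℂ) ^ 2 * w) := by
    rw [coe_specialLinearGroup_apply]
    have e00 : γ 0 0 = a' := rfl
    have e01 : γ 0 1 = b := rfl
    have e10 : γ 1 0 = (q : ℤ) := rfl
    have e11 : γ 1 1 = -a := rfl
    have ez : (z : ℂ) = (a : ℂ) / q + w := rfl
    rw [e00, e01, e10, e11, ez]
    simp only [algebraMap_int_eq, eq_intCast, Int.cast_natCast, Int.cast_neg, Complex.ofReal_intCast,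
      Complex.ofReal_natCast, Complex.ofReal_neg]
    have hab' : (a : ℂ) * a' + b * q = -1 := by exact_mod_cast hab
    have h3 : (q : ℂ) * ((a : ℂ) / q + w) + -(a : ℂ) = q * w := by
      field_simp; ring
    rw [h3]
    field_simp
    linear_combination hab'
  rw [h2] at h1
  exact h1.symm

lemma G_cusp_pt {a a' b : ℤ} {q : ℕ} (hq : 0 < q) (hab : a * a' + b * q = -1) {y : ℝ} (hy : 0 < y) :
    F.G (pt (a / q) y) = F.G (pt (a' / q) (1 / ((q : ℝ) ^ 2 * y))) := by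
  have h1 := F.G_cusp hq hab (w := y * Complex.I) (by
    change 0 < ((y : ℂ) * Complex.I).im
    simpa using hy)
  have hqC : (q : ℂ) ≠ 0 := by exact_mod_cast hq.ne'
  have hyC : (y : ℂ) ≠ 0 := by exact_mod_cast hy.ne'
  have h2 : pt (a / q) y = (a : ℂ) / q + y * Complex.I := by
    unfold pt; push_cast; rfl
  have h3 : pt (a' / q) (1 / ((q : ℝ) ^ 2 * y)) = (a' : ℂ) / q - 1 / ((q : ℂ) ^ 2 * (y * Complex.I)) := by
    unfold pt; push_cast
    field_simp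
    have : Complex.I ^ 2 = -1 := Complex.I_sq
    linear_combination this
  rw [h2, h3]
  exact h1

lemma Gx_cusp_pt {a a' b : ℤ} {q : ℕ} (hq : 0 < q) (hab : a * a' + b * q = -1) {y : ℝ} (hy : 0 < y) :
    F.Gx (pt (a / q) y) = -((q : ℂ) ^ 2 * (y : ℂ) ^ 2)⁻¹ *
      F.Gx (pt (a' / q) (1 / ((q : ℝ) ^ 2 * y))) := by
  have hqC : (q : ℂ) ≠ 0 := by exact_mod_cast hq.ne'
  have hyC : (y : ℂ) ≠ 0 := by exact_mod_cast hy.ne'
  have hqR : (0 : ℝ) < q := by exact_mod_cast hq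
  -- the left hand side as a derivative
  have h1 : HasDerivAt (fun u : ℝ => F.G ((a : ℂ) / q + (u + y * Complex.I)))
      (F.Gx (pt (a / q) y)) (0 : ℝ) := by
    have h2 := F.hasDerivAt_G hy (a / q)
    have h2' : HasDerivAt (fun t : ℝ => F.G (pt t y)) (F.Gx (pt (a / q) y)) ((a : ℝ) / q + 0) := by
      rw [add_zero]; exact h2
    have h3 := HasDerivAt.comp_const_add ((a : ℝ) / q) (0 : ℝ) h2'
    refine h3.congr_of_eventuallyEq (Eventually.of_forall fun u => ?_)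
    change F.G _ = F.G _
    congr 1
    unfold pt; push_cast; ring
  -- the right hand side
  have h3 : pt (a' / q) (1 / ((q : ℝ) ^ 2 * y)) = (a' : ℂ) / q - 1 / ((q : ℂ) ^ 2 * (y * Complex.I)) := by
    unfold pt; push_cast
    field_simp
    have : Complex.I ^ 2 = -1 := Complex.I_sq
    linear_combination this
  have hmem : pt (a' / q) (1 / ((q : ℝ) ^ 2 * y)) ∈ UH := pt_mem (by positivity)
  have hG : DifferentiableAt ℝ F.G (pt (a' / q) (1 / ((q : ℝ) ^ 2 * y))) :=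
    (F.G_smooth.contDiffAt (isOpen_UH.mem_nhds hmem)).differentiableAt (by simp)
  have hinner : HasDerivAt (fun u : ℝ => (a' : ℂ) / q - 1 / ((q : ℂ) ^ 2 * (u + y * Complex.I)))
      (-((q : ℂ) ^ 2 * (y : ℂ) ^ 2)⁻¹) (0 : ℝ) := by
    have h4 : HasDerivAt (fun u : ℝ => ((q : ℂ) ^ 2 * ((u : ℂ) + y * Complex.I)))
        ((q : ℂ) ^ 2 * 1) (0 : ℝ) :=
      ((Complex.ofRealCLM.hasDerivAt (x := (0 : ℝ))).add_const _).const_mul _
    have h5 : (q : ℂ) ^ 2 * (((0 : ℝ) : ℂ) + y * Complex.I) ≠ 0 := by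
      simp [hqC, hyC]
    have h6 := (h4.inv h5).const_sub ((a' : ℂ) / q)
    have h7 := h6.congr_of_eventuallyEq (f₁ := fun u : ℝ => (a' : ℂ) / q - 1 /
      ((q : ℂ) ^ 2 * (u + y * Complex.I))) (Eventually.of_forall fun u => by simp [one_div])
    refine h7.congr_deriv ?_
    simp only [Complex.ofReal_zero, zero_add, mul_one]
    have : Complex.I ^ 2 = -1 := Complex.I_sq
    field_simp
    rw [this]
    ring
  have h0 : (fun u : ℝ => (a' : ℂ) / q - 1 / ((q : ℂ) ^ 2 * (u + y * Complex.I))) 0 =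
      pt (a' / q) (1 / ((q : ℝ) ^ 2 * y)) := by
    rw [h3]; simp
  have h5 : HasDerivAt (fun u : ℝ => F.G ((a' : ℂ) / q - 1 / ((q : ℂ) ^ 2 * (u + y * Complex.I))))
      (fderiv ℝ F.G (pt (a' / q) (1 / ((q : ℝ) ^ 2 * y))) (-((q : ℂ) ^ 2 * (y : ℂ) ^ 2)⁻¹)) (0 : ℝ) := by
    have hG' : HasFDerivAt F.G (fderiv ℝ F.G (pt (a' / q) (1 / ((q : ℝ) ^ 2 * y))))
        ((fun u : ℝ => (a' : ℂ) / q - 1 / ((q : ℂ) ^ 2 * (u + y * Complex.I))) 0) := by
      rw [h0]; exact hG.hasFDerivAt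
    exact hG'.comp_hasDerivAt (0 : ℝ) hinner
  have h6 : HasDerivAt (fun u : ℝ => F.G ((a : ℂ) / q + (u + y * Complex.I)))
      (fderiv ℝ F.G (pt (a' / q) (1 / ((q : ℝ) ^ 2 * y))) (-((q : ℂ) ^ 2 * (y : ℂ) ^ 2)⁻¹)) (0 : ℝ) := by
    refine h5.congr_of_eventuallyEq (Eventually.of_forall fun u => ?_)
    exact F.G_cusp hq hab (w := u + y * Complex.I) (by
      change 0 < ((u : ℂ) + (y : ℂ) * Complex.I).im
      simpa using hy)
  have h7 := h1.unique h6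
  rw [h7]
  have h8 : (-((q : ℂ) ^ 2 * (y : ℂ) ^ 2)⁻¹) = (-((q : ℝ) ^ 2 * y ^ 2)⁻¹ : ℝ) • (1 : ℂ) := by
    rw [Complex.real_smul]; push_cast; ring
  rw [h8, map_smul]
  simp only [Complex.real_smul]
  unfold Gx
  push_cast
  ring

/-- the twisted sums -/
noncomputable def S {N : ℕ} [NeZero N] (χ : DirichletCharacter ℂ N) (y : ℝ) : ℂ :=
  ∑ a : ZMod N, χ a * F.G (pt ((a.val : ℝ) / N) y)

/-- the twisted sums of derivatives -/
noncomputable def S' {N : ℕ} [NeZero N] (χ : DirichletCharacter ℂ N) (y : ℝ) : ℂ :=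
  ∑ a : ZMod N, χ a * F.Gx (pt ((a.val : ℝ) / N) y)

end HeckeMaassCuspForm

/-- reindexing by `a ↦ -a⁻¹` -/
lemma reindex {N : ℕ} [NeZero N] (χ : DirichletCharacter ℂ N) (hsq : χ ^ 2 = 1)
    (f g : ZMod N → ℂ) (hfg : ∀ a a' : ZMod N, a * a' = -1 → f a = g a') :
    ∑ a : ZMod N, χ a * f a = χ (-1) * ∑ a : ZMod N, χ a * g a := by
  classical
  rw [Finset.mul_sum]
  have h1 : ∀ (h : ZMod N → ℂ), ∑ a : ZMod N, χ a * h a = ∑ u : (ZMod N)ˣ, χ u * h u := by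
    intro h
    symm
    rw [← Finset.sum_subset (Finset.subset_univ (Finset.univ.image (fun u : (ZMod N)ˣ => (u : ZMod N))))]
    · rw [Finset.sum_image (fun u _ v _ huv => Units.ext huv)]
    · intro a _ ha
      have : ¬ IsUnit a := by
        rintro ⟨u, rfl⟩
        exact ha (Finset.mem_image_of_mem _ (Finset.mem_univ _))
      rw [MulChar.map_nonunit χ this, zero_mul]
  have h2 : ∀ a : ZMod N, χ (-1) * (χ a * g a) = χ a * (χ (-1) * g a) := fun a => by ring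
  simp_rw [h2]
  rw [h1, h1]
  refine Fintype.sum_equiv ((Equiv.inv (ZMod N)ˣ).trans (Equiv.neg (ZMod N)ˣ)) _ _ fun u => ?_
  simp only [Equiv.trans_apply, Equiv.inv_apply, Equiv.neg_apply]
  have h3 : f u = g ((-u⁻¹ : (ZMod N)ˣ) : ZMod N) := by
    apply hfg
    push_cast
    simp
  rw [h3]
  have h4 : χ ((-u⁻¹ : (ZMod N)ˣ) : ZMod N) * χ (-1) = χ u := by
    have h5 : χ ((-u⁻¹ : (ZMod N)ˣ) : ZMod N) * χ (-1) = χ ((u⁻¹ : (ZMod N)ˣ) : ZMod N) := by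
      rw [← map_mul]; congr 1; push_cast; ring
    rw [h5]
    have h6 : χ ((u : ZMod N)) ^ 2 = 1 := by
      have := congrArg (fun ψ : DirichletCharacter ℂ N => ψ (u : ZMod N)) hsq
      simpa [MulChar.pow_apply_coe] using this
    have h7 : χ ((u⁻¹ : (ZMod N)ˣ) : ZMod N) * χ (u : ZMod N) = 1 := by
      rw [← map_mul]; simp
    have h8 : χ (u : ZMod N) ≠ 0 := right_ne_zero_of_mul_eq_one h7
    apply mul_right_cancel₀ h8
    rw [h7, ← sq, h6]
  rw [← mul_assoc, h4]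

namespace HeckeMaassCuspForm

variable (F : HeckeMaassCuspForm) {N : ℕ} [NeZero N] (χ : DirichletCharacter ℂ N)

lemma exists_b {a a' : ZMod N} (h : a * a' = -1) : ∃ b : ℤ, (a.val : ℤ) * (a'.val : ℤ) + b * N = -1 := by
  have h1 : (((a.val : ℤ) * (a'.val : ℤ) + 1 : ℤ) : ZMod N) = 0 := by
    push_cast
    rw [ZMod.natCast_zmod_val, ZMod.natCast_zmod_val, h]
    ring
  rw [ZMod.intCast_zmod_eq_zero_iff_dvd] at h1
  obtain ⟨k, hk⟩ := h1
  exact ⟨-k, by linarith⟩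

lemma S_fe (hsq : χ ^ 2 = 1) {y : ℝ} (hy : 0 < y) :
    F.S χ y = χ (-1) * F.S χ (1 / ((N : ℝ) ^ 2 * y)) := by
  unfold S
  refine reindex χ hsq _ _ fun a a' h => ?_
  obtain ⟨b, hb⟩ := exists_b h
  have := F.G_cusp_pt (NeZero.pos N) hb hy
  simpa using this

lemma S'_fe (hsq : χ ^ 2 = 1) {y : ℝ} (hy : 0 < y) :
    F.S' χ y = χ (-1) * (-((N : ℂ) ^ 2 * (y : ℂ) ^ 2)⁻¹) * F.S' χ (1 / ((N : ℝ) ^ 2 * y)) := by
  unfold S'
  rw [mul_assoc, Finset.mul_sum]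
  have : ∀ a : ZMod N, -((N : ℂ) ^ 2 * (y : ℂ) ^ 2)⁻¹ *
      (χ a * F.Gx (pt ((a.val : ℝ) / N) (1 / ((N : ℝ) ^ 2 * y)))) =
      χ a * (-((N : ℂ) ^ 2 * (y : ℂ) ^ 2)⁻¹ * F.Gx (pt ((a.val : ℝ) / N) (1 / ((N : ℝ) ^ 2 * y)))) :=
    fun a => by ring
  simp_rw [this]
  refine reindex χ hsq _ _ fun a a' h => ?_
  obtain ⟨b, hb⟩ := exists_b h
  have := F.Gx_cusp_pt (NeZero.pos N) hb hy
  simpa using this

end HeckeMaassCuspForm
end Pool.Agent.W384
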