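import Mathlib

/-!
Basic definitions for the project on odd Hecke-Maass forms of level one.
-/

set_option autoImplicit false

open UpperHalfPlane MeasureTheory Filter Topology
open scoped MatrixGroups BoundedContinuousFunction

namespace Pool.Agent.W384

/-- `uu z w = |z-w|²/(2 Im z Im w) = cosh d(z,w) - 1`. -/
noncomputable def uu (z w : ℍ) : ℝ := dist (z : ℂ) (w : ℂ) ^ 2 / (2 * z.im * w.im)

/-- The integral operator with point pair invariant kernel `Φ (uu z w)`, with respect to the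
invariant measure `dx dy / y²`. -/
noncomputable def kerOp (Φ : ℝ → ℝ) (f : ℍ → ℂ) (z : ℍ) : ℂ :=
  ∫ w : ℍ, (Φ (uu z w) : ℂ) * f w

/-- The radial part of the hyperbolic Laplacian `y² (∂x² + ∂y²)` acting on `Φ (uu z w)`. -/
noncomputable def lapΦ (Φ : ℝ → ℝ) (t : ℝ) : ℝ :=
  ((t + 1) ^ 2 - 1) * deriv (deriv Φ) t + 2 * (t + 1) * deriv Φ t

/-- Bounded continuous functions on the upper half-plane that are invariant under `SL(2,ℤ)` and
odd under the reflection `z ↦ -conj z`. -/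
noncomputable def OddInv : Submodule ℂ (ℍ →ᵇ ℂ) where
  carrier := {f | (∀ (γ : SL(2, ℤ)) (z : ℍ), f (γ • z) = f z) ∧ ∀ z : ℍ, f (J • z) = - f z}
  add_mem' := by
    rintro f g ⟨hf, hf'⟩ ⟨hg, hg'⟩
    refine ⟨fun γ z => ?_, fun z => ?_⟩
    · change f (γ • z) + g (γ • z) = f z + g z
      rw [hf, hg]
    · simp [hf', hg']; ring
  zero_mem' := by
    refine ⟨fun γ z => ?_, fun z => ?_⟩ <;> simp
  smul_mem' := by
    rintro c f ⟨hf, hf'⟩
    refine ⟨fun γ z => ?_, fun z => ?_⟩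
    · change c • f (γ • z) = c • f z
      rw [hf]
    · simp [hf']

/-- `whit ν y = √y K_ν(2πy)`, with `K_ν(x) = ½ ∫_ℝ exp(-x cosh u) exp(ν u) du`. -/
noncomputable def whit (ν : ℂ) (y : ℝ) : ℂ :=
  (Real.sqrt y : ℂ) * ((1 / 2 : ℂ) *
    ∫ u : ℝ, Complex.exp (-(2 * Real.pi * y * Real.cosh u : ℝ)) * Complex.exp (ν * u))

end Pool.Agent.W384
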