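import Pool.Agent.W384.Nonzero
import Pool.Agent.W384.Common
import Pool.Agent.W783.KerOp2
import Pool.Agent.W2.CompOdd
import Pool.Agent.W634.S384.Eigen
import Pool.Agent.W500.Unfold2

set_option autoImplicit false

open UpperHalfPlane MeasureTheory Filter Topology
open scoped MatrixGroups BoundedContinuousFunction ContDiff Pointwise Modular

namespace Pool.Agent.W384

lemma isClosed_OddInv : IsClosed ((OddInv : Submodule ℂ (ℍ →ᵇ ℂ)) : Set (ℍ →ᵇ ℂ)) := by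
  have h : ((OddInv : Submodule ℂ (ℍ →ᵇ ℂ)) : Set (ℍ →ᵇ ℂ)) =
      (⋂ (γ : SL(2, ℤ)) (z : ℍ), {f : ℍ →ᵇ ℂ | f (γ • z) = f z}) ∩
      (⋂ z : ℍ, {f : ℍ →ᵇ ℂ | f (J • z) = - f z}) := by
    ext f
    constructor
    · rintro ⟨h1, h2⟩
      refine ⟨?_, ?_⟩
      · simp only [Set.mem_iInter]
        exact h1
      · simp only [Set.mem_iInter]
        exact h2
    · rintro ⟨h1, h2⟩
      simp only [Set.mem_iInter] at h1 h2
      exact ⟨h1, h2⟩
  rw [h]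
  refine IsClosed.inter ?_ ?_
  · refine isClosed_iInter fun γ => isClosed_iInter fun z => ?_
    exact isClosed_eq (continuous_eval_const _)
      (continuous_eval_const _)
  · refine isClosed_iInter fun z => ?_
    exact isClosed_eq (continuous_eval_const _)
      (continuous_eval_const _).neg

instance : CompleteSpace (OddInv : Submodule ℂ (ℍ →ᵇ ℂ)) := isClosed_OddInv.completeSpace_coe

lemma finiteDim_eigen {X : Type*} [NormedAddCommGroup X] [NormedSpace ℂ X] [CompleteSpace X]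
    (T : X →L[ℂ] X) (hT : IsCompactOperator T) (μ : ℂ) (hμ : μ ≠ 0) :
    FiniteDimensional ℂ (Module.End.eigenspace T.toLinearMap μ) := by
  replace hT := hT.restrict' ((Module.End.mem_invtSubmodule_iff_forall_mem_of_mem _).mp
    (Module.End.eigenspace_mem_invtSubmodule T.toLinearMap μ))
  rw [Module.End.restrict_eigenspace, LinearMap.coe_smul, IsCompactOperator.smul_iff₀ hμ] at hT
  rwa [← isCompactOperator_id_iff_finiteDimensional (𝕜 := ℂ)]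

lemma contDiff_lapΦ {Φ : ℝ → ℝ} (hΦ : ContDiff ℝ ∞ Φ) : ContDiff ℝ ∞ (lapΦ Φ) := by
  have h1 : ContDiff ℝ ∞ (deriv Φ) := (contDiff_infty_iff_deriv.1 hΦ).2
  have h2 : ContDiff ℝ ∞ (deriv (deriv Φ)) := (contDiff_infty_iff_deriv.1 h1).2
  unfold lapΦ
  fun_prop

lemma hasCompactSupport_lapΦ {Φ : ℝ → ℝ} (hc : HasCompactSupport Φ) :
    HasCompactSupport (lapΦ Φ) := by
  unfold lapΦ
  exact (hc.deriv.deriv.mul_left).add (hc.deriv.mul_left)

theorem exists_form : ∃ f : OddInv, f ≠ 0 ∧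
    ContDiffOn ℝ ∞ (fun z : ℂ => (f : ℍ →ᵇ ℂ) (ofComplex z)) {z | 0 < z.im} ∧
    (∃ ν : ℂ, ∀ z : ℍ, (z.im : ℂ) ^ 2 *
      (Laplacian.laplacian (fun z : ℂ => (f : ℍ →ᵇ ℂ) (ofComplex z)) : ℂ → ℂ) (z : ℂ) =
        ν * (f : ℍ →ᵇ ℂ) z) ∧
    (∀ p : ℕ, p.Prime → ∃ a : ℂ, ∀ z : ℍ, heckeT p (f : ℍ →ᵇ ℂ) z = a * (f : ℍ →ᵇ ℂ) z) := by
  obtain ⟨Φ, hΦ, hc, hne⟩ := exists_ker
  set T := kerL Φ hΦ hc with hT
  obtain ⟨C, hC0, hC⟩ := kerOp_lipschitz hΦ hc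
  have hcomp : IsCompactOperator T := by
    refine Pool.Agent.W2.E384.compact_of_lipschitz T C fun f z w => ?_
    exact hC _ f.1.continuous ‖f‖ (fun z => f.1.norm_coe_le_norm z) z w
  obtain ⟨φ, hφm, hφ0, hφi, hφpos, hφsymm⟩ := Pool.Agent.W500.kerOp_symm
  -- integrability of φ * bounded
  have hint : ∀ F : ℍ → ℂ, Continuous F → (∃ M, ∀ z, ‖F z‖ ≤ M) →
      Integrable (fun z => (φ z : ℂ) * F z) := by
    rintro F hF ⟨M, hM⟩
    refine Integrable.mono' (hφi.mul_const M) ?_ ?_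
    · exact ((Complex.continuous_ofReal.measurable.comp hφm).mul hF.measurable).aestronglyMeasurable
    · refine Eventually.of_forall fun z => ?_
      rw [norm_mul, Complex.norm_real, Real.norm_of_nonneg (hφ0 z)]
      exact mul_le_mul_of_nonneg_left (hM z) (hφ0 z)
  have hbdd : ∀ f g : OddInv, Continuous (fun z => starRingEnd ℂ ((f : ℍ →ᵇ ℂ) z) * (g : ℍ →ᵇ ℂ) z) ∧
      ∃ M, ∀ z, ‖starRingEnd ℂ ((f : ℍ →ᵇ ℂ) z) * (g : ℍ →ᵇ ℂ) z‖ ≤ M := by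
    intro f g
    refine ⟨(Complex.continuous_conj.comp f.1.continuous).mul g.1.continuous, ‖f‖ * ‖g‖,
      fun z => ?_⟩
    rw [norm_mul, RCLike.norm_conj]
    exact mul_le_mul (f.1.norm_coe_le_norm z) (g.1.norm_coe_le_norm z) (norm_nonneg _)
      (norm_nonneg _)
  let B : OddInv → OddInv → ℂ := fun f g =>
    ∫ z : ℍ, (φ z : ℂ) * (starRingEnd ℂ ((f : ℍ →ᵇ ℂ) z) * (g : ℍ →ᵇ ℂ) z)
  have hB : ∀ f g, B f g = ∫ z : ℍ, (φ z : ℂ) * (starRingEnd ℂ ((f : ℍ →ᵇ ℂ) z) * (g : ℍ →ᵇ ℂ) z) :=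
    fun _ _ => rfl
  have hBB : ∀ f : OddInv, B f f = ((∫ z : ℍ, φ z * ‖(f : ℍ →ᵇ ℂ) z‖ ^ 2 : ℝ) : ℂ) := by
    intro f
    rw [hB, ← integral_complex_ofReal]
    congr 1
    funext z
    rw [Complex.conj_mul']
    push_cast
    rfl
  have hintr : ∀ f : OddInv, Integrable (fun z : ℍ => φ z * ‖(f : ℍ →ᵇ ℂ) z‖ ^ 2) := by
    intro f
    have h1 := (hint _ (hbdd f f).1 (hbdd f f).2).re
    refine h1.congr (Eventually.of_forall fun z => ?_)
    simp only [RCLike.re_to_complex]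
    rw [Complex.conj_mul', ← Complex.ofReal_pow, ← Complex.ofReal_mul, Complex.ofReal_re]
  -- nondegeneracy
  have hnd : ∀ f : OddInv, f ≠ 0 → B f f ≠ 0 := by
    intro f hf h0
    rw [hBB] at h0
    have h1 : ∫ z : ℍ, φ z * ‖(f : ℍ →ᵇ ℂ) z‖ ^ 2 = 0 := by exact_mod_cast h0
    rw [integral_eq_zero_iff_of_nonneg (fun z => mul_nonneg (hφ0 z) (by positivity))
      (hintr f)] at h1
    apply hf
    apply Subtype.ext
    ext z
    by_contra hz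
    obtain ⟨γ, hγ⟩ := ModularGroup.exists_smul_mem_fd z
    have hz' : (f : ℍ →ᵇ ℂ) (γ • z) ≠ 0 := by
      rw [f.2.1 γ z]; exact hz
    -- open set where f is nonzero meets fdo
    have hopen : IsOpen {w : ℍ | (f : ℍ →ᵇ ℂ) w ≠ 0} :=
      isOpen_ne_fun f.1.continuous continuous_const
    have hcl : γ • z ∈ closure (𝒟ᵒ : Set ℍ) := by rw [← ModularGroup.fd_eq_closure_fdo]; exact hγ
    obtain ⟨w, hw1, hw2⟩ := mem_closure_iff.1 hcl _ hopen hz'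
    have hopen2 : IsOpen ({w : ℍ | (f : ℍ →ᵇ ℂ) w ≠ 0} ∩ 𝒟ᵒ) := hopen.inter ModularGroup.isOpen_fdo
    have hpos := hopen2.measure_pos (volume : Measure ℍ) ⟨w, hw1, hw2⟩
    have hzero : volume ({w : ℍ | (f : ℍ →ᵇ ℂ) w ≠ 0} ∩ 𝒟ᵒ) = 0 := by
      refine measure_mono_null ?_ h1
      rintro v ⟨hv1, hv2⟩ hv3
      have h4 : φ v * ‖(f : ℍ →ᵇ ℂ) v‖ ^ 2 = 0 := hv3
      rcases mul_eq_zero.1 h4 with h5 | h5
      · exact (hφpos v (ModularGroup.fdo_subset_fd hv2)).ne' h5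
      · exact hv1 (norm_eq_zero.1 (pow_eq_zero_iff (two_ne_zero)|>.1 h5))
    exact hpos.ne' hzero
  obtain ⟨μ, hμ0, x, hx0, hx⟩ := Pool.Agent.W634.S384.exists_eigenvalue T hcomp B (∫ z : ℍ, φ z)
    (by
      intro x y z
      rw [hB, hB, hB, ← integral_add (hint _ (hbdd x y).1 (hbdd x y).2)
        (hint _ (hbdd x z).1 (hbdd x z).2)]
      congr 1
      funext w
      change (φ w : ℂ) * (starRingEnd ℂ ((x : ℍ →ᵇ ℂ) w) * ((y : ℍ →ᵇ ℂ) w + (z : ℍ →ᵇ ℂ) w)) = _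
      ring)
    (by
      intro c x y
      rw [hB, hB, ← integral_const_mul]
      congr 1
      funext w
      change (φ w : ℂ) * (starRingEnd ℂ ((x : ℍ →ᵇ ℂ) w) * (c * (y : ℍ →ᵇ ℂ) w)) = _
      ring)
    (by
      intro x y
      rw [hB, hB, ← integral_conj]
      congr 1
      funext w
      simp only [map_mul, Complex.conj_ofReal, Complex.conj_conj]
      ring)
    (by
      intro x
      rw [hBB, Complex.ofReal_re]
      exact integral_nonneg fun z => mul_nonneg (hφ0 z) (by positivity))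
    (by
      intro x
      rw [hBB, Complex.ofReal_re, ← integral_mul_const]
      refine integral_mono (hintr x) (hφi.mul_const _) fun z => ?_
      exact mul_le_mul_of_nonneg_left (pow_le_pow_left₀ (norm_nonneg _)
        (x.1.norm_coe_le_norm z) 2) (hφ0 z))
    (by
      intro x y
      have h1 := hφsymm Φ hΦ.continuous hc (y : ℍ →ᵇ ℂ) (x : ℍ →ᵇ ℂ) y.2.1 x.2.1
      rw [hB, hB]
      have e1 : ∀ z : ℍ, (φ z : ℂ) * (starRingEnd ℂ ((T x : ℍ →ᵇ ℂ) z) * (y : ℍ →ᵇ ℂ) z) =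
          (φ z : ℂ) * ((y : ℍ →ᵇ ℂ) z * starRingEnd ℂ (kerOp Φ (x : ℍ →ᵇ ℂ) z)) := by
        intro z
        rw [hT, kerL_apply]; ring
      have e2 : ∀ z : ℍ, (φ z : ℂ) * (starRingEnd ℂ ((x : ℍ →ᵇ ℂ) z) * (T y : ℍ →ᵇ ℂ) z) =
          (φ z : ℂ) * (kerOp Φ (y : ℍ →ᵇ ℂ) z * starRingEnd ℂ ((x : ℍ →ᵇ ℂ) z)) := by
        intro z
        rw [hT, kerL_apply]; ring
      simp_rw [e1, e2]
      exact h1.symm)
    (f0B zb) (hnd _ hne)
  -- the finite dimensional eigenspace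
  let W := Module.End.eigenspace T.toLinearMap μ
  have hWmem : ∀ y : OddInv, y ∈ W ↔ T y = μ • y := fun y => Module.End.mem_eigenspace_iff
  have : FiniteDimensional ℂ W := finiteDim_eigen T hcomp μ hμ0
  have hW : W ≠ ⊥ := by
    rw [Submodule.ne_bot_iff]
    exact ⟨x, (hWmem x).2 hx, hx0⟩
  -- the commuting family
  let T' := kerL (lapΦ Φ) (contDiff_lapΦ hΦ) (hasCompactSupport_lapΦ hc)
  let Fam : Option {p : ℕ // p.Prime} → (OddInv →ₗ[ℂ] OddInv) := fun i =>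
    match i with
    | none => T'.toLinearMap
    | some p => have : Fact (p : ℕ).Prime := ⟨p.2⟩; (heckeL (p : ℕ)).toLinearMap
  have hcomm : ∀ i j y, Fam i (Fam j y) = Fam j (Fam i y) := by
    intro i j y
    rcases i with _ | ⟨p, hp⟩ <;> rcases j with _ | ⟨q, hq⟩
    · rfl
    · have : Fact q.Prime := ⟨hq⟩
      exact kerL_heckeL _ _ _ y
    · have : Fact p.Prime := ⟨hp⟩
      exact (kerL_heckeL _ _ _ y).symm
    · have : Fact p.Prime := ⟨hp⟩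
      have : Fact q.Prime := ⟨hq⟩
      exact heckeL_comm y
  have hinv : ∀ i, ∀ y ∈ W, Fam i y ∈ W := by
    intro i y hy
    rw [hWmem] at hy ⊢
    rcases i with _ | ⟨p, hp⟩
    · change T (T' y) = μ • (T' y)
      rw [hT, kerL_comm, ← hT, hy, map_smul]
    · have : Fact p.Prime := ⟨hp⟩
      change T (heckeL p y) = μ • (heckeL p y)
      rw [hT, kerL_heckeL, ← hT, hy, map_smul]
  obtain ⟨f, hfW, hf0, hf⟩ := common_eigen Fam hcomm _ W rfl hW hinv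
  rw [hWmem] at hfW
  obtain ⟨ν, hν⟩ := hf none
  have hν' : T' f = ν • f := hν
  have hval : ∀ z : ℍ, (f : ℍ →ᵇ ℂ) z = μ⁻¹ * kerOp Φ (f : ℍ →ᵇ ℂ) z := by
    intro z
    have h1 : (T f : ℍ →ᵇ ℂ) z = μ * (f : ℍ →ᵇ ℂ) z := by rw [hfW]; rfl
    rw [hT, kerL_apply] at h1
    rw [h1]
    field_simp
  have hfun : (fun z : ℂ => (f : ℍ →ᵇ ℂ) (ofComplex z)) =
      fun z : ℂ => μ⁻¹ • kerOp Φ (f : ℍ →ᵇ ℂ) (ofComplex z) := by
    funext z
    rw [smul_eq_mul]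
    exact hval _
  obtain ⟨hD1, hD2⟩ := Pool.Agent.W783.KerOp.kerOp_contDiff Φ hΦ hc (f : ℍ →ᵇ ℂ) f.1.continuous ‖f‖
    (fun z => f.1.norm_coe_le_norm z)
  refine ⟨f, hf0, ?_, ?_, ?_⟩
  · rw [hfun]
    exact hD1.const_smul μ⁻¹
  · refine ⟨μ⁻¹ * ν, fun z => ?_⟩
    have hopen : IsOpen {z : ℂ | 0 < z.im} := isOpen_lt continuous_const Complex.continuous_im
    have hca : ContDiffAt ℝ 2 (fun z : ℂ => kerOp Φ (f : ℍ →ᵇ ℂ) (ofComplex z)) (z : ℂ) :=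
      (hD1.contDiffAt (hopen.mem_nhds z.im_pos)).of_le (by norm_cast)
    have h2 : (Laplacian.laplacian (fun z : ℂ => (f : ℍ →ᵇ ℂ) (ofComplex z)) : ℂ → ℂ) (z : ℂ) =
        μ⁻¹ * (Laplacian.laplacian (fun z : ℂ => kerOp Φ (f : ℍ →ᵇ ℂ) (ofComplex z)) : ℂ → ℂ)
          (z : ℂ) := by
      rw [hfun]
      exact InnerProductSpace.laplacian_smul μ⁻¹ hca
    rw [h2, mul_left_comm, hD2 z]
    have h3 : kerOp (lapΦ Φ) (f : ℍ →ᵇ ℂ) z = ν * (f : ℍ →ᵇ ℂ) z := by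
      have : (T' f : ℍ →ᵇ ℂ) z = ν * (f : ℍ →ᵇ ℂ) z := by rw [hν']; rfl
      exact this
    rw [h3, mul_assoc]
  · intro p hp
    have : Fact p.Prime := ⟨hp⟩
    obtain ⟨a, ha⟩ := hf (some ⟨p, hp⟩)
    refine ⟨a, fun z => ?_⟩
    have ha' : heckeL p f = a • f := ha
    have : (heckeL p f : ℍ →ᵇ ℂ) z = a * (f : ℍ →ᵇ ℂ) z := by rw [ha']; rfl
    exact this

end Pool.Agent.W384
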