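import Pool.Agent.W384.Lfun
import Pool.Agent.W384.Exist

set_option autoImplicit false

open UpperHalfPlane MeasureTheory Filter Topology Function
open scoped MatrixGroups ContDiff BoundedContinuousFunction

namespace Pool.Agent.W384

theorem exists_odd : ∃ F : HeckeMaassCuspForm, F.IsOdd := by
  obtain ⟨f, hf0, hsm, ⟨ν, hν⟩, hT⟩ := exists_form
  have hodd : ∀ z : ℍ, (f : ℍ →ᵇ ℂ) (ofComplex (-(starRingEnd ℂ (z : ℂ)))) = -(f : ℍ →ᵇ ℂ) z := by
    intro z
    have := f.2.2 z
    rw [J_smul] at this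
    exact this
  have hinv : ∀ (γ : SL(2, ℤ)) (z : ℍ), (f : ℍ →ᵇ ℂ) (γ • z) = (f : ℍ →ᵇ ℂ) z := f.2.1
  have hcusp : ∀ y : ℝ, 0 < y →
      ∫ x in (0 : ℝ)..1, (f : ℍ →ᵇ ℂ) (ofComplex (x + y * Complex.I)) = 0 := by
    intro y hy
    set φ : ℝ → ℂ := fun x => (f : ℍ →ᵇ ℂ) (ofComplex (x + y * Complex.I)) with hφ
    have hmem : ∀ x : ℝ, 0 < ((x : ℂ) + y * Complex.I).im := fun x => by simpa using hy
    have hper : Periodic φ 1 := by
      intro x
      simp only [hφ]
      rw [ofComplex_apply_of_im_pos (hmem x), ofComplex_apply_of_im_pos (hmem (x + 1)),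
        ← hinv ModularGroup.T ⟨_, hmem x⟩, modular_T_smul]
      congr 1
      apply UpperHalfPlane.ext
      simp
      ring
    have hodd' : ∀ x, φ (-x) = - φ x := by
      intro x
      simp only [hφ]
      rw [ofComplex_apply_of_im_pos (hmem x), ← hodd ⟨_, hmem x⟩]
      congr 2
      change _ = -(starRingEnd ℂ ((x : ℂ) + y * Complex.I))
      simp [Complex.conj_ofReal]
      ring
    have h := cf_odd hper hodd' 0
    rw [neg_zero] at h
    have h0 : cf φ 0 = 0 := by linear_combination h / 2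
    have h1 : cf φ 0 = ∫ x in (0 : ℝ)..1, φ x := by
      unfold cf
      congr 1
      funext x
      rw [neg_zero]
      have : ee 0 x = 1 := by simp [ee]
      rw [this, mul_one]
    rw [← h1]
    exact h0
  have hne : ∃ z : ℍ, (f : ℍ →ᵇ ℂ) z ≠ 0 := by
    by_contra hcon
    push Not at hcon
    apply hf0
    apply Subtype.ext
    ext z
    simpa using hcon z
  choose a ha using fun p : Nat.Primes => hT p p.2
  exact ⟨{ toFun := fun z => (f : ℍ →ᵇ ℂ) z
           exists_ne_zero := hne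
           smooth := hsm
           invariant := hinv
           eigenvalue := -ν
           laplace := fun z => by
             have := hν z
             rw [neg_mul, this, neg_mul]
           bounded := ⟨‖(f : ℍ →ᵇ ℂ)‖, fun z => (f : ℍ →ᵇ ℂ).norm_coe_le_norm z⟩
           cuspidal := hcusp
           heckeEigenvalue := a
           hecke := ha }, hodd⟩

theorem vanish (F : HeckeMaassCuspForm) (hF : F.IsOdd) (E : QuadraticCharacter) :
    ∃ L : ℂ → ℂ, IsTwistedLFunction F E L ∧ L (1 / 2) = 0 := by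
  have : NeZero E.modulus := ⟨E.modulus_pos.ne'⟩
  obtain ⟨L, h1, h2, h3⟩ := F.exists_L E.χ hF E.primitive E.sq_eq_one
  exact ⟨L, ⟨h1, fun s hs => by rw [h3 s hs]; exact F.D_hasProd E.χ hF hs⟩, h2⟩

theorem isTwistedLFunction_unique {F : HeckeMaassCuspForm} {E : QuadraticCharacter} {L L' : ℂ → ℂ}
    (h : IsTwistedLFunction F E L) (h' : IsTwistedLFunction F E L') : L = L' := by
  have h1 : AnalyticOnNhd ℂ L Set.univ := fun s _ => h.1.analyticAt s
  have h2 : AnalyticOnNhd ℂ L' Set.univ := fun s _ => h'.1.analyticAt s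
  refine h1.eq_of_eventuallyEq h2 (z₀ := 2) ?_
  have hopen : IsOpen {s : ℂ | 3 / 2 < s.re} := isOpen_lt continuous_const Complex.continuous_re
  filter_upwards [hopen.mem_nhds (by change (3 / 2 : ℝ) < (2 : ℂ).re; norm_num)] with s hs
  exact (h.2 s hs).unique (h'.2 s hs)

theorem countNonvanishing_eq_zero (F : HeckeMaassCuspForm) (hF : F.IsOdd) (x : ℝ) :
    countNonvanishing F x = 0 := by
  unfold countNonvanishing
  have : IsEmpty {E : QuadraticCharacter // (E.modulus : ℝ) < x ∧
      ∃ L : ℂ → ℂ, IsTwistedLFunction F E L ∧ L (1 / 2) ≠ 0} := by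
    refine ⟨fun ⟨E, _, L, hL, hne⟩ => hne ?_⟩
    obtain ⟨L', hL', h0⟩ := vanish F hF E
    rw [isTwistedLFunction_unique hL hL']
    exact h0
  exact Nat.card_of_isEmpty

end Pool.Agent.W384
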