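import Mathlib

set_option autoImplicit false

open MeasureTheory Filter Topology Function intervalIntegral

namespace Pool.Agent.W384

/-- `ee n x = exp(2πi n x)` -/
noncomputable def ee (n : ℤ) (x : ℝ) : ℂ := Complex.exp (2 * Real.pi * Complex.I * n * x)

lemma ee_zero_right (n : ℤ) : ee n 0 = 1 := by simp [ee]

lemma ee_add (n : ℤ) (x y : ℝ) : ee n (x + y) = ee n x * ee n y := by
  unfold ee
  rw [← Complex.exp_add]
  congr 1
  push_cast
  ring

lemma ee_int (n k : ℤ) : ee n (k : ℝ) = 1 := by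
  unfold ee
  have : (2 * Real.pi * Complex.I * n * ((k : ℝ) : ℂ) : ℂ) = ((n * k : ℤ) : ℂ) * (2 * Real.pi * Complex.I) := by
    push_cast; ring
  rw [this]
  exact Complex.exp_int_mul_two_pi_mul_I (n * k)

lemma ee_periodic (n : ℤ) : Periodic (ee n) 1 := by
  intro x
  rw [ee_add]
  have := ee_int n 1
  simp only [Int.cast_one] at this
  rw [this, mul_one]

lemma norm_ee (n : ℤ) (x : ℝ) : ‖ee n x‖ = 1 := by
  unfold ee
  have : (2 * Real.pi * Complex.I * n * x : ℂ) = ((2 * Real.pi * n * x : ℝ) : ℂ) * Complex.I := by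
    push_cast; ring
  rw [this]
  exact Complex.norm_exp_ofReal_mul_I _

lemma continuous_ee (n : ℤ) : Continuous (ee n) := by
  unfold ee
  fun_prop

lemma ee_neg (n : ℤ) (x : ℝ) : ee (-n) x = ee n (-x) := by
  unfold ee; congr 1; push_cast; ring

lemma ee_mul (n m : ℤ) (x : ℝ) : ee (n * m) x = ee n (m * x) := by
  unfold ee; congr 1; push_cast; ring

lemma hasDerivAt_ee (n : ℤ) (x : ℝ) :
    HasDerivAt (ee n) (2 * Real.pi * Complex.I * n * ee n x) x := by
  unfold ee
  have h1 : HasDerivAt (fun x : ℝ => (2 * Real.pi * Complex.I * n * x : ℂ))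
      (2 * Real.pi * Complex.I * n * 1) x :=
    (Complex.ofRealCLM.hasDerivAt (x := x)).const_mul _
  exact h1.cexp.congr_deriv (by ring)

/-- Fourier coefficient of a 1-periodic function -/
noncomputable def cf (φ : ℝ → ℂ) (n : ℤ) : ℂ := ∫ x in (0 : ℝ)..1, φ x * ee (-n) x

lemma cf_norm_le {φ : ℝ → ℂ} {M : ℝ} (hM : ∀ x, ‖φ x‖ ≤ M) (n : ℤ) : ‖cf φ n‖ ≤ M := by
  unfold cf
  have := intervalIntegral.norm_integral_le_of_norm_le_const (a := (0 : ℝ)) (b := 1)
    (f := fun x => φ x * ee (-n) x) (C := M) (fun x _ => by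
      rw [norm_mul, norm_ee, mul_one]; exact hM x)
  simpa using this

lemma cf_const_mul (c : ℂ) (φ : ℝ → ℂ) (n : ℤ) : cf (fun x => c * φ x) n = c * cf φ n := by
  unfold cf
  rw [← intervalIntegral.integral_const_mul]
  congr 1
  funext x
  ring

lemma cf_add {φ ψ : ℝ → ℂ} (hφ : Continuous φ) (hψ : Continuous ψ) (n : ℤ) :
    cf (fun x => φ x + ψ x) n = cf φ n + cf ψ n := by
  unfold cf
  rw [← intervalIntegral.integral_add]
  · congr 1
    funext x
    ring
  · exact (hφ.mul (continuous_ee _)).intervalIntegrable _ _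
  · exact (hψ.mul (continuous_ee _)).intervalIntegrable _ _

lemma cf_sum {ι : Type*} (s : Finset ι) {φ : ι → ℝ → ℂ} (hφ : ∀ i, Continuous (φ i)) (n : ℤ) :
    cf (fun x => ∑ i ∈ s, φ i x) n = ∑ i ∈ s, cf (φ i) n := by
  unfold cf
  rw [← intervalIntegral.integral_finsetSum]
  · congr 1
    funext x
    rw [Finset.sum_mul]
  · intro i _
    exact ((hφ i).mul (continuous_ee _)).intervalIntegrable _ _

lemma cf_shift {φ : ℝ → ℂ} (hp : Periodic φ 1) (n : ℤ) (t : ℝ) :
    cf φ n = ∫ x in t..(t + 1), φ x * ee (-n) x := by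
  unfold cf
  have hper : Periodic (fun x => φ x * ee (-n) x) 1 := hp.mul (ee_periodic (-n))
  have := hper.intervalIntegral_add_eq 0 t
  simpa using this

lemma cf_odd {φ : ℝ → ℂ} (hp : Periodic φ 1) (hodd : ∀ x, φ (-x) = - φ x) (n : ℤ) :
    cf φ (-n) = - cf φ n := by
  have h1 : cf φ (-n) = ∫ x in (-1 : ℝ)..0, φ (-x) * ee (- -n) (-x) := by
    rw [intervalIntegral.integral_comp_neg (fun x => φ x * ee (- -n) x)]
    simp [cf]
  rw [h1, cf_shift hp n (-1), ← intervalIntegral.integral_neg, neg_add_cancel]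
  congr 1
  funext x
  rw [hodd, neg_neg, ← ee_neg, neg_mul]

lemma cf_of_dvd {φ : ℝ → ℂ} (hφ : Continuous φ) (hp : Periodic φ 1) {p : ℕ} (hp0 : 0 < p) (k : ℤ) :
    cf (fun x => φ (p * x)) (p * k) = cf φ k := by
  have hpR : (p : ℝ) ≠ 0 := by exact_mod_cast hp0.ne'
  unfold cf
  have h1 : ∀ x : ℝ, φ (p * x) * ee (-(p * k)) x = (fun u => φ u * ee (-k) u) (p * x) := by
    intro x
    simp only
    congr 1
    rw [show (-((p : ℤ) * k)) = (-k) * (p : ℤ) by ring, ee_mul]
    push_cast
    rfl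
  simp_rw [h1]
  rw [intervalIntegral.integral_comp_mul_left (fun u => φ u * ee (-k) u) hpR]
  have hper : Periodic (fun x => φ x * ee (-k) x) 1 := hp.mul (ee_periodic (-k))
  have h2 := hper.intervalIntegral_add_zsmul_eq (p : ℤ) 0
    (fun t₁ t₂ => (hφ.mul (continuous_ee _)).intervalIntegrable _ _)
  simp only [zero_add, mul_zero, mul_one, zsmul_eq_mul, Int.cast_natCast] at h2 ⊢
  rw [h2, Complex.real_smul]
  push_cast
  have : (p : ℂ) ≠ 0 := by exact_mod_cast hp0.ne'
  field_simp

lemma cf_of_not_dvd {φ : ℝ → ℂ} (hp : Periodic φ 1) {p : ℕ} (hp0 : 0 < p) {m : ℤ}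
    (hm : ¬ (p : ℤ) ∣ m) : cf (fun x => φ (p * x)) m = 0 := by
  have hpR : (p : ℝ) ≠ 0 := by exact_mod_cast hp0.ne'
  have hper : Periodic (fun x : ℝ => φ (p * x)) 1 := by
    intro x
    change φ (p * (x + 1)) = φ (p * x)
    rw [mul_add, mul_one]
    exact hp.nat_mul_eq p |> fun h => by
      have := (hp.nat_mul p) (p * x)
      simpa using this
  have h1 : cf (fun x => φ (p * x)) m = ee (-m) (1 / p) * cf (fun x => φ (p * x)) m := by
    conv_lhs => rw [cf_shift hper m (1 / p)]
    unfold cf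
    rw [← intervalIntegral.integral_const_mul]
    have h2 : ∀ x : ℝ, ee (-m) (1 / p) * (φ (p * x) * ee (-m) x) =
        (fun u => φ (p * u) * ee (-m) u) (x + 1 / p) := by
      intro x
      simp only
      rw [ee_add, mul_add, mul_one_div_cancel hpR]
      have := hp (p * x)
      rw [this]; ring
    simp_rw [h2]
    rw [intervalIntegral.integral_comp_add_right (fun u => φ (p * u) * ee (-m) u)]
    congr 1 <;> ring
  have h3 : ee (-m) (1 / p) ≠ 1 := by
    intro h
    unfold ee at h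
    rw [Complex.exp_eq_one_iff] at h
    obtain ⟨n, hn⟩ := h
    apply hm
    have hpi : (2 * Real.pi * Complex.I : ℂ) ≠ 0 := Complex.two_pi_I_ne_zero
    have hpC : (p : ℂ) ≠ 0 := by exact_mod_cast hp0.ne'
    have h4 : (-(m : ℂ)) = n * p := by
      have h5 : (2 * Real.pi * Complex.I : ℂ) * (-(m : ℂ)) * (1 / p) = n * (2 * Real.pi * Complex.I) := by
        rw [← hn]; push_cast; ring
      field_simp at h5
      linear_combination h5
    have h6 : -m = n * p := by exact_mod_cast h4
    exact ⟨-n, by linarith⟩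
  have h4 : (1 - ee (-m) (1 / p)) * cf (fun x => φ (p * x)) m = 0 := by
    linear_combination h1
  rcases mul_eq_zero.1 h4 with h | h
  · exact absurd (sub_eq_zero.1 h).symm h3
  · exact h

lemma sum_cf_div {φ : ℝ → ℂ} (hφ : Continuous φ) {p : ℕ} (hp0 : 0 < p) (m : ℤ) :
    ∑ b ∈ Finset.range p, cf (fun x => φ ((x + b) / p)) m = p * cf φ (m * p) := by
  have hpR : (p : ℝ) ≠ 0 := by exact_mod_cast hp0.ne'
  have h1 : ∀ b : ℕ, cf (fun x => φ ((x + b) / p)) m =
      ∫ x in ((b : ℕ) : ℝ)..((b + 1 : ℕ) : ℝ), φ (x / p) * ee (-m) x := by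
    intro b
    unfold cf
    have h2 : ∀ x : ℝ, φ ((x + b) / p) * ee (-m) x = (fun u => φ (u / p) * ee (-m) u) (x + b) := by
      intro x
      simp only
      rw [ee_add]
      have := ee_int (-m) (b : ℤ)
      simp only [Int.cast_natCast] at this
      rw [this, mul_one]
    simp_rw [h2]
    rw [intervalIntegral.integral_comp_add_right (fun u => φ (u / p) * ee (-m) u)]
    congr 1 <;> push_cast <;> ring
  simp_rw [h1]
  rw [intervalIntegral.sum_integral_adjacent_intervals (a := fun k : ℕ => (k : ℝ))]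
  · have h2 : ∀ x : ℝ, φ (x / p) * ee (-m) x = (fun u => φ u * ee (-(m * p)) u) (x / p) := by
      intro x
      simp only
      rw [show (-(m * (p : ℤ))) = (-m) * (p : ℤ) by ring, ee_mul]
      push_cast
      rw [mul_div_cancel₀ _ hpR]
    simp_rw [h2]
    rw [intervalIntegral.integral_comp_div (fun u => φ u * ee (-(m * p)) u) hpR]
    unfold cf
    simp only [Nat.cast_zero, zero_div, div_self hpR]
    rw [Complex.real_smul]
    push_cast
    rfl
  · intro k _
    exact ((hφ.comp (continuous_id.div_const _)).mul (continuous_ee _)).intervalIntegrable _ _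

lemma cf_deriv {φ φ' : ℝ → ℂ} (hd : ∀ x, HasDerivAt φ (φ' x) x) (hc : Continuous φ')
    (hp : Periodic φ 1) (n : ℤ) : cf φ' n = 2 * Real.pi * Complex.I * n * cf φ n := by
  unfold cf
  have hφ : Continuous φ := continuous_iff_continuousAt.2 fun x => (hd x).continuousAt
  have h1 := intervalIntegral.integral_mul_deriv_eq_deriv_mul (a := (0 : ℝ)) (b := 1)
    (u := ee (-n)) (v := φ) (u' := fun x => 2 * Real.pi * Complex.I * (-n : ℤ) * ee (-n) x)
    (v' := φ') (fun x _ => hasDerivAt_ee (-n) x) (fun x _ => hd x)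
    ((continuous_const.mul (continuous_ee _)).intervalIntegrable _ _)
    (hc.intervalIntegrable _ _)
  have h2 : φ 1 = φ 0 := by
    have := hp 0
    simpa using this
  have h3 : ee (-n) 1 = 1 := by
    have := ee_int (-n) 1
    simpa using this
  rw [h2, h3, ee_zero_right] at h1
  have h4 : ∫ x in (0 : ℝ)..1, φ' x * ee (-n) x = ∫ x in (0 : ℝ)..1, ee (-n) x * φ' x := by
    congr 1; funext x; ring
  rw [h4, h1, ← intervalIntegral.integral_const_mul, sub_self, zero_sub,
    ← intervalIntegral.integral_neg]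
  congr 1
  funext x
  push_cast
  ring

lemma cf_hasSum {φ : ℝ → ℂ} (hφ : Continuous φ) (hp : Periodic φ 1) (hs : Summable (cf φ))
    (x : ℝ) : HasSum (fun n : ℤ => cf φ n * ee n x) (φ x) := by
  have : Fact ((0 : ℝ) < 1) := ⟨one_pos⟩
  let g : C(AddCircle (1 : ℝ), ℂ) := ⟨hp.lift, continuous_coinduced_dom.mpr hφ⟩
  have hg : ∀ y : ℝ, g (y : AddCircle (1 : ℝ)) = φ y := fun y => hp.lift_coe y
  have hfour : ∀ (n : ℤ) (y : ℝ), (fourier n (y : AddCircle (1 : ℝ)) : ℂ) = ee n y := by
    intro n y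
    rw [fourier_coe_apply]
    unfold ee
    congr 1
    push_cast
    ring
  have hcf : ∀ n : ℤ, fourierCoeff g n = cf φ n := by
    intro n
    rw [fourierCoeff_eq_intervalIntegral g n 0]
    unfold cf
    simp only [one_div, inv_one, one_smul, zero_add]
    congr 1
    funext y
    rw [hfour, hg, smul_eq_mul, mul_comm]
  have hs' : Summable (fourierCoeff g) := by
    have : (fourierCoeff g) = cf φ := by funext n; exact hcf n
    rw [this]; exact hs
  have h := has_pointwise_sum_fourier_series_of_summable hs' (x : AddCircle (1 : ℝ))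
  rw [hg] at h
  refine h.congr_fun ?_
  intro n
  rw [hcf, hfour, smul_eq_mul]

end Pool.Agent.W384
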