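import Pool.Agent.W384.Hecke
import Pool.Agent.W384.Four
import Pool.Agent.W31.KB6

set_option autoImplicit false

open UpperHalfPlane MeasureTheory Filter Topology Function
open scoped MatrixGroups ContDiff

namespace Pool.Agent.W384

/-- the upper half plane as a subset of `ℂ` -/
def UH : Set ℂ := {z : ℂ | 0 < z.im}

lemma isOpen_UH : IsOpen UH := isOpen_lt continuous_const Complex.continuous_im

/-- the point `x + iy` -/
noncomputable def pt (x y : ℝ) : ℂ := (x : ℂ) + y * Complex.I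

lemma pt_im (x y : ℝ) : (pt x y).im = y := by simp [pt]
lemma pt_re (x y : ℝ) : (pt x y).re = x := by simp [pt]

lemma pt_mem {x y : ℝ} (hy : 0 < y) : pt x y ∈ UH := by
  change 0 < (pt x y).im
  rw [pt_im]; exact hy

lemma continuous_pt : Continuous (fun p : ℝ × ℝ => pt p.1 p.2) := by
  unfold pt; fun_prop

/-- derivative in the horizontal direction -/
lemma hasDerivAt_pt_left {K : ℂ → ℂ} (hK : ContDiffOn ℝ ∞ K UH) {y : ℝ} (hy : 0 < y) (x : ℝ) :
    HasDerivAt (fun t : ℝ => K (pt t y)) (fderiv ℝ K (pt x y) 1) x := by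
  have h1 : DifferentiableAt ℝ K (pt x y) :=
    (hK.contDiffAt (isOpen_UH.mem_nhds (pt_mem hy))).differentiableAt (by simp)
  have h2 : HasDerivAt (fun t : ℝ => pt t y) 1 x := by
    unfold pt
    simpa using (Complex.ofRealCLM.hasDerivAt (x := x)).add_const ((y : ℂ) * Complex.I)
  exact h1.hasFDerivAt.comp_hasDerivAt x h2

lemma hasDerivAt_pt_right {K : ℂ → ℂ} (hK : ContDiffOn ℝ ∞ K UH) {y : ℝ} (hy : 0 < y) (x : ℝ) :
    HasDerivAt (fun t : ℝ => K (pt x t)) (fderiv ℝ K (pt x y) Complex.I) y := by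
  have h1 : DifferentiableAt ℝ K (pt x y) :=
    (hK.contDiffAt (isOpen_UH.mem_nhds (pt_mem hy))).differentiableAt (by simp)
  have h2 : HasDerivAt (fun t : ℝ => pt x t) Complex.I y := by
    unfold pt
    simpa using ((Complex.ofRealCLM.hasDerivAt (x := y)).mul_const Complex.I).const_add (x : ℂ)
  exact h1.hasFDerivAt.comp_hasDerivAt y h2

lemma contDiffOn_fderiv {K : ℂ → ℂ} (hK : ContDiffOn ℝ ∞ K UH) (v : ℂ) :
    ContDiffOn ℝ ∞ (fun z => fderiv ℝ K z v) UH := by
  have h1 : ContDiffOn ℝ ∞ (fderiv ℝ K) UH := hK.fderiv_of_isOpen isOpen_UH (by simp)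
  exact h1.clm_apply contDiffOn_const

lemma continuous_hor {K : ℂ → ℂ} (hK : ContinuousOn K UH) {y : ℝ} (hy : 0 < y) :
    Continuous (fun x : ℝ => K (pt x y)) := by
  refine hK.comp_continuous ?_ (fun x => pt_mem hy)
  exact continuous_pt.comp (by fun_prop : Continuous fun x : ℝ => (x, y))

/-- derivative in `y` of the Fourier coefficients -/
lemma hasDerivAt_cf {K : ℂ → ℂ} (hK : ContDiffOn ℝ ∞ K UH) (n : ℤ) {y : ℝ} (hy : 0 < y) :
    HasDerivAt (fun t : ℝ => cf (fun x => K (pt x t)) n)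
      (cf (fun x => fderiv ℝ K (pt x y) Complex.I) n) y := by
  have hK' : ContDiffOn ℝ ∞ (fun z => fderiv ℝ K z Complex.I) UH := contDiffOn_fderiv hK _
  have hs : Set.Icc (y / 2) (2 * y) ∈ 𝓝 y := Icc_mem_nhds (by linarith) (by linarith)
  have hcomp : IsCompact ((fun p : ℝ × ℝ => pt p.1 p.2) '' (Set.Icc 0 1 ×ˢ Set.Icc (y / 2) (2 * y))) :=
    (isCompact_Icc.prod isCompact_Icc).image continuous_pt
  have hsub : (fun p : ℝ × ℝ => pt p.1 p.2) '' (Set.Icc 0 1 ×ˢ Set.Icc (y / 2) (2 * y)) ⊆ UH := by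
    rintro _ ⟨⟨x, t⟩, ⟨_, ht⟩, rfl⟩
    exact pt_mem (by have := ht.1; linarith)
  obtain ⟨C, hC⟩ := hcomp.exists_bound_of_continuousOn (hK'.continuousOn.mono hsub)
  have key := intervalIntegral.hasDerivAt_integral_of_dominated_loc_of_deriv_le
    (μ := volume) (a := (0 : ℝ)) (b := 1) (bound := fun _ => C)
    (F := fun t x => K (pt x t) * ee (-n) x)
    (F' := fun t x => fderiv ℝ K (pt x t) Complex.I * ee (-n) x) (x₀ := y) hs
    (by
      filter_upwards [lt_mem_nhds hy] with t ht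
      exact ((continuous_hor hK.continuousOn ht).mul (continuous_ee _)).aestronglyMeasurable)
    (((continuous_hor hK.continuousOn hy).mul (continuous_ee _)).intervalIntegrable _ _)
    (((continuous_hor hK'.continuousOn hy).mul (continuous_ee _)).aestronglyMeasurable)
    (by
      refine Eventually.of_forall fun x hx t ht => ?_
      rw [norm_mul, norm_ee, mul_one]
      rw [Set.uIoc_of_le zero_le_one] at hx
      exact hC _ ⟨(x, t), ⟨⟨hx.1.le, hx.2⟩, ht⟩, rfl⟩)
    intervalIntegrable_const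
    (by
      refine Eventually.of_forall fun x _ t ht => ?_
      have ht0 : 0 < t := by have := ht.1; linarith
      exact (hasDerivAt_pt_right hK ht0 x).mul_const _)
  exact key.2

/-- second derivatives and the Laplacian -/
lemma laplacian_eq {K : ℂ → ℂ} (hK : ContDiffOn ℝ ∞ K UH) {z : ℂ} (hz : z ∈ UH) :
    (Laplacian.laplacian K : ℂ → ℂ) z =
      fderiv ℝ (fun w => fderiv ℝ K w 1) z 1 + fderiv ℝ (fun w => fderiv ℝ K w Complex.I) z Complex.I := by
  have h1 : ContDiffOn ℝ ∞ (fderiv ℝ K) UH := hK.fderiv_of_isOpen isOpen_UH (by simp)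
  have h2 : DifferentiableAt ℝ (fderiv ℝ K) z :=
    (h1.contDiffAt (isOpen_UH.mem_nhds hz)).differentiableAt (by simp)
  have h3 : ∀ v : ℂ, fderiv ℝ (fun w => fderiv ℝ K w v) z v = fderiv ℝ (fderiv ℝ K) z v v := by
    intro v
    have h4 := (h2.hasFDerivAt.clm_apply (hasFDerivAt_const v z)).fderiv
    rw [h4]
    simp
  rw [InnerProductSpace.laplacian_eq_iteratedFDeriv_complexPlane, h3, h3]
  simp [iteratedFDeriv_two_apply]

namespace HeckeMaassCuspForm

variable (F : HeckeMaassCuspForm)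

/-- the form as a function on `ℂ` -/
noncomputable def G (z : ℂ) : ℂ := F.toFun (ofComplex z)

lemma G_smooth : ContDiffOn ℝ ∞ F.G UH := F.smooth

lemma G_coe (z : ℍ) : F.G z = F.toFun z := by
  unfold G; rw [ofComplex_apply]

lemma G_add_one {z : ℂ} (hz : z ∈ UH) : F.G (z + 1) = F.G z := by
  have hz0 : 0 < z.im := hz
  have hz' : (0 : ℝ) < (z + 1).im := by simpa using hz0
  have h := F.invariant ModularGroup.T ⟨z, hz⟩
  have h1 : (ModularGroup.T • (⟨z, hz⟩ : ℍ)) = (⟨z + 1, hz'⟩ : ℍ) := by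
    rw [modular_T_smul]
    apply UpperHalfPlane.ext
    simp [add_comm]
  unfold G
  rw [ofComplex_apply_of_im_pos hz', ofComplex_apply_of_im_pos hz, ← h1, h]

lemma periodic_hor {y : ℝ} (hy : 0 < y) : Periodic (fun x : ℝ => F.G (pt x y)) 1 := by
  intro x
  change F.G (pt (x + 1) y) = F.G (pt x y)
  have : pt (x + 1) y = pt x y + 1 := by unfold pt; push_cast; ring
  rw [this]
  exact F.G_add_one (pt_mem hy)

lemma cont_hor {y : ℝ} (hy : 0 < y) : Continuous (fun x : ℝ => F.G (pt x y)) :=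
  continuous_hor F.G_smooth.continuousOn hy

/-- Fourier coefficients -/
noncomputable def A (n : ℤ) (y : ℝ) : ℂ := cf (fun x => F.G (pt x y)) n

/-- horizontal derivative -/
noncomputable def Gx (z : ℂ) : ℂ := fderiv ℝ F.G z 1

lemma Gx_smooth : ContDiffOn ℝ ∞ F.Gx UH := contDiffOn_fderiv F.G_smooth 1

lemma hasDerivAt_G {y : ℝ} (hy : 0 < y) (x : ℝ) :
    HasDerivAt (fun t : ℝ => F.G (pt t y)) (F.Gx (pt x y)) x := hasDerivAt_pt_left F.G_smooth hy x

lemma periodic_Gx {y : ℝ} (hy : 0 < y) : Periodic (fun x : ℝ => F.Gx (pt x y)) 1 := by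
  intro x
  have h1 := F.hasDerivAt_G hy (x + 1)
  have h2 : HasDerivAt (fun t : ℝ => F.G (pt (t + 1) y)) (F.Gx (pt (x + 1) y)) x :=
    HasDerivAt.comp_add_const x 1 h1
  have h3 : (fun t : ℝ => F.G (pt (t + 1) y)) = fun t : ℝ => F.G (pt t y) := by
    funext t; exact F.periodic_hor hy t
  rw [h3] at h2
  exact h2.unique (F.hasDerivAt_G hy x)

lemma cf_Gx {y : ℝ} (hy : 0 < y) (n : ℤ) :
    cf (fun x => F.Gx (pt x y)) n = 2 * Real.pi * Complex.I * n * F.A n y :=
  cf_deriv (F.hasDerivAt_G hy) (continuous_hor F.Gx_smooth.continuousOn hy) (F.periodic_hor hy) n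

lemma cf_Gxx {y : ℝ} (hy : 0 < y) (n : ℤ) :
    cf (fun x => fderiv ℝ F.Gx (pt x y) 1) n = (2 * Real.pi * Complex.I * n) ^ 2 * F.A n y := by
  have h1 := cf_deriv (fun x => hasDerivAt_pt_left F.Gx_smooth hy x)
    (continuous_hor (contDiffOn_fderiv F.Gx_smooth 1).continuousOn hy) (F.periodic_Gx hy) n
  rw [h1, F.cf_Gx hy]
  ring

lemma ode (n : ℤ) : ∃ W' : ℝ → ℂ, (∀ y : ℝ, 0 < y → HasDerivAt (F.A n) (W' y) y) ∧
    ∀ y : ℝ, 0 < y → HasDerivAt W'
      ((4 * (Real.pi : ℂ) ^ 2 * n ^ 2 - F.eigenvalue / (y : ℂ) ^ 2) * F.A n y) y := by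
  let Gy : ℂ → ℂ := fun z => fderiv ℝ F.G z Complex.I
  have hGy : ContDiffOn ℝ ∞ Gy UH := contDiffOn_fderiv F.G_smooth _
  refine ⟨fun y => cf (fun x => Gy (pt x y)) n, fun y hy => hasDerivAt_cf F.G_smooth n hy,
    fun y hy => ?_⟩
  have h1 := hasDerivAt_cf hGy n hy
  refine h1.congr_deriv ?_
  have hy' : (y : ℂ) ≠ 0 := by exact_mod_cast hy.ne'
  have h2 : ∀ x : ℝ, fderiv ℝ Gy (pt x y) Complex.I =
      (-F.eigenvalue / (y : ℂ) ^ 2) * F.G (pt x y) + (-1) * fderiv ℝ F.Gx (pt x y) 1 := by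
    intro x
    have hl := F.laplace ⟨pt x y, pt_mem hy⟩
    have h3 := laplacian_eq F.G_smooth (pt_mem hy (x := x))
    have h4 : ((⟨pt x y, pt_mem hy⟩ : ℍ) : ℂ) = pt x y := rfl
    have h5 : (⟨pt x y, pt_mem hy⟩ : ℍ).im = y := pt_im x y
    rw [h4, h5] at hl
    have h6 : F.toFun ⟨pt x y, pt_mem hy⟩ = F.G (pt x y) := by
      unfold G
      rw [ofComplex_apply_of_im_pos (pt_mem hy)]
    rw [h6] at hl
    have h7 : (Laplacian.laplacian (fun w : ℂ => F.toFun (ofComplex w)) : ℂ → ℂ) (pt x y) =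
        (Laplacian.laplacian F.G : ℂ → ℂ) (pt x y) := rfl
    rw [h7, h3] at hl
    change -(y : ℂ) ^ 2 * (fderiv ℝ F.Gx (pt x y) 1 + fderiv ℝ Gy (pt x y) Complex.I) = _ at hl
    field_simp
    linear_combination -hl
  simp_rw [h2]
  rw [cf_add (φ := fun x => (-F.eigenvalue / (y : ℂ) ^ 2) * F.G (pt x y))
    (ψ := fun x => (-1) * fderiv ℝ F.Gx (pt x y) 1) (continuous_const.mul (F.cont_hor hy))
    (continuous_const.mul
    (continuous_hor (contDiffOn_fderiv F.Gx_smooth 1).continuousOn hy)), cf_const_mul,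
    cf_const_mul, F.cf_Gxx hy]
  change (-F.eigenvalue / (y : ℂ) ^ 2) * F.A n y + _ = _
  have : (Complex.I) ^ 2 = -1 := Complex.I_sq
  linear_combination (-4 * (Real.pi : ℂ) ^ 2 * n ^ 2 * F.A n y) * this

/-- a bound for the form -/
noncomputable def M : ℝ := F.bounded.choose

lemma norm_le (z : ℍ) : ‖F.toFun z‖ ≤ F.M := F.bounded.choose_spec z

lemma M_nonneg : 0 ≤ F.M := (norm_nonneg _).trans (F.norm_le UpperHalfPlane.I)

lemma norm_A_le (n : ℤ) (y : ℝ) : ‖F.A n y‖ ≤ F.M := cf_norm_le (fun _ => F.norm_le _) n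

/-- the spectral parameter -/
lemma exists_kappa : ∃ κ : ℂ, κ ^ 2 = 1 / 4 - F.eigenvalue := by
  obtain ⟨κ, hκ⟩ := IsAlgClosed.exists_pow_nat_eq (1 / 4 - F.eigenvalue) (n := 2) (by norm_num)
  exact ⟨κ, hκ⟩

/-- the spectral parameter -/
noncomputable def kap : ℂ := F.exists_kappa.choose

lemma kap_sq : F.kap ^ 2 = 1 / 4 - F.eigenvalue := F.exists_kappa.choose_spec

lemma exists_whit : ∃ c : ℂ, ∀ y : ℝ, 0 < y → F.A 1 y = c * whit F.kap y := by
  obtain ⟨W', h1, h2⟩ := F.ode 1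
  refine Pool.Agent.W31.KB.whit_unique F.kap (F.A 1) W' h1 (fun y hy => ?_) F.M
    (fun y _ => F.norm_A_le 1 y)
  have := h2 y hy
  rw [F.kap_sq]
  refine this.congr_deriv ?_
  push_cast
  ring

/-- the Hecke relation for the Fourier coefficients -/
lemma hecke_A (p : Nat.Primes) (m : ℤ) {y : ℝ} (hy : 0 < y) :
    (if (p : ℤ) ∣ m then F.A (m / p) (p * y) else 0) + p * F.A (m * p) (y / p) =
      Real.sqrt p * F.heckeEigenvalue p * F.A m y := by
  have hp0 : 0 < (p : ℕ) := p.2.pos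
  have hpR : (0 : ℝ) < (p : ℕ) := by exact_mod_cast hp0
  have hpC : ((p : ℕ) : ℂ) ≠ 0 := by exact_mod_cast hp0.ne'
  have hs : (Real.sqrt p : ℂ) ≠ 0 := by
    have := Real.sqrt_pos.mpr hpR
    exact_mod_cast this.ne'
  have h1 : ∀ x : ℝ, F.G (pt (p * x) (p * y)) + ∑ b ∈ Finset.range p, F.G (pt ((x + b) / p) (y / p)) =
      Real.sqrt p * F.heckeEigenvalue p * F.G (pt x y) := by
    intro x
    have h2 := F.hecke p ⟨pt x y, pt_mem hy⟩
    unfold heckeT at h2
    rw [div_eq_iff hs] at h2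
    have e1 : ((p : ℕ) : ℂ) * ((⟨pt x y, pt_mem hy⟩ : ℍ) : ℂ) = pt (p * x) (p * y) := by
      change ((p : ℕ) : ℂ) * pt x y = _
      unfold pt; push_cast; ring
    have e2 : ∀ b : ℕ, (((⟨pt x y, pt_mem hy⟩ : ℍ) : ℂ) + b) / ((p : ℕ) : ℂ) =
        pt ((x + b) / p) (y / p) := by
      intro b
      change (pt x y + b) / ((p : ℕ) : ℂ) = _
      unfold pt; push_cast; ring
    rw [e1] at h2
    simp_rw [e2] at h2
    have e3 : F.toFun ⟨pt x y, pt_mem hy⟩ = F.G (pt x y) := by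
      unfold G
      rw [ofComplex_apply_of_im_pos (pt_mem hy)]
    rw [e3] at h2
    change F.G (pt (p * x) (p * y)) + ∑ b ∈ Finset.range p, F.G (pt ((x + b) / p) (y / p)) = _ at h2
    rw [h2]; ring
  have hpy : 0 < (p : ℕ) * y := by positivity
  have hyp : 0 < y / (p : ℕ) := by positivity
  have h2 : cf (fun x : ℝ => F.G (pt (p * x) (p * y)) +
      ∑ b ∈ Finset.range p, F.G (pt ((x + b) / p) (y / p))) m =
      Real.sqrt p * F.heckeEigenvalue p * F.A m y := by
    simp_rw [h1]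
    rw [cf_const_mul]
    rfl
  rw [← h2, cf_add, cf_sum]
  · congr 1
    · split_ifs with hd
      · obtain ⟨k, rfl⟩ := hd
        rw [Int.mul_ediv_cancel_left _ (by exact_mod_cast hp0.ne')]
        exact (cf_of_dvd (F.cont_hor hpy) (F.periodic_hor hpy) hp0 k).symm
      · exact (cf_of_not_dvd (F.periodic_hor hpy) hp0 hd).symm
    · exact (sum_cf_div (F.cont_hor hyp) hp0 m).symm
  · intro b
    exact (F.cont_hor hyp).comp ((continuous_id.add continuous_const).div_const _)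
  · exact (F.cont_hor hpy).comp (continuous_const.mul continuous_id)
  · refine continuous_finsetSum _ fun b _ => ?_
    exact (F.cont_hor hyp).comp ((continuous_id.add continuous_const).div_const _)

end HeckeMaassCuspForm

end Pool.Agent.W384
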