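import Mathlib

/-!
Hecke-Maass cusp forms of level one, their quadratic twists, and the counting functions of
quadratic extensions.
-/

set_option autoImplicit false

open UpperHalfPlane Filter Topology
open scoped MatrixGroups ContDiff

namespace Pool.Agent.W384

/-- The Hecke operator `T_p` on functions on the upper half-plane:
`(T_p f)(z) = p^{-1/2} (f(pz) + ∑_{b mod p} f((z+b)/p))`. -/
noncomputable def heckeT (p : ℕ) (f : ℍ → ℂ) (z : ℍ) : ℂ :=
  (f (ofComplex ((p : ℂ) * z)) + ∑ b ∈ Finset.range p, f (ofComplex (((z : ℂ) + b) / p))) /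
    (Real.sqrt p : ℂ)

/-- A Hecke-Maass cusp form of weight `0` for `SL(2,ℤ)`: a nonzero smooth bounded function on the
upper half-plane, invariant under `SL(2,ℤ)`, with zero constant terms, which is an eigenfunction
of the hyperbolic Laplacian `-y² (∂²/∂x² + ∂²/∂y²)` and of all Hecke operators `T_p`. -/
structure HeckeMaassCuspForm where
  /-- the function on the upper half-plane -/
  toFun : ℍ → ℂ
  exists_ne_zero : ∃ z : ℍ, toFun z ≠ 0
  smooth : ContDiffOn ℝ ∞ (fun z : ℂ => toFun (ofComplex z)) {z : ℂ | 0 < z.im}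
  invariant : ∀ (γ : SL(2, ℤ)) (z : ℍ), toFun (γ • z) = toFun z
  /-- the Laplace eigenvalue -/
  eigenvalue : ℂ
  laplace : ∀ z : ℍ, -(z.im : ℂ) ^ 2 *
    (Laplacian.laplacian (fun w : ℂ => toFun (ofComplex w)) : ℂ → ℂ) (z : ℂ) = eigenvalue * toFun z
  bounded : ∃ M : ℝ, ∀ z : ℍ, ‖toFun z‖ ≤ M
  cuspidal : ∀ y : ℝ, 0 < y → ∫ x in (0 : ℝ)..1, toFun (ofComplex (x + y * Complex.I)) = 0
  /-- the eigenvalue `a_p` of the Hecke operator `T_p` -/
  heckeEigenvalue : Nat.Primes → ℂ
  hecke : ∀ (p : Nat.Primes) (z : ℍ), heckeT p toFun z = heckeEigenvalue p * toFun z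

/-- `F` is odd if `F(-conj z) = -F(z)`. -/
def HeckeMaassCuspForm.IsOdd (F : HeckeMaassCuspForm) : Prop :=
  ∀ z : ℍ, F.toFun (ofComplex (-(starRingEnd ℂ (z : ℂ)))) = -F.toFun z

/-- Primitive quadratic Dirichlet characters. They correspond to the quadratic extensions `E/ℚ`:
`modulus = |Δ_E|` is the absolute value of the discriminant, and `χ` is the quadratic idele class
character `η_E` (so `χ p = 1, -1, 0` when `p` splits, is inert, ramifies in `E`). -/
structure QuadraticCharacter where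
  /-- the conductor `|Δ_E|` -/
  modulus : ℕ
  modulus_pos : 0 < modulus
  /-- the character `η_E` -/
  χ : DirichletCharacter ℂ modulus
  primitive : χ.IsPrimitive
  sq_eq_one : χ ^ 2 = 1
  ne_one : χ ≠ 1

/-- `L` is the `L`-function of the twist of `F` by the quadratic character `E`: an entire function
which for `Re s > 3/2` is the Euler product
`∏_p (1 - a_p χ(p) p^{-s} + χ(p)² p^{-2s})⁻¹`. -/
def IsTwistedLFunction (F : HeckeMaassCuspForm) (E : QuadraticCharacter) (L : ℂ → ℂ) : Prop :=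
  Differentiable ℂ L ∧ ∀ s : ℂ, 3 / 2 < s.re →
    HasProd (fun p : Nat.Primes =>
      (1 - F.heckeEigenvalue p * E.χ p * (p : ℂ) ^ (-s) + (E.χ p) ^ 2 * (p : ℂ) ^ (-2 * s))⁻¹) (L s)

/-- `N(x)`: the number of quadratic extensions `E/ℚ` with `|Δ_E| < x`. -/
noncomputable def countAll (x : ℝ) : ℕ :=
  Nat.card {E : QuadraticCharacter // (E.modulus : ℝ) < x}

/-- `N_F(x)`: the number of quadratic extensions `E/ℚ` with `|Δ_E| < x` and
`L(1/2, F ⊗ η_E) ≠ 0`. -/
noncomputable def countNonvanishing (F : HeckeMaassCuspForm) (x : ℝ) : ℕ :=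
  Nat.card {E : QuadraticCharacter // (E.modulus : ℝ) < x ∧
    ∃ L : ℂ → ℂ, IsTwistedLFunction F E L ∧ L (1 / 2) ≠ 0}

end Pool.Agent.W384
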