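import Pool.Agent.W384.Ker2
import Pool.Agent.W384.Maass

set_option autoImplicit false

open UpperHalfPlane MeasureTheory Filter Topology
open scoped MatrixGroups BoundedContinuousFunction ContDiff Pointwise

namespace Pool.Agent.W384

/-- diag(p,1) -/
noncomputable def mA (p : ℕ) [NeZero p] : GL (Fin 2) ℝ :=
  Matrix.GeneralLinearGroup.mkOfDetNeZero !![(p : ℝ), 0; 0, 1] (by
    rw [Matrix.det_fin_two_of]; simp [NeZero.ne p])

/-- (1 b; 0 p) -/
noncomputable def mB (p : ℕ) [NeZero p] (b : ℤ) : GL (Fin 2) ℝ :=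
  Matrix.GeneralLinearGroup.mkOfDetNeZero !![1, (b : ℝ); 0, (p : ℝ)] (by
    rw [Matrix.det_fin_two_of]; simp [NeZero.ne p])

section
variable (p : ℕ) [NeZero p]

lemma mA_val : (mA p).val = !![(p : ℝ), 0; 0, 1] := rfl
lemma mB_val (b : ℤ) : (mB p b).val = !![1, (b : ℝ); 0, (p : ℝ)] := rfl

lemma coe_mA_smul (z : ℍ) : ((mA p • z : ℍ) : ℂ) = (p : ℂ) * z := by
  have hp : (0 : ℝ) < p := by exact_mod_cast Nat.pos_of_ne_zero (NeZero.ne p)
  rw [coe_smul_of_det_pos]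
  · simp [num, denom, mA_val]
  · rw [Matrix.GeneralLinearGroup.val_det_apply, mA_val, Matrix.det_fin_two_of]
    simpa using hp

lemma coe_mB_smul (b : ℤ) (z : ℍ) : ((mB p b • z : ℍ) : ℂ) = ((z : ℂ) + b) / p := by
  have hp : (0 : ℝ) < p := by exact_mod_cast Nat.pos_of_ne_zero (NeZero.ne p)
  rw [coe_smul_of_det_pos]
  · simp [num, denom, mB_val]
  · rw [Matrix.GeneralLinearGroup.val_det_apply, mB_val, Matrix.det_fin_two_of]
    simpa using hp

lemma ofComplex_mul (z : ℍ) : ofComplex ((p : ℂ) * z) = mA p • z := by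
  rw [← coe_mA_smul, ofComplex_apply]

lemma ofComplex_div (b : ℤ) (z : ℍ) : ofComplex (((z : ℂ) + b) / p) = mB p b • z := by
  rw [← coe_mB_smul, ofComplex_apply]

lemma heckeT_eq (f : ℍ → ℂ) (z : ℍ) : heckeT p f z =
    (f (mA p • z) + ∑ b ∈ Finset.range p, f (mB p b • z)) / (Real.sqrt p : ℂ) := by
  unfold heckeT
  rw [ofComplex_mul]
  congr 2
  refine Finset.sum_congr rfl fun b _ => ?_
  rw [← ofComplex_div]
  simp

end

/-- periodic functions on `ℤ` and sums over residues -/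
lemma sum_range_zmod (p : ℕ) [NeZero p] (F : ℤ → ℂ) :
    ∑ b ∈ Finset.range p, F b = ∑ x : ZMod p, F (x.val : ℤ) := by
  rw [Finset.sum_range]
  obtain ⟨n, rfl⟩ := Nat.exists_eq_succ_of_ne_zero (NeZero.ne p)
  rfl

lemma periodic_int {p : ℕ} {F : ℤ → ℂ} (hF : ∀ b : ℤ, F (b + p) = F b) (b k : ℤ) :
    F (b + p * k) = F b := by
  induction k using Int.induction_on with
  | zero => simp
  | succ i ih => rw [← ih, mul_add, mul_one, ← add_assoc, hF]
  | pred i ih =>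
    rw [← ih]
    have := hF (b + p * (-i - 1))
    rw [← this]
    congr 1
    ring

lemma periodic_val {p : ℕ} [NeZero p] {F : ℤ → ℂ} (hF : ∀ b : ℤ, F (b + p) = F b) (b : ℤ) :
    F b = F (((b : ZMod p)).val : ℤ) := by
  have h1 : ((p : ℤ)) ∣ b - (((b : ZMod p)).val : ℤ) := by
    rw [← ZMod.intCast_zmod_eq_zero_iff_dvd]
    simp
  obtain ⟨k, hk⟩ := h1
  have : b = (((b : ZMod p)).val : ℤ) + p * k := by linarith
  rw [this, periodic_int hF]
  simp

lemma sum_periodic_equiv {p : ℕ} [NeZero p] {F : ℤ → ℂ} (hF : ∀ b : ℤ, F (b + p) = F b)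
    (e : ZMod p ≃ ZMod p) (g : ℤ → ℤ) (hg : ∀ b : ℤ, ((g b : ℤ) : ZMod p) = e (b : ZMod p)) :
    ∑ b ∈ Finset.range p, F (g b) = ∑ b ∈ Finset.range p, F b := by
  rw [sum_range_zmod p (fun b => F (g b)), sum_range_zmod p F,
    ← Equiv.sum_comp e (fun x : ZMod p => F (x.val : ℤ))]
  refine Finset.sum_congr rfl fun x _ => ?_
  rw [periodic_val hF (g _), hg]
  congr 3
  simp

/-- invariance under `SL(2,ℤ)` -/
def SLinv (f : ℍ → ℂ) : Prop := ∀ (γ : SL(2, ℤ)) (z : ℍ), f (γ • z) = f z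

lemma SLinv_of_ST {f : ℍ → ℂ} (hS : ∀ z, f (ModularGroup.S • z) = f z)
    (hT : ∀ z, f (ModularGroup.T • z) = f z) : SLinv f := by
  intro γ
  have hγ : γ ∈ Subgroup.closure {ModularGroup.S, ModularGroup.T} := by
    rw [SpecialLinearGroup.SL2Z_generators]; trivial
  induction hγ using Subgroup.closure_induction with
  | mem x hx =>
    rcases hx with rfl | rfl
    · exact hS
    · exact hT
  | one => intro z; rw [one_smul]
  | mul x y _ _ hx hy => intro z; rw [mul_smul, hx, hy]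
  | inv x _ hx => intro z; rw [← hx (x⁻¹ • z), smul_inv_smul]

lemma SLinv.gl {f : ℍ → ℂ} (hf : SLinv f) (γ : SL(2, ℤ)) (z : ℍ) :
    f ((γ : GL (Fin 2) ℝ) • z) = f z := hf γ z

section hecke
variable {p : ℕ} [NeZero p] {f : ℍ → ℂ}

/-- if `M = γ N` with `γ` integral unimodular then `f (M z) = f (N z)` -/
lemma SLinv.of_eq (hf : SLinv f) {M N : GL (Fin 2) ℝ} (γ : SL(2, ℤ))
    (h : M = (γ : GL (Fin 2) ℝ) * N) (z : ℍ) : f (M • z) = f (N • z) := by
  rw [h, mul_smul]; exact hf.gl γ _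

lemma gl_mul (A B : GL (Fin 2) ℝ) (i j : Fin 2) :
    (A * B) i j = A i 0 * B 0 j + A i 1 * B 1 j := by
  change (A.val * B.val) i j = _
  rw [Matrix.mul_apply, Fin.sum_univ_two]

lemma gl_ext {A B : GL (Fin 2) ℝ} (h00 : A 0 0 = B 0 0) (h01 : A 0 1 = B 0 1)
    (h10 : A 1 0 = B 1 0) (h11 : A 1 1 = B 1 1) : A = B := by
  ext i j
  fin_cases i <;> fin_cases j
  · exact h00
  · exact h01
  · exact h10
  · exact h11

lemma sl00 (γ : SL(2, ℤ)) : (γ : GL (Fin 2) ℝ) 0 0 = ((γ 0 0 : ℤ) : ℝ) := rfl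
lemma sl01 (γ : SL(2, ℤ)) : (γ : GL (Fin 2) ℝ) 0 1 = ((γ 0 1 : ℤ) : ℝ) := rfl
lemma sl10 (γ : SL(2, ℤ)) : (γ : GL (Fin 2) ℝ) 1 0 = ((γ 1 0 : ℤ) : ℝ) := rfl
lemma sl11 (γ : SL(2, ℤ)) : (γ : GL (Fin 2) ℝ) 1 1 = ((γ 1 1 : ℤ) : ℝ) := rfl
lemma T00 : (ModularGroup.T 0 0 : ℤ) = 1 := rfl
lemma T01 : (ModularGroup.T 0 1 : ℤ) = 1 := rfl
lemma T10 : (ModularGroup.T 1 0 : ℤ) = 0 := rfl
lemma T11 : (ModularGroup.T 1 1 : ℤ) = 1 := rfl
lemma S00 : (ModularGroup.S 0 0 : ℤ) = 0 := rfl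
lemma S01 : (ModularGroup.S 0 1 : ℤ) = -1 := rfl
lemma S10 : (ModularGroup.S 1 0 : ℤ) = 1 := rfl
lemma S11 : (ModularGroup.S 1 1 : ℤ) = 0 := rfl
lemma A00 : mA p 0 0 = (p : ℝ) := rfl
lemma A01 : mA p 0 1 = 0 := rfl
lemma A10 : mA p 1 0 = 0 := rfl
lemma A11 : mA p 1 1 = 1 := rfl
lemma B00 (b : ℤ) : mB p b 0 0 = 1 := rfl
lemma B01 (b : ℤ) : mB p b 0 1 = (b : ℝ) := rfl
lemma B10 (b : ℤ) : mB p b 1 0 = 0 := rfl
lemma B11 (b : ℤ) : mB p b 1 1 = (p : ℝ) := rfl
lemma J00 : J 0 0 = -1 := rfl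
lemma J01 : J 0 1 = 0 := rfl
lemma J10 : J 1 0 = 0 := rfl
lemma J11 : J 1 1 = 1 := rfl

lemma Tp01 (p : ℕ) : ((ModularGroup.T ^ p : SL(2, ℤ)) 0 1 : ℤ) = p := by
  have := ModularGroup.coe_T_zpow (p : ℤ)
  rw [zpow_natCast] at this
  rw [this]; rfl
lemma Tp00 (p : ℕ) : ((ModularGroup.T ^ p : SL(2, ℤ)) 0 0 : ℤ) = 1 := by
  have := ModularGroup.coe_T_zpow (p : ℤ)
  rw [zpow_natCast] at this
  rw [this]; rfl
lemma Tp10 (p : ℕ) : ((ModularGroup.T ^ p : SL(2, ℤ)) 1 0 : ℤ) = 0 := by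
  have := ModularGroup.coe_T_zpow (p : ℤ)
  rw [zpow_natCast] at this
  rw [this]; rfl
lemma Tp11 (p : ℕ) : ((ModularGroup.T ^ p : SL(2, ℤ)) 1 1 : ℤ) = 1 := by
  have := ModularGroup.coe_T_zpow (p : ℤ)
  rw [zpow_natCast] at this
  rw [this]; rfl

lemma mB_add (b : ℤ) : mB p (b + p) = (ModularGroup.T : GL (Fin 2) ℝ) * mB p b := by
  apply gl_ext <;> simp only [gl_mul, sl00, sl01, sl10, sl11, T00, T01, T10, T11, B00, B01, B10, B11]
  all_goals push_cast; ring

lemma periodic_B (hf : SLinv f) (z : ℍ) (b : ℤ) : f (mB p (b + p) • z) = f (mB p b • z) :=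
  hf.of_eq ModularGroup.T (mB_add b) z

lemma mB_mul_T (b : ℤ) : mB p b * (ModularGroup.T : GL (Fin 2) ℝ) = mB p (b + 1) := by
  apply gl_ext <;> simp only [gl_mul, sl00, sl01, sl10, sl11, T00, T01, T10, T11, B00, B01, B10, B11]
  all_goals push_cast; ring

lemma mA_mul_T : mA p * (ModularGroup.T : GL (Fin 2) ℝ) =
    ((ModularGroup.T ^ p : SL(2, ℤ)) : GL (Fin 2) ℝ) * mA p := by
  apply gl_ext <;> simp only [gl_mul, sl00, sl01, sl10, sl11, T00, T01, T10, T11, A00, A01, A10,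
    A11, Tp00, Tp01, Tp10, Tp11]
  all_goals push_cast; ring

lemma mA_mul_S : mA p * (ModularGroup.S : GL (Fin 2) ℝ) =
    (ModularGroup.S : GL (Fin 2) ℝ) * mB p 0 := by
  apply gl_ext <;> simp only [gl_mul, sl00, sl01, sl10, sl11, S00, S01, S10, S11, A00, A01, A10,
    A11, B00, B01, B10, B11]
  all_goals push_cast; ring

lemma mB_zero_mul_S : mB p 0 * (ModularGroup.S : GL (Fin 2) ℝ) =
    (ModularGroup.S : GL (Fin 2) ℝ) * mA p := by
  apply gl_ext <;> simp only [gl_mul, sl00, sl01, sl10, sl11, S00, S01, S10, S11, A00, A01, A10,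
    A11, B00, B01, B10, B11]
  all_goals push_cast; ring

/-- for `b b' ≡ -1 mod p`, `(1 b; 0 p) S = γ (1 b'; 0 p)` -/
lemma mB_mul_S {b b' k : ℤ} (h : b * b' + 1 = p * k) : ∃ γ : SL(2, ℤ),
    mB p b * (ModularGroup.S : GL (Fin 2) ℝ) = (γ : GL (Fin 2) ℝ) * mB p b' := by
  have hp : (p : ℝ) ≠ 0 := by exact_mod_cast NeZero.ne p
  refine ⟨⟨!![b, -k; p, -b'], by rw [Matrix.det_fin_two_of]; linarith⟩, ?_⟩
  have h' : (b : ℝ) * b' + 1 = p * k := by exact_mod_cast h
  apply gl_ext <;> simp only [gl_mul, sl00, sl01, sl10, sl11, S00, S01, S10, S11, B00, B01, B10, B11]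
  · change _ = ((b : ℤ) : ℝ) * 1 + ((-k : ℤ) : ℝ) * 0
    push_cast; ring
  · change _ = ((b : ℤ) : ℝ) * b' + ((-k : ℤ) : ℝ) * p
    push_cast; linarith
  · change _ = (((p : ℤ) : ℤ) : ℝ) * 1 + ((-b' : ℤ) : ℝ) * 0
    push_cast; ring
  · change _ = (((p : ℤ) : ℤ) : ℝ) * b' + ((-b' : ℤ) : ℝ) * p
    push_cast; ring

lemma sum_B_shift (hf : SLinv f) (z : ℍ) :
    ∑ b ∈ Finset.range p, f (mB p ((b : ℤ) + 1) • z) = ∑ b ∈ Finset.range p, f (mB p b • z) :=
  sum_periodic_equiv (F := fun b => f (mB p b • z)) (periodic_B hf z) (Equiv.addRight 1)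
    (fun b => b + 1) (fun b => by simp)

lemma sum_B_neg (hf : SLinv f) (z : ℍ) :
    ∑ b ∈ Finset.range p, f (mB p (-(b : ℤ)) • z) = ∑ b ∈ Finset.range p, f (mB p b • z) :=
  sum_periodic_equiv (F := fun b => f (mB p b • z)) (periodic_B hf z) (Equiv.neg _)
    (fun b => -b) (fun b => by simp)

end hecke

section prime
variable {p : ℕ} [Fact p.Prime] {f : ℍ → ℂ}

lemma heckeT_T (hf : SLinv f) (z : ℍ) : heckeT p f (ModularGroup.T • z) = heckeT p f z := by
  rw [heckeT_eq, heckeT_eq]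
  congr 2
  · change f (mA p • ((ModularGroup.T : GL (Fin 2) ℝ) • z)) = _
    rw [← mul_smul]
    exact hf.of_eq _ mA_mul_T z
  · rw [← sum_B_shift hf z]
    refine Finset.sum_congr rfl fun b _ => ?_
    change f (mB p b • ((ModularGroup.T : GL (Fin 2) ℝ) • z)) = _
    rw [← mul_smul, mB_mul_T]

lemma heckeT_S (hf : SLinv f) (z : ℍ) : heckeT p f (ModularGroup.S • z) = heckeT p f z := by
  have hp : 0 < p := (Fact.out : p.Prime).pos
  rw [heckeT_eq, heckeT_eq]
  congr 1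
  have key : ∀ z : ℍ, ∑ b ∈ Finset.range p, f (mB p b • z) =
      f (mB p 0 • z) + ∑ x ∈ Finset.univ.filter (fun x : ZMod p => x ≠ 0),
        f (mB p (x.val : ℤ) • z) := by
    intro z
    rw [sum_range_zmod p (fun b => f (mB p b • z)), Finset.filter_ne', ← Finset.add_sum_erase _ _
      (Finset.mem_univ (0 : ZMod p))]
    simp
  rw [key, key]
  have h1 : f (mA p • ModularGroup.S • z) = f (mB p 0 • z) := by
    change f (mA p • ((ModularGroup.S : GL (Fin 2) ℝ) • z)) = _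
    rw [← mul_smul]
    exact hf.of_eq _ mA_mul_S z
  have h2 : f (mB p 0 • ModularGroup.S • z) = f (mA p • z) := by
    change f (mB p 0 • ((ModularGroup.S : GL (Fin 2) ℝ) • z)) = _
    rw [← mul_smul]
    exact hf.of_eq _ mB_zero_mul_S z
  have h3 : ∑ x ∈ Finset.univ.filter (fun x : ZMod p => x ≠ 0),
      f (mB p (x.val : ℤ) • ModularGroup.S • z) =
      ∑ x ∈ Finset.univ.filter (fun x : ZMod p => x ≠ 0), f (mB p (x.val : ℤ) • z) := by
    refine Finset.sum_nbij' (fun x => -x⁻¹) (fun x => -x⁻¹) ?_ ?_ ?_ ?_ ?_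
    · intro x hx; simpa using hx
    · intro x hx; simpa using hx
    · intro x hx; simp
    · intro x hx; simp
    · intro x hx
      have hx0 : x ≠ 0 := by simpa using hx
      have h4 : ((p : ℤ)) ∣ (x.val : ℤ) * (((-x⁻¹ : ZMod p)).val : ℤ) + 1 := by
        rw [← ZMod.intCast_zmod_eq_zero_iff_dvd]
        push_cast
        rw [ZMod.natCast_val, ZMod.natCast_val, ZMod.cast_id, ZMod.cast_id]
        field_simp
        ring
      obtain ⟨k, hk⟩ := h4
      obtain ⟨γ, hγ⟩ := mB_mul_S (p := p) hk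
      change f (mB p (x.val : ℤ) • ((ModularGroup.S : GL (Fin 2) ℝ) • z)) = _
      rw [← mul_smul]
      exact hf.of_eq _ hγ z
  rw [h1, h2, h3]
  ring

lemma heckeT_SLinv (hf : SLinv f) : SLinv (heckeT p f) :=
  SLinv_of_ST (heckeT_S hf) (heckeT_T hf)

lemma J_mul_mA : mA p * J = J * mA p := by
  apply gl_ext <;> simp only [gl_mul, J00, J01, J10, J11, A00, A01, A10, A11]
  all_goals ring

lemma J_mul_mB (b : ℤ) : mB p b * J = J * mB p (-b) := by
  apply gl_ext <;> simp only [gl_mul, J00, J01, J10, J11, B00, B01, B10, B11]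
  all_goals push_cast; ring

lemma heckeT_J (hf : SLinv f) (hJ : ∀ z : ℍ, f (J • z) = -f z) (z : ℍ) :
    heckeT p f (J • z) = -heckeT p f z := by
  rw [heckeT_eq, heckeT_eq]
  have h1 : f (mA p • J • z) = - f (mA p • z) := by
    rw [← mul_smul, J_mul_mA, mul_smul, hJ]
  have h2 : ∑ b ∈ Finset.range p, f (mB p b • J • z) = - ∑ b ∈ Finset.range p, f (mB p b • z) := by
    rw [← sum_B_neg hf, ← Finset.sum_neg_distrib]
    refine Finset.sum_congr rfl fun b _ => ?_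
    rw [← mul_smul, J_mul_mB, mul_smul, hJ, neg_neg]
  rw [h1, h2]
  ring

end prime

section comm
variable {p q : ℕ} [Fact p.Prime] [Fact q.Prime] {f : ℍ → ℂ}

lemma AA_comm : mA q * mA p = mA p * mA q := by
  apply gl_ext <;> simp only [gl_mul, A00, A01, A10, A11]
  all_goals ring

lemma sum_AB (hf : SLinv f) (hpq : p ≠ q) (z : ℍ) :
    ∑ c ∈ Finset.range q, f ((mA p * mB q c) • z) = ∑ c ∈ Finset.range q, f ((mB q c * mA p) • z) := by
  -- `mA p * mB q c = (p, pc; 0, q)` and `mB q (pc) * mA p = (p, pc; 0, q)`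
  have h1 : ∀ c : ℤ, mA p * mB q c = mB q (p * c) * mA p := by
    intro c
    apply gl_ext <;> simp only [gl_mul, A00, A01, A10, A11, B00, B01, B10, B11]
    all_goals push_cast; ring
  have hunit : IsUnit (p : ZMod q) := by
    rw [ZMod.isUnit_iff_coprime]
    exact (Nat.coprime_primes (Fact.out : p.Prime) (Fact.out : q.Prime)).2 hpq
  have hF : ∀ b : ℤ, f ((mB q (b + q) * mA p) • z) = f ((mB q b * mA p) • z) := by
    intro b
    rw [mul_smul, mul_smul]
    exact periodic_B hf _ b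
  have h2 := sum_periodic_equiv (F := fun c => f ((mB q c * mA p) • z)) hF
    (hunit.unit.mulLeft) (fun c => p * c) (fun b => by simp)
  rw [← h2]
  refine Finset.sum_congr rfl fun c _ => ?_
  rw [h1]

lemma sum_BB (z : ℍ) :
    ∑ b ∈ Finset.range p, ∑ c ∈ Finset.range q, f ((mB q c * mB p b) • z) =
    ∑ k ∈ Finset.range (p * q), f ((mB (p * q) k) • z) := by
  have h1 : ∀ b c : ℤ, mB q c * mB p b = mB (p * q) (b + p * c) := by
    intro b c
    apply gl_ext <;> simp only [gl_mul, B00, B01, B10, B11]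
    all_goals push_cast; ring
  rw [Finset.sum_comm]
  rw [Finset.sum_range, Finset.sum_range]
  have h2 : ∀ c : Fin q, ∑ b ∈ Finset.range p, f ((mB q (c : ℕ) * mB p b) • z) =
      ∑ b : Fin p, f ((mB (p * q) ((b : ℕ) + p * (c : ℕ) : ℕ)) • z) := by
    intro c
    rw [Finset.sum_range]
    refine Finset.sum_congr rfl fun b _ => ?_
    rw [h1]
    push_cast
    rfl
  simp_rw [h2]
  rw [← Fintype.sum_prod_type' (f := fun (c : Fin q) (b : Fin p) =>
    f ((mB (p * q) ((b : ℕ) + p * (c : ℕ) : ℕ)) • z))]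
  have hqp : q * p = p * q := mul_comm q p
  rw [← Equiv.sum_comp (finProdFinEquiv.trans (finCongr hqp))]
  refine Finset.sum_congr rfl fun x _ => ?_
  simp [finProdFinEquiv]

lemma heckeT_comm (hf : SLinv f) (z : ℍ) :
    heckeT p (heckeT q f) z = heckeT q (heckeT p f) z := by
  rcases eq_or_ne p q with rfl | hpq
  · rfl
  have expand : ∀ (p q : ℕ) [Fact p.Prime] [Fact q.Prime] (z : ℍ), heckeT p (heckeT q f) z =
      (f ((mA q * mA p) • z) + ∑ c ∈ Finset.range q, f ((mB q c * mA p) • z) +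
        ∑ b ∈ Finset.range p, f ((mA q * mB p b) • z) +
        ∑ b ∈ Finset.range p, ∑ c ∈ Finset.range q, f ((mB q c * mB p b) • z)) /
        ((Real.sqrt q : ℂ) * (Real.sqrt p : ℂ)) := by
    intro p q _ _ z
    rw [heckeT_eq, heckeT_eq]
    simp_rw [heckeT_eq q]
    rw [← Finset.sum_div, ← add_div, div_div, Finset.sum_add_distrib]
    congr 1
    simp only [mul_smul]
    ring
  rw [expand p q, expand q p, AA_comm (p := p) (q := q), sum_AB (p := q) (q := p) hf hpq.symm z,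
    ← sum_AB (p := p) (q := q) hf hpq z, sum_BB, sum_BB, mul_comm (Real.sqrt q : ℂ)]
  congr 1
  have hqp : ∑ k ∈ Finset.range (p * q), f ((mB (p * q) k) • z) =
      ∑ k ∈ Finset.range (q * p), f ((mB (q * p) k) • z) := by
    have : q * p = p * q := mul_comm q p
    have h3 : ∀ n m : ℕ, [NeZero n] → [NeZero m] → n = m → ∑ k ∈ Finset.range n, f ((mB n k) • z) =
      ∑ k ∈ Finset.range m, f ((mB m k) • z) := by
      intro n m _ _ h
      subst h
      rfl
    exact h3 _ _ this.symm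
  rw [hqp]
  ring

end comm

section op
variable {p : ℕ} [Fact p.Prime]

lemma continuous_heckeT {f : ℍ → ℂ} (hf : Continuous f) : Continuous (heckeT p f) := by
  have : heckeT p f = fun z => (f (mA p • z) + ∑ b ∈ Finset.range p, f (mB p b • z)) /
      (Real.sqrt p : ℂ) := by
    funext z; exact heckeT_eq p f z
  rw [this]
  refine Continuous.div_const ?_ _
  refine (hf.comp (continuous_const_smul _)).add ?_
  refine continuous_finsetSum _ fun b _ => ?_
  exact hf.comp (continuous_const_smul _)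

lemma heckeT_norm_le {f : ℍ → ℂ} {M : ℝ} (hM : ∀ z, ‖f z‖ ≤ M) (z : ℍ) :
    ‖heckeT p f z‖ ≤ (p + 1) / Real.sqrt p * M := by
  have hp : 0 < p := (Fact.out : p.Prime).pos
  have hp' : (0 : ℝ) < Real.sqrt p := Real.sqrt_pos.mpr (by exact_mod_cast hp)
  rw [heckeT_eq, norm_div, Complex.norm_real, Real.norm_of_nonneg hp'.le, div_mul_eq_mul_div]
  apply div_le_div_of_nonneg_right _ hp'.le
  refine (norm_add_le _ _).trans ?_
  have h1 : ‖∑ b ∈ Finset.range p, f (mB p b • z)‖ ≤ p * M := by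
    refine (norm_sum_le _ _).trans ?_
    calc _ ≤ ∑ _b ∈ Finset.range p, M := Finset.sum_le_sum fun b _ => hM _
      _ = p * M := by simp
  linarith [hM (mA p • z)]

lemma heckeT_add (f g : ℍ → ℂ) (z : ℍ) :
    heckeT p (fun w => f w + g w) z = heckeT p f z + heckeT p g z := by
  rw [heckeT_eq, heckeT_eq, heckeT_eq, Finset.sum_add_distrib]
  ring

lemma heckeT_const_mul (c : ℂ) (f : ℍ → ℂ) (z : ℍ) :
    heckeT p (fun w => c * f w) z = c * heckeT p f z := by
  rw [heckeT_eq, heckeT_eq, ← Finset.mul_sum]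
  ring

/-- Hecke operators on `OddInv` -/
noncomputable def heckeL (p : ℕ) [Fact p.Prime] : OddInv →L[ℂ] OddInv :=
  LinearMap.mkContinuous
    { toFun := fun f => ⟨BoundedContinuousFunction.ofNormedAddCommGroup (heckeT p (f : ℍ →ᵇ ℂ))
          (continuous_heckeT f.1.continuous) ((p + 1) / Real.sqrt p * ‖f.1‖)
          (heckeT_norm_le (fun z => f.1.norm_coe_le_norm z)),
          heckeT_SLinv f.2.1, heckeT_J f.2.1 f.2.2⟩
      map_add' := fun f g => by
        apply Subtype.ext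
        ext z
        exact heckeT_add _ _ z
      map_smul' := fun c f => by
        apply Subtype.ext
        ext z
        exact heckeT_const_mul c _ z }
    ((p + 1) / Real.sqrt p) (fun f => by
      refine (BoundedContinuousFunction.norm_le (by positivity)).2 ?_
      exact heckeT_norm_le (fun z => f.1.norm_coe_le_norm z))

lemma heckeL_apply (f : OddInv) (z : ℍ) : (heckeL p f : ℍ →ᵇ ℂ) z = heckeT p (f : ℍ →ᵇ ℂ) z := rfl

lemma heckeL_comm {q : ℕ} [Fact q.Prime] (f : OddInv) :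
    heckeL p (heckeL q f) = heckeL q (heckeL p f) := by
  apply Subtype.ext
  ext z
  exact heckeT_comm f.2.1 z

lemma kerOp_sum {Φ : ℝ → ℝ} (hΦ : Continuous Φ) (hc : HasCompactSupport Φ) {ι : Type*}
    (s : Finset ι) (f : ι → ℍ → ℂ) (hf : ∀ i, Continuous (f i)) (z : ℍ) :
    kerOp Φ (fun w => ∑ i ∈ s, f i w) z = ∑ i ∈ s, kerOp Φ (f i) z := by
  unfold kerOp
  rw [← integral_finsetSum _ (fun i _ => integrable_ker_mul hΦ hc z (hf i))]
  congr 1
  funext w
  rw [Finset.mul_sum]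

lemma kerOp_heckeT {Φ : ℝ → ℝ} (hΦ : Continuous Φ) (hc : HasCompactSupport Φ) {f : ℍ → ℂ}
    (hf : Continuous f) (z : ℍ) : kerOp Φ (heckeT p f) z = heckeT p (kerOp Φ f) z := by
  have : heckeT p f = fun z => (Real.sqrt p : ℂ)⁻¹ *
      (f (mA p • z) + ∑ b ∈ Finset.range p, f (mB p b • z)) := by
    funext z; rw [heckeT_eq]; ring
  have hc1 : ∀ g : GL (Fin 2) ℝ, Continuous (fun w : ℍ => f (g • w)) := fun g =>
    hf.comp (continuous_const_smul g)
  rw [this, kerOp_const_mul, kerOp_add hΦ hc (f := fun w => f (mA p • w))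
    (g := fun w => ∑ b ∈ Finset.range p, f (mB p b • w)) (hc1 _)
    (continuous_finsetSum _ fun b _ => hc1 _),
    kerOp_sum hΦ hc _ (fun (b : ℕ) w => f (mB p b • w)) (fun b => hc1 _), heckeT_eq]
  simp_rw [kerOp_smul]
  rw [div_eq_inv_mul]

lemma kerL_heckeL (Φ : ℝ → ℝ) (hΦ : ContDiff ℝ ∞ Φ) (hc : HasCompactSupport Φ) (f : OddInv) :
    kerL Φ hΦ hc (heckeL p f) = heckeL p (kerL Φ hΦ hc f) := by
  apply Subtype.ext
  ext z
  exact kerOp_heckeT hΦ.continuous hc f.1.continuous z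

end op

end Pool.Agent.W384
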