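import Pool.Agent.W384.Defs

set_option autoImplicit false

open UpperHalfPlane MeasureTheory Filter Topology
open scoped MatrixGroups BoundedContinuousFunction ContDiff Pointwise

namespace Pool.Agent.W384

lemma uu_nonneg (z w : ℍ) : 0 ≤ uu z w := by
  unfold uu
  have := z.im_pos
  have := w.im_pos
  positivity

lemma uu_comm (z w : ℍ) : uu z w = uu w z := by
  unfold uu
  rw [dist_comm (z : ℂ) (w : ℂ), mul_right_comm 2 z.im w.im]

lemma cosh_dist_eq (z w : ℍ) : Real.cosh (dist z w) = 1 + uu z w := cosh_dist z w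

lemma uu_eq (z w : ℍ) : uu z w = Real.cosh (dist z w) - 1 := by rw [cosh_dist_eq]; ring

lemma uu_self (z : ℍ) : uu z z = 0 := by simp [uu]

lemma continuous_uu : Continuous (fun p : ℍ × ℍ => uu p.1 p.2) := by
  have : (fun p : ℍ × ℍ => uu p.1 p.2) = fun p : ℍ × ℍ => Real.cosh (dist p.1 p.2) - 1 := by
    funext p; exact uu_eq _ _
  rw [this]
  exact (Real.continuous_cosh.comp continuous_dist).sub continuous_const

lemma uu_smul (g : GL (Fin 2) ℝ) (z w : ℍ) : uu (g • z) (g • w) = uu z w := by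
  unfold uu
  rw [coe_smul, coe_smul, dist_eq_norm, ← map_sub, norm_σ, im_smul_eq_div_normSq,
    im_smul_eq_div_normSq, dist_eq_norm]
  have hz : denom g z ≠ 0 := denom_ne_zero g z
  have hw : denom g w ≠ 0 := denom_ne_zero g w
  have h1 : num g z / denom g z - num g w / denom g w =
      (g.det.val : ℂ) * ((z : ℂ) - w) / (denom g z * denom g w) := by
    rw [div_sub_div _ _ hz hw]
    congr 1
    have : (g.det.val : ℝ) = g 0 0 * g 1 1 - g 0 1 * g 1 0 := by
      rw [Matrix.GeneralLinearGroup.val_det_apply, Matrix.det_fin_two]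
    rw [this]
    unfold num denom
    push_cast
    ring
  rw [h1, norm_div, norm_mul, norm_mul, Complex.normSq_eq_norm_sq, Complex.normSq_eq_norm_sq,
    Complex.norm_real, Real.norm_eq_abs]
  have hd : |g.det.val| ≠ 0 := abs_ne_zero.mpr g.det.ne_zero
  have hz' : ‖denom g z‖ ≠ 0 := norm_ne_zero_iff.mpr hz
  have hw' : ‖denom g w‖ ≠ 0 := norm_ne_zero_iff.mpr hw
  have h3 := z.im_pos.ne'
  have h4 := w.im_pos.ne'
  field_simp

lemma dist_le_of_uu {z w : ℍ} {R : ℝ} (h : uu z w ≤ R) : dist z w ≤ 1 + R := by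
  have h1 : dist z w ≤ Real.cosh (dist z w) := by
    have h2 : dist z w ≤ Real.sinh (dist z w) := Real.self_le_sinh_iff.mpr dist_nonneg
    exact h2.trans (Real.sinh_lt_cosh _).le
  rw [cosh_dist_eq] at h1
  linarith

/-- a radius beyond which `Φ` vanishes -/
lemma exists_radius {Φ : ℝ → ℝ} (hc : HasCompactSupport Φ) :
    ∃ R : ℝ, 0 ≤ R ∧ ∀ z w : ℍ, R < dist z w → Φ (uu z w) = 0 := by
  obtain ⟨R, hR⟩ := hc.isCompact.isBounded.subset_closedBall (0 : ℝ)
  refine ⟨1 + |R|, by positivity, fun z w h => ?_⟩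
  by_contra hne
  have h1 : uu z w ∈ tsupport Φ := subset_tsupport _ hne
  have h2 := hR h1
  rw [Metric.mem_closedBall, dist_zero_right, Real.norm_eq_abs] at h2
  have h3 : uu z w ≤ |R| := (le_abs_self _).trans (h2.trans (le_abs_self _))
  have := dist_le_of_uu h3
  linarith

lemma continuous_ker {Φ : ℝ → ℝ} (hΦ : Continuous Φ) (z : ℍ) :
    Continuous (fun w : ℍ => Φ (uu z w)) :=
  hΦ.comp (continuous_uu.comp (by fun_prop : Continuous fun w : ℍ => (z, w)))

lemma compact_ker {Φ : ℝ → ℝ} (hc : HasCompactSupport Φ) (z : ℍ) :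
    HasCompactSupport (fun w : ℍ => Φ (uu z w)) := by
  obtain ⟨R, hR, h⟩ := exists_radius hc
  refine HasCompactSupport.of_support_subset_isCompact (isCompact_closedBall z R) ?_
  intro w hw
  rw [Metric.mem_closedBall, dist_comm]
  by_contra hlt
  exact hw (h z w (not_le.mp hlt))

lemma integrable_ker {Φ : ℝ → ℝ} (hΦ : Continuous Φ) (hc : HasCompactSupport Φ) (z : ℍ) :
    Integrable (fun w : ℍ => Φ (uu z w)) :=
  (continuous_ker hΦ z).integrable_of_hasCompactSupport (compact_ker hc z)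

lemma integrable_ker_mul {Φ : ℝ → ℝ} (hΦ : Continuous Φ) (hc : HasCompactSupport Φ) (z : ℍ)
    {f : ℍ → ℂ} (hf : Continuous f) :
    Integrable (fun w : ℍ => (Φ (uu z w) : ℂ) * f w) := by
  refine Continuous.integrable_of_hasCompactSupport ?_ ?_
  · exact (Complex.continuous_ofReal.comp (continuous_ker hΦ z)).mul hf
  · refine HasCompactSupport.mul_right ?_
    exact (compact_ker hc z).comp_left (g := ((↑) : ℝ → ℂ)) Complex.ofReal_zero

lemma kerOp_smul (Φ : ℝ → ℝ) (f : ℍ → ℂ) (g : GL (Fin 2) ℝ) (z : ℍ) :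
    kerOp Φ f (g • z) = kerOp Φ (fun w => f (g • w)) z := by
  unfold kerOp
  rw [← integral_smul_eq_self (μ := (volume : Measure ℍ)) (g := g)]
  simp only [uu_smul]

/-- total mass of the kernel -/
noncomputable def kmass (Φ : ℝ → ℝ) : ℝ := ∫ w : ℍ, |Φ (uu I w)|

lemma kmass_nonneg (Φ : ℝ → ℝ) : 0 ≤ kmass Φ := integral_nonneg fun _ => abs_nonneg _

lemma kmass_eq (Φ : ℝ → ℝ) (z : ℍ) : ∫ w : ℍ, |Φ (uu z w)| = kmass Φ := by
  obtain ⟨g, rfl⟩ := MulAction.exists_smul_eq (GL (Fin 2) ℝ) I z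
  rw [← integral_smul_eq_self (μ := (volume : Measure ℍ)) (g := g)]
  simp only [uu_smul, kmass]

lemma kerOp_norm_le {Φ : ℝ → ℝ} (hΦ : Continuous Φ) (hc : HasCompactSupport Φ)
    {f : ℍ → ℂ} {M : ℝ} (hM : ∀ z, ‖f z‖ ≤ M) (z : ℍ) :
    ‖kerOp Φ f z‖ ≤ kmass Φ * M := by
  unfold kerOp
  refine (norm_integral_le_of_norm_le ((integrable_ker hΦ hc z).abs.mul_const M) ?_).trans ?_
  · refine Eventually.of_forall fun w => ?_
    rw [norm_mul, Complex.norm_real, Real.norm_eq_abs]
    exact mul_le_mul_of_nonneg_left (hM w) (abs_nonneg _)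
  · rw [integral_mul_const, kmass_eq]

/-- volume of the balls of radius `R` -/
lemma volume_closedBall (z : ℍ) (R : ℝ) :
    (volume : Measure ℍ).real (Metric.closedBall z R) = (volume : Measure ℍ).real (Metric.closedBall I R) := by
  obtain ⟨g, rfl⟩ := MulAction.exists_smul_eq SL(2, ℝ) I z
  have h1 : Metric.closedBall (g • I) R = g • Metric.closedBall I R := by
    rw [Metric.smul_closedBall]
  rw [h1]
  have h2 : g • Metric.closedBall I R = ((g : GL (Fin 2) ℝ)) • Metric.closedBall I R := rfl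
  rw [h2]
  simp only [Measure.real, measure_smul]

lemma lipschitz_radial {Φ : ℝ → ℝ} (hΦ : ContDiff ℝ ∞ Φ) (hc : HasCompactSupport Φ) :
    ∃ L : ℝ, 0 ≤ L ∧ ∀ z z' w : ℍ, |Φ (uu z w) - Φ (uu z' w)| ≤ L * dist z z' := by
  have h1 : ContDiff ℝ 1 (fun t : ℝ => Φ (Real.cosh t - 1)) := by
    refine (hΦ.of_le (by norm_cast)).comp ?_
    exact Real.contDiff_cosh.sub contDiff_const
  have h2 : HasCompactSupport (fun t : ℝ => Φ (Real.cosh t - 1)) := by
    obtain ⟨R, hR⟩ := hc.isCompact.isBounded.subset_closedBall (0 : ℝ)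
    refine HasCompactSupport.of_support_subset_isCompact
      (isCompact_closedBall (0 : ℝ) (1 + |R|)) ?_
    intro t ht
    have h1 : Real.cosh t - 1 ∈ tsupport Φ := subset_tsupport _ ht
    have h2 := hR h1
    rw [Metric.mem_closedBall, dist_zero_right, Real.norm_eq_abs] at h2 ⊢
    have h3 : Real.cosh t - 1 ≤ |R| := (le_abs_self _).trans (h2.trans (le_abs_self _))
    have h4 : |t| ≤ Real.sinh |t| := Real.self_le_sinh_iff.mpr (abs_nonneg _)
    have h5 := (Real.sinh_lt_cosh |t|).le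
    rw [Real.cosh_abs] at h5
    linarith
  obtain ⟨L, hL⟩ := h1.lipschitzWith_of_hasCompactSupport h2 (by norm_num)
  refine ⟨L, L.2, fun z z' w => ?_⟩
  have h3 := hL.dist_le_mul (dist z w) (dist z' w)
  rw [Real.dist_eq, ← uu_eq, ← uu_eq] at h3
  refine h3.trans (mul_le_mul_of_nonneg_left ?_ L.2)
  rw [Real.dist_eq]
  exact abs_dist_sub_le z z' w

lemma kerOp_lipschitz {Φ : ℝ → ℝ} (hΦ : ContDiff ℝ ∞ Φ) (hc : HasCompactSupport Φ) :
    ∃ C : ℝ, 0 ≤ C ∧ ∀ (f : ℍ → ℂ), Continuous f → ∀ M : ℝ, (∀ z, ‖f z‖ ≤ M) → ∀ z z' : ℍ,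
      ‖kerOp Φ f z - kerOp Φ f z'‖ ≤ C * M * dist z z' := by
  obtain ⟨L, hL0, hL⟩ := lipschitz_radial hΦ hc
  obtain ⟨R, hR0, hR⟩ := exists_radius hc
  set V : ℝ := (volume : Measure ℍ).real (Metric.closedBall I R) with hV
  have hV0 : 0 ≤ V := measureReal_nonneg
  refine ⟨L * (2 * V), by positivity, fun f hf M hM z z' => ?_⟩
  have hM0 : 0 ≤ M := (norm_nonneg _).trans (hM I)
  unfold kerOp
  rw [← integral_sub (integrable_ker_mul hΦ.continuous hc z hf)
    (integrable_ker_mul hΦ.continuous hc z' hf)]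
  have hfin : ∀ z : ℍ, volume (Metric.closedBall z R) ≠ ⊤ := fun z =>
    (isCompact_closedBall z R).measure_lt_top.ne
  set K : ℝ := L * M * dist z z' with hK
  have hint : ∀ z : ℍ, Integrable (Set.indicator (Metric.closedBall z R)
      (fun _ : ℍ => K)) := by
    intro z
    exact (integrable_indicator_iff measurableSet_closedBall).2
      (integrableOn_const (hfin z))
  have hb : ∀ w : ℍ, ‖(Φ (uu z w) : ℂ) * f w - (Φ (uu z' w) : ℂ) * f w‖ ≤
      Set.indicator (Metric.closedBall z R) (fun _ : ℍ => K) w +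
      Set.indicator (Metric.closedBall z' R) (fun _ : ℍ => K) w := by
    intro w
    have hnn : 0 ≤ K := by positivity
    by_cases h1 : w ∈ Metric.closedBall z R ∨ w ∈ Metric.closedBall z' R
    · have h2 : ‖(Φ (uu z w) : ℂ) * f w - (Φ (uu z' w) : ℂ) * f w‖ ≤ K := by
        rw [← sub_mul, norm_mul, ← Complex.ofReal_sub, Complex.norm_real, Real.norm_eq_abs]
        calc |Φ (uu z w) - Φ (uu z' w)| * ‖f w‖ ≤ (L * dist z z') * M :=
              mul_le_mul (hL z z' w) (hM w) (norm_nonneg _) (by positivity)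
          _ = K := by rw [hK]; ring
      rcases h1 with h1 | h1
      · rw [Set.indicator_of_mem h1]
        have : 0 ≤ Set.indicator (Metric.closedBall z' R) (fun _ : ℍ => K) w :=
          Set.indicator_nonneg (fun _ _ => hnn) w
        linarith
      · rw [Set.indicator_of_mem h1]
        have : 0 ≤ Set.indicator (Metric.closedBall z R) (fun _ : ℍ => K) w :=
          Set.indicator_nonneg (fun _ _ => hnn) w
        linarith
    · push Not at h1
      have e1 : Φ (uu z w) = 0 := hR z w (by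
        have := h1.1; rw [Metric.mem_closedBall, not_le, dist_comm] at this; exact this)
      have e2 : Φ (uu z' w) = 0 := hR z' w (by
        have := h1.2; rw [Metric.mem_closedBall, not_le, dist_comm] at this; exact this)
      rw [e1, e2, Set.indicator_of_notMem h1.1, Set.indicator_of_notMem h1.2]
      simp
  refine (norm_integral_le_of_norm_le ((hint z).add (hint z')) (Eventually.of_forall hb)).trans ?_
  simp only [Pi.add_apply]
  rw [integral_add (hint z) (hint z'), integral_indicator_const _ measurableSet_closedBall,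
    integral_indicator_const _ measurableSet_closedBall, volume_closedBall z, volume_closedBall z',
    ← hV]
  simp only [smul_eq_mul]
  apply le_of_eq
  rw [hK]
  ring

end Pool.Agent.W384
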