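import Pool.Agent.W384.Ker

set_option autoImplicit false

open UpperHalfPlane MeasureTheory Filter Topology
open scoped MatrixGroups BoundedContinuousFunction ContDiff Pointwise

namespace Pool.Agent.W384

lemma exists_swap (z w : ℍ) : ∃ g : GL (Fin 2) ℝ, g • z = w ∧ g • w = z := by
  set c : ℝ := z.im + w.im with hc
  set a : ℝ := z.re * w.im + z.im * w.re with ha
  set b : ℝ := c * (z.re * w.re - z.im * w.im) - a * (z.re + w.re) with hb
  have hc0 : 0 < c := add_pos z.im_pos w.im_pos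
  -- the key relation
  have hkey : (a : ℂ) * (z + w) + b - c * (z * w) = 0 := by
    apply Complex.ext
    · simp [hb]
    · simp [hc, ha]; ring
  have hcz : (c : ℂ) * z - a ≠ 0 := by
    intro h
    have := congrArg Complex.im h
    simp at this
    rcases this with h | h
    · exact hc0.ne' h
    · exact z.im_pos.ne' h
  have hcw : (c : ℂ) * w - a ≠ 0 := by
    intro h
    have := congrArg Complex.im h
    simp at this
    rcases this with h | h
    · exact hc0.ne' h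
    · exact w.im_pos.ne' h
  have hz : ((a : ℂ) * z + b) / (c * z - a) = w := by
    rw [div_eq_iff hcz]; linear_combination hkey
  have hw : ((a : ℂ) * w + b) / (c * w - a) = z := by
    rw [div_eq_iff hcw]; linear_combination hkey
  have hdet : 0 < -a ^ 2 - b * c := by
    have e1 : b * c = c ^ 2 * (z.re * w.re - z.im * w.im) - a * c * (z.re + w.re) := by
      rw [hb]; ring
    rw [e1, ha, hc]
    have h1 := z.im_pos
    have h2 := w.im_pos
    have : -(z.re * w.im + z.im * w.re) ^ 2 -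
        ((z.im + w.im) ^ 2 * (z.re * w.re - z.im * w.im) -
          (z.re * w.im + z.im * w.re) * (z.im + w.im) * (z.re + w.re)) =
        z.im * w.im * ((z.re - w.re) ^ 2 + (z.im + w.im) ^ 2) := by ring
    rw [this]
    positivity
  have hdet' : (!![a, b; c, -a] : Matrix (Fin 2) (Fin 2) ℝ).det ≠ 0 := by
    rw [Matrix.det_fin_two_of]; intro h; nlinarith
  set g : GL (Fin 2) ℝ := Matrix.GeneralLinearGroup.mkOfDetNeZero !![a, b; c, -a] hdet' with hg
  have hgdet : 0 < g.det.val := by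
    rw [Matrix.GeneralLinearGroup.val_det_apply]
    change 0 < (!![a, b; c, -a] : Matrix (Fin 2) (Fin 2) ℝ).det
    rw [Matrix.det_fin_two_of]; nlinarith
  have e00 : g 0 0 = a := rfl
  have e01 : g 0 1 = b := rfl
  have e10 : g 1 0 = c := rfl
  have e11 : g 1 1 = -a := rfl
  refine ⟨g, ?_, ?_⟩
  · apply UpperHalfPlane.ext
    rw [coe_smul_of_det_pos hgdet, num, denom, e00, e01, e10, e11, ← hz]
    push_cast; rw [← sub_eq_add_neg]
  · apply UpperHalfPlane.ext
    rw [coe_smul_of_det_pos hgdet, num, denom, e00, e01, e10, e11, ← hw]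
    push_cast; rw [← sub_eq_add_neg]

/-- composition kernel -/
noncomputable def kconv (Φ Ψ : ℝ → ℝ) (z w : ℍ) : ℝ := ∫ v : ℍ, Φ (uu z v) * Ψ (uu v w)

lemma kconv_swap (Φ Ψ : ℝ → ℝ) (z w : ℍ) : kconv Φ Ψ z w = kconv Ψ Φ z w := by
  obtain ⟨g, hgz, hgw⟩ := exists_swap z w
  unfold kconv
  rw [← integral_smul_eq_self (μ := (volume : Measure ℍ)) (g := g)]
  congr 1
  funext v
  have h1 : uu z (g • v) = uu v w := by rw [← hgw, uu_smul, uu_comm]
  have h2 : uu (g • v) w = uu z v := by rw [← hgz, uu_smul, uu_comm]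
  rw [h1, h2, mul_comm]

lemma kerOp_kerOp {Φ Ψ : ℝ → ℝ} (hΦ : Continuous Φ) (hc : HasCompactSupport Φ)
    (hΨ : Continuous Ψ) (hc' : HasCompactSupport Ψ) {f : ℍ → ℂ} (hf : Continuous f) (z : ℍ) :
    kerOp Φ (kerOp Ψ f) z = ∫ w : ℍ, (kconv Φ Ψ z w : ℂ) * f w := by
  unfold kerOp
  have h1 : ∀ v : ℍ, (Φ (uu z v) : ℂ) * ∫ w : ℍ, (Ψ (uu v w) : ℂ) * f w =
      ∫ w : ℍ, (Φ (uu z v) : ℂ) * ((Ψ (uu v w) : ℂ) * f w) := fun v => by
    rw [integral_const_mul]
  simp_rw [h1]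
  obtain ⟨R, hR0, hR⟩ := exists_radius hc
  obtain ⟨R', hR0', hR'⟩ := exists_radius hc'
  have hcont : Continuous (fun p : ℍ × ℍ => (Φ (uu z p.1) : ℂ) * ((Ψ (uu p.1 p.2) : ℂ) * f p.2)) := by
    have e1 : Continuous (fun p : ℍ × ℍ => Φ (uu z p.1)) := (continuous_ker hΦ z).comp continuous_fst
    have e2 : Continuous (fun p : ℍ × ℍ => Ψ (uu p.1 p.2)) := hΨ.comp continuous_uu
    exact (Complex.continuous_ofReal.comp e1).mul
      ((Complex.continuous_ofReal.comp e2).mul (hf.comp continuous_snd))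
  have hint : Integrable (fun p : ℍ × ℍ => (Φ (uu z p.1) : ℂ) * ((Ψ (uu p.1 p.2) : ℂ) * f p.2))
      ((volume : Measure ℍ).prod volume) := by
    refine hcont.integrable_of_hasCompactSupport ?_
    refine HasCompactSupport.of_support_subset_isCompact
      ((isCompact_closedBall z R).prod (isCompact_closedBall z (R + R'))) ?_
    rintro ⟨v, w⟩ hp
    rw [Function.mem_support] at hp
    have hv : dist z v ≤ R := by
      by_contra h
      exact hp (by simp [hR z v (not_le.mp h)])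
    have hw : dist v w ≤ R' := by
      by_contra h
      exact hp (by simp [hR' v w (not_le.mp h)])
    refine ⟨?_, ?_⟩
    · rw [Metric.mem_closedBall, dist_comm]; exact hv
    · rw [Metric.mem_closedBall, dist_comm]
      exact (dist_triangle z v w).trans (add_le_add hv hw)
  rw [integral_integral_swap hint]
  congr 1
  funext w
  rw [kconv, ← integral_complex_ofReal, ← integral_mul_const]
  congr 1
  funext v
  push_cast
  ring

lemma kerOp_comm {Φ Ψ : ℝ → ℝ} (hΦ : Continuous Φ) (hc : HasCompactSupport Φ)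
    (hΨ : Continuous Ψ) (hc' : HasCompactSupport Ψ) {f : ℍ → ℂ} (hf : Continuous f) (z : ℍ) :
    kerOp Φ (kerOp Ψ f) z = kerOp Ψ (kerOp Φ f) z := by
  rw [kerOp_kerOp hΦ hc hΨ hc' hf, kerOp_kerOp hΨ hc' hΦ hc hf]
  simp_rw [kconv_swap Φ Ψ]

/-- the operator on bounded continuous functions -/
noncomputable def kerB (Φ : ℝ → ℝ) (hΦ : ContDiff ℝ ∞ Φ) (hc : HasCompactSupport Φ)
    (f : ℍ →ᵇ ℂ) : ℍ →ᵇ ℂ :=
  BoundedContinuousFunction.ofNormedAddCommGroup (kerOp Φ f) (by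
    obtain ⟨C, hC0, hC⟩ := kerOp_lipschitz hΦ hc
    have h := hC f f.continuous ‖f‖ (fun z => f.norm_coe_le_norm z)
    have hL : LipschitzWith (Real.toNNReal (C * ‖f‖)) (kerOp Φ f) := by
      refine LipschitzWith.of_dist_le_mul fun z w => ?_
      rw [dist_eq_norm, Real.coe_toNNReal _ (by positivity)]
      exact h z w
    exact hL.continuous) (kmass Φ * ‖f‖) (fun z =>
      kerOp_norm_le hΦ.continuous hc (fun z => f.norm_coe_le_norm z) z)

@[simp] lemma kerB_apply (Φ : ℝ → ℝ) (hΦ : ContDiff ℝ ∞ Φ) (hc : HasCompactSupport Φ)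
    (f : ℍ →ᵇ ℂ) (z : ℍ) : kerB Φ hΦ hc f z = kerOp Φ f z := rfl

lemma kerB_norm_le (Φ : ℝ → ℝ) (hΦ : ContDiff ℝ ∞ Φ) (hc : HasCompactSupport Φ)
    (f : ℍ →ᵇ ℂ) : ‖kerB Φ hΦ hc f‖ ≤ kmass Φ * ‖f‖ := by
  refine (BoundedContinuousFunction.norm_le (mul_nonneg (kmass_nonneg Φ) (norm_nonneg _))).2 ?_
  intro z
  exact kerOp_norm_le hΦ.continuous hc (fun z => f.norm_coe_le_norm z) z

lemma kerOp_add {Φ : ℝ → ℝ} (hΦ : Continuous Φ) (hc : HasCompactSupport Φ) {f g : ℍ → ℂ}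
    (hf : Continuous f) (hg : Continuous g) (z : ℍ) :
    kerOp Φ (fun w => f w + g w) z = kerOp Φ f z + kerOp Φ g z := by
  unfold kerOp
  rw [← integral_add (integrable_ker_mul hΦ hc z hf) (integrable_ker_mul hΦ hc z hg)]
  congr 1
  funext w
  ring

lemma kerOp_const_mul (Φ : ℝ → ℝ) (c : ℂ) (f : ℍ → ℂ) (z : ℍ) :
    kerOp Φ (fun w => c * f w) z = c * kerOp Φ f z := by
  unfold kerOp
  rw [← integral_const_mul]
  congr 1
  funext w
  ring

lemma kerB_mem (Φ : ℝ → ℝ) (hΦ : ContDiff ℝ ∞ Φ) (hc : HasCompactSupport Φ)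
    {f : ℍ →ᵇ ℂ} (hf : f ∈ OddInv) : kerB Φ hΦ hc f ∈ OddInv := by
  obtain ⟨h1, h2⟩ := hf
  refine ⟨fun γ z => ?_, fun z => ?_⟩
  · change kerOp Φ f ((γ : GL (Fin 2) ℝ) • z) = kerOp Φ f z
    rw [kerOp_smul]
    congr 1
    funext w
    exact h1 γ w
  · change kerOp Φ f (J • z) = -kerOp Φ f z
    rw [kerOp_smul]
    have : (fun w : ℍ => f (J • w)) = fun w => (-1 : ℂ) * f w := by
      funext w; rw [h2 w]; ring
    rw [this, kerOp_const_mul]
    ring

/-- the operator as a continuous linear map on `OddInv` -/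
noncomputable def kerL (Φ : ℝ → ℝ) (hΦ : ContDiff ℝ ∞ Φ) (hc : HasCompactSupport Φ) :
    OddInv →L[ℂ] OddInv :=
  LinearMap.mkContinuous
    { toFun := fun f => ⟨kerB Φ hΦ hc f, kerB_mem Φ hΦ hc f.2⟩
      map_add' := fun f g => by
        apply Subtype.ext
        ext z
        exact kerOp_add hΦ.continuous hc f.1.continuous g.1.continuous z
      map_smul' := fun c f => by
        apply Subtype.ext
        ext z
        exact kerOp_const_mul Φ c f.1 z }
    (kmass Φ) (fun f => kerB_norm_le Φ hΦ hc f.1)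

@[simp] lemma kerL_apply (Φ : ℝ → ℝ) (hΦ : ContDiff ℝ ∞ Φ) (hc : HasCompactSupport Φ)
    (f : OddInv) (z : ℍ) : (kerL Φ hΦ hc f : ℍ →ᵇ ℂ) z = kerOp Φ (f : ℍ →ᵇ ℂ) z := rfl

lemma kerL_comm (Φ : ℝ → ℝ) (hΦ : ContDiff ℝ ∞ Φ) (hc : HasCompactSupport Φ)
    (Ψ : ℝ → ℝ) (hΨ : ContDiff ℝ ∞ Ψ) (hc' : HasCompactSupport Ψ) (f : OddInv) :
    kerL Φ hΦ hc (kerL Ψ hΨ hc' f) = kerL Ψ hΨ hc' (kerL Φ hΦ hc f) := by
  apply Subtype.ext
  ext z
  exact kerOp_comm hΦ.continuous hc hΨ.continuous hc' f.1.continuous z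

end Pool.Agent.W384
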