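import Pool.Agent.W384.Twist
import Pool.Agent.W503.MellinVanish
import Pool.Agent.W634.S384.Euler

set_option autoImplicit false

open UpperHalfPlane MeasureTheory Filter Topology Function
open scoped MatrixGroups ContDiff

namespace Pool.Agent.W384
namespace HeckeMaassCuspForm

variable (F : HeckeMaassCuspForm) {N : ℕ} (χ : DirichletCharacter ℂ N)

/-- the Dirichlet series of the twist -/
noncomputable def D (hF : F.IsOdd) (s : ℂ) : ℂ := ∑' n : ℕ, F.l hF n * χ n * (n : ℂ) ^ (-s)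

lemma D_summable (hF : F.IsOdd) {s : ℂ} (hs : 3 / 2 < s.re) :
    Summable (fun n : ℕ => ‖F.l hF n * χ n * (n : ℂ) ^ (-s)‖) :=
  (Pool.Agent.W634.S384.euler_product F.heckeEigenvalue (F.l hF) (F.l_zero hF) (F.l_one hF)
    (F.l_rec hF) _ (F.norm_l_le hF) χ s hs).1

lemma D_hasProd (hF : F.IsOdd) {s : ℂ} (hs : 3 / 2 < s.re) :
    HasProd (fun p : Nat.Primes =>
      (1 - F.heckeEigenvalue p * χ p * (p : ℂ) ^ (-s) + (χ p) ^ 2 * (p : ℂ) ^ (-2 * s))⁻¹)
      (F.D χ hF s) :=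
  (Pool.Agent.W634.S384.euler_product F.heckeEigenvalue (F.l hF) (F.l_zero hF) (F.l_one hF)
    (F.l_rec hF) _ (F.norm_l_le hF) χ s hs).2

lemma term_eq (hF : F.IsOdd) (s : ℂ) (n : ℕ) :
    LSeries.term (fun n : ℕ => F.l hF n * χ n) s n = F.l hF n * χ n * (n : ℂ) ^ (-s) := by
  unfold LSeries.term
  split_ifs with h
  · rw [h, F.l_zero hF]; ring
  · rw [Complex.cpow_neg]; rfl

lemma D_eq_LSeries (hF : F.IsOdd) (s : ℂ) : F.D χ hF s = LSeries (fun n : ℕ => F.l hF n * χ n) s := by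
  unfold D LSeries
  exact tsum_congr fun n => (F.term_eq χ hF s n).symm

lemma abscissa_le (hF : F.IsOdd) :
    LSeries.abscissaOfAbsConv (fun n : ℕ => F.l hF n * χ n) ≤ ((3 / 2 : ℝ) : EReal) := by
  refine LSeries.abscissaOfAbsConv_le_of_forall_lt_LSeriesSummable fun y hy => ?_
  unfold LSeriesSummable
  have := (F.D_summable χ hF (s := y) (by simpa using hy)).of_norm
  refine this.congr fun n => ?_
  exact (F.term_eq χ hF y n).symm

lemma D_analytic (hF : F.IsOdd) : AnalyticOnNhd ℂ (F.D χ hF) {s : ℂ | 3 / 2 < s.re} := by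
  have h1 : F.D χ hF = LSeries (fun n : ℕ => F.l hF n * χ n) := by
    funext s; exact F.D_eq_LSeries χ hF s
  rw [h1]
  refine (LSeries_analyticOnNhd _).mono fun s hs => ?_
  have hs' : (3 / 2 : ℝ) < s.re := hs
  change LSeries.abscissaOfAbsConv _ < (s.re : EReal)
  exact (F.abscissa_le χ hF).trans_lt (by exact_mod_cast hs')

lemma contOn_A (n : ℤ) : ContinuousOn (F.A n) (Set.Ioi 0) := by
  obtain ⟨W', h1, -⟩ := F.ode n
  intro y hy
  exact (h1 y hy).continuousAt.continuousWithinAt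

lemma mellin_A {s : ℂ} (hs : |F.kap.re| < s.re) :
    mellin (F.A 1) (s - 1 / 2) = F.cst * (1 / 4 * (Real.pi : ℂ) ^ (-s) *
      Complex.Gamma ((s + F.kap) / 2) * Complex.Gamma ((s - F.kap) / 2)) := by
  rw [← (Pool.Agent.W31.KB.whit_mellin F.kap s hs).2]
  have h1 : mellin (F.A 1) (s - 1 / 2) = mellin (fun t => F.cst • whit F.kap t) (s - 1 / 2) := by
    unfold mellin
    refine setIntegral_congr_fun measurableSet_Ioi fun t ht => ?_
    simp only
    rw [F.A_one_eq ht, smul_eq_mul (a := F.cst)]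
  rw [h1, mellin_const_smul, smul_eq_mul]

lemma norm_bb_le (hF : F.IsOdd) (e n : ℕ) (hn : 1 ≤ n) :
    ‖F.bb χ hF e n‖ ≤ F.M / ‖F.A 1 (F.t0 hF)‖ * (n : ℝ) ^ (e : ℝ) := by
  unfold bb
  have hnR : (0 : ℝ) < n := by exact_mod_cast hn
  have h4 : 0 < Real.sqrt n := Real.sqrt_pos.2 hnR
  rw [norm_mul, norm_pow, Complex.norm_natCast, norm_mul, norm_mul, norm_inv, Complex.norm_real,
    Real.norm_of_nonneg (Real.sqrt_nonneg _), Real.rpow_natCast, mul_comm]
  refine mul_le_mul_of_nonneg_right ?_ (by positivity)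
  rw [mul_inv_le_iff₀ h4]
  have h3 := F.norm_l_le hF n
  have h5 : ‖χ (n : ZMod N)‖ ≤ 1 := DirichletCharacter.norm_le_one χ _
  calc ‖χ (n : ZMod N)‖ * ‖F.l hF n‖ ≤ 1 * ‖F.l hF n‖ :=
        mul_le_mul_of_nonneg_right h5 (norm_nonneg _)
    _ ≤ _ := by rw [one_mul]; exact h3

lemma bb_dirichlet (hF : F.IsOdd) (e : ℕ) (s : ℂ) (n : ℕ) :
    F.bb χ hF e n * (n : ℂ) ^ (-(s - 1 / 2 + e)) = F.l hF n * χ n * (n : ℂ) ^ (-s) := by
  rcases Nat.eq_zero_or_pos n with rfl | hn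
  · rw [bb_zero, F.l_zero hF]; ring
  · have hnC : (n : ℂ) ≠ 0 := by exact_mod_cast hn.ne'
    have hnR : (0 : ℝ) < n := by exact_mod_cast hn
    unfold bb
    have h1 : (n : ℂ) ^ (-(s - 1 / 2 + e)) = (n : ℂ) ^ (-s) * (n : ℂ) ^ (1 / 2 : ℂ) *
        ((n : ℂ) ^ e)⁻¹ := by
      rw [show (-(s - 1 / 2 + e) : ℂ) = -s + 1 / 2 + (-(e : ℂ)) by ring, Complex.cpow_add _ _ hnC,
        Complex.cpow_add _ _ hnC, Complex.cpow_neg _ (e : ℂ), Complex.cpow_natCast]
    have h2 : (Real.sqrt n : ℂ) = (n : ℂ) ^ (1 / 2 : ℂ) := by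
      rw [Real.sqrt_eq_rpow, Complex.ofReal_cpow hnR.le]
      push_cast
      rfl
    have h3 : (Real.sqrt n : ℂ) ≠ 0 := by
      have := Real.sqrt_pos.mpr hnR
      exact_mod_cast this.ne'
    rw [h1, ← h2]
    have h4 : (n : ℂ) ^ e ≠ 0 := pow_ne_zero _ hnC
    field_simp

theorem exists_L [NeZero N] (hF : F.IsOdd) (hχ : χ.IsPrimitive) (hsq : χ ^ 2 = 1) :
    ∃ L : ℂ → ℂ, Differentiable ℂ L ∧ L (1 / 2) = 0 ∧ ∀ s : ℂ, 3 / 2 < s.re → L s = F.D χ hF s := by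
  obtain ⟨e, he⟩ : ∃ e : ℕ, (e = 0 ∧ χ (-1) = -1) ∨ (e = 1 ∧ χ (-1) = 1) := by
    rcases χ.even_or_odd with h | h
    · exact ⟨1, Or.inr ⟨rfl, h⟩⟩
    · exact ⟨0, Or.inl ⟨rfl, h⟩⟩
  have hN : (0 : ℝ) < N := by exact_mod_cast NeZero.pos N
  have hNC : (N : ℂ) ≠ 0 := by exact_mod_cast (NeZero.pos N).ne'
  obtain ⟨C₁, hC₁, hdec⟩ := F.A_one_decay
  have hM := F.M_nonneg
  have hA : 0 < ‖F.A 1 (F.t0 hF)‖ := norm_pos_iff.2 (F.A_t0 hF)
  have hK : 0 ≤ F.M / ‖F.A 1 (F.t0 hF)‖ := by positivity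
  set C := C₁ + F.M + F.M / ‖F.A 1 (F.t0 hF)‖ with hC
  obtain ⟨H, hH, hHfe, σ, hHσ⟩ := Pool.Agent.W503.MV.mellin_vanish (F.A 1) (F.contOn_A 1) C 0 e
    (fun t ht => (hdec t ht).trans (mul_le_mul_of_nonneg_right (by linarith) (Real.exp_pos _).le))
    (fun t ht _ => by
      rw [neg_zero, Real.rpow_zero, mul_one]
      exact (F.norm_A_le 1 t).trans (by linarith))
    (F.bb χ hF e) (F.bb_zero χ hF e)
    (fun n hn => (F.norm_bb_le χ hF e n hn).trans
      (mul_le_mul_of_nonneg_right (by linarith) (by positivity)))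
    N hN (2 * e) (F.hsum_fe χ hF hχ hsq e he)
  have hcst := F.cst_ne_zero hF
  have hpi : (Real.pi : ℂ) ≠ 0 := by exact_mod_cast Real.pi_ne_zero
  let L : ℂ → ℂ := fun s => H (s - 1 / 2 + e) * (N : ℂ) ^ (-(s - 1 / 2 + e)) *
    (4 / F.cst * (Real.pi : ℂ) ^ (s + e)) *
    ((Complex.Gamma ((s + e + F.kap) / 2))⁻¹ * (Complex.Gamma ((s + e - F.kap) / 2))⁻¹)
  have hL : Differentiable ℂ L := by
    have h1 : Differentiable ℂ (fun s : ℂ => H (s - 1 / 2 + e)) :=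
      hH.comp (by fun_prop)
    have h2 : Differentiable ℂ (fun s : ℂ => (N : ℂ) ^ (-(s - 1 / 2 + e))) := by
      intro s
      exact DifferentiableAt.const_cpow (by fun_prop) (Or.inl hNC)
    have h3 : Differentiable ℂ (fun s : ℂ => (4 / F.cst * (Real.pi : ℂ) ^ (s + e))) := by
      intro s
      exact (DifferentiableAt.const_cpow (by fun_prop) (Or.inl hpi)).const_mul _
    have h4 : Differentiable ℂ (fun s : ℂ => (Complex.Gamma ((s + e + F.kap) / 2))⁻¹) :=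
      Complex.differentiable_one_div_Gamma.comp (by fun_prop)
    have h5 : Differentiable ℂ (fun s : ℂ => (Complex.Gamma ((s + e - F.kap) / 2))⁻¹) :=
      Complex.differentiable_one_div_Gamma.comp (by fun_prop)
    exact ((h1.mul h2).mul h3).mul (h4.mul h5)
  have hL0 : L (1 / 2) = 0 := by
    have h1 := hHfe (1 / 2 - 1 / 2 + e)
    have h2 : (((2 * e : ℝ)) : ℂ) - (1 / 2 - 1 / 2 + e) = (1 / 2 - 1 / 2 + e) := by
      push_cast; ring
    rw [h2] at h1
    have h3 : H (1 / 2 - 1 / 2 + e) = 0 := by linear_combination h1 / 2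
    simp only [L]
    rw [h3]
    ring
  -- agreement far to the right
  have hfar : ∀ s : ℂ, σ + 1 < s.re → |F.kap.re| < s.re → L s = F.D χ hF s := by
    intro s hs1 hs2
    have heR : (0 : ℝ) ≤ e := Nat.cast_nonneg e
    have h1 := hHσ (s - 1 / 2 + e) (by
      have : (s - 1 / 2 + (e : ℂ)).re = s.re - 1 / 2 + e := by simp
      rw [this]; linarith)
    have h2 : mellin (F.A 1) (s - 1 / 2 + e) = F.cst * (1 / 4 * (Real.pi : ℂ) ^ (-(s + e)) *
      Complex.Gamma ((s + e + F.kap) / 2) * Complex.Gamma ((s + e - F.kap) / 2)) := by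
      have h3 : |F.kap.re| < (s + e : ℂ).re := by
        have : (s + (e : ℂ)).re = s.re + e := by simp
        rw [this]; linarith
      rw [← F.mellin_A h3]
      congr 1
      ring
    have h3 : ∑' n : ℕ, F.bb χ hF e n * (n : ℂ) ^ (-(s - 1 / 2 + e)) = F.D χ hF s :=
      tsum_congr fun n => F.bb_dirichlet χ hF e s n
    rw [h2, h3] at h1
    have hkap := abs_lt.1 hs2
    have hg1 : Complex.Gamma ((s + e + F.kap) / 2) ≠ 0 := by
      apply Complex.Gamma_ne_zero_of_re_pos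
      have : ((s + (e : ℂ) + F.kap) / 2).re = (s.re + e + F.kap.re) / 2 := by simp
      rw [this]; linarith
    have hg2 : Complex.Gamma ((s + e - F.kap) / 2) ≠ 0 := by
      apply Complex.Gamma_ne_zero_of_re_pos
      have : ((s + (e : ℂ) - F.kap) / 2).re = (s.re + e - F.kap.re) / 2 := by simp
      rw [this]; linarith
    simp only [L]
    rw [h1]
    rw [Complex.cpow_neg (N : ℂ), Complex.cpow_neg (Real.pi : ℂ)]
    simp only [Complex.ofReal_natCast]
    have hNp : (N : ℂ) ^ (s - 1 / 2 + e) ≠ 0 := by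
      rw [Complex.cpow_def_of_ne_zero hNC]; exact Complex.exp_ne_zero _
    have hPp : (Real.pi : ℂ) ^ (s + e) ≠ 0 := by
      rw [Complex.cpow_def_of_ne_zero hpi]; exact Complex.exp_ne_zero _
    generalize (N : ℂ) ^ (s - 1 / 2 + (e : ℂ)) = P at hNp ⊢
    generalize (Real.pi : ℂ) ^ (s + (e : ℂ)) = Q at hPp ⊢
    field_simp
  refine ⟨L, hL, hL0, ?_⟩
  have hLan : AnalyticOnNhd ℂ L {s : ℂ | 3 / 2 < s.re} := fun s _ => hL.analyticAt s
  have hpre : IsPreconnected {s : ℂ | 3 / 2 < s.re} := (convex_halfSpace_re_gt _).isPreconnected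
  set R : ℝ := |σ| + |F.kap.re| + 3 with hR
  have hR0 : (0 : ℝ) ≤ |σ| := abs_nonneg _
  have hR1 : (0 : ℝ) ≤ |F.kap.re| := abs_nonneg _
  have hR2 := le_abs_self σ
  have hmem : ((R : ℝ) : ℂ) ∈ {s : ℂ | 3 / 2 < s.re} := by
    change 3 / 2 < ((R : ℝ) : ℂ).re
    rw [Complex.ofReal_re]; linarith
  have hev : L =ᶠ[𝓝 ((R : ℝ) : ℂ)] F.D χ hF := by
    have hopen : IsOpen {s : ℂ | |σ| + |F.kap.re| + 2 < s.re} :=
      isOpen_lt continuous_const Complex.continuous_re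
    filter_upwards [hopen.mem_nhds (by
      change |σ| + |F.kap.re| + 2 < ((R : ℝ) : ℂ).re
      rw [Complex.ofReal_re]; linarith)] with s hs
    have hs' : |σ| + |F.kap.re| + 2 < s.re := hs
    exact hfar s (by linarith) (by linarith)
  intro s hs
  exact hLan.eqOn_of_preconnected_of_eventuallyEq (F.D_analytic χ hF) hpre hmem hev hs

end HeckeMaassCuspForm
end Pool.Agent.W384
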