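import Mathlib

set_option autoImplicit false

/-! Homomorphisms from a profinite group generated by involutions and one further element, with
many characters of order two on every open normal subgroup, to finite 2-groups. -/

namespace Pool.Agent.W384.MZT

open MulAction

/-- The two element group. -/
abbrev F2 : Type := Multiplicative (ZMod 2)

section Gam

variable (ι : Type)

/-- The relations `x_i ^ 2 = 1`. -/
def rels : Set (FreeGroup (Option ι)) :=
  Set.range fun i : ι => FreeGroup.of (some i) * FreeGroup.of (some i)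

/-- The free product of groups of order two and an infinite cyclic group. -/
abbrev Gam : Type := PresentedGroup (rels ι)

variable {ι}

/-- The involution generators. -/
def gc (i : ι) : Gam ι := PresentedGroup.of (some i)

/-- The free generator. -/
def gs : Gam ι := PresentedGroup.of none

theorem gc_mul_self (i : ι) : (gc i : Gam ι) * gc i = 1 := by
  have h : (QuotientGroup.mk (FreeGroup.of (some i) * FreeGroup.of (some i)) : Gam ι) = 1 :=
    PresentedGroup.one_of_mem ⟨i, rfl⟩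
  exact h

/-- Homomorphisms out of `Gam`. -/
def lift {G : Type*} [Group G] (t : ι → G) (u : G) (ht : ∀ i, t i * t i = 1) : Gam ι →* G :=
  PresentedGroup.toGroup (f := fun o : Option ι => o.elim u t) (by
    rintro r ⟨i, rfl⟩
    simp [ht])

@[simp] theorem lift_gc {G : Type*} [Group G] (t : ι → G) (u : G) (ht : ∀ i, t i * t i = 1)
    (i : ι) : lift t u ht (gc i) = t i := by
  simp [lift, gc]

@[simp] theorem lift_gs {G : Type*} [Group G] (t : ι → G) (u : G) (ht : ∀ i, t i * t i = 1) :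
    lift t u ht gs = u := by
  simp [lift, gs]

theorem closure_gens : Subgroup.closure (Set.range (gc : ι → Gam ι) ∪ {gs}) = ⊤ := by
  rw [eq_top_iff, ← PresentedGroup.closure_range_of (rels ι)]
  apply Subgroup.closure_mono
  rintro _ ⟨o, rfl⟩
  cases o with
  | none => right; rfl
  | some i => left; exact ⟨i, rfl⟩

end Gam

section Count

theorem F2_sq (x : F2) : x * x = 1 := by
  revert x; decide

theorem F2_eq_of_mul (x y : F2) (h : x * y = 1) : x = y := by
  revert x y; decide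

theorem F2_eq_iff (x y : F2) (h : x = 1 ↔ y = 1) : x = y := by
  revert x y; decide

variable {ι : Type} {P : Type*} [Group P]

theorem smul_eq_mk_mul (N : Subgroup P) [N.Normal] (p : P) (q : P ⧸ N) :
    p • q = (QuotientGroup.mk p : P ⧸ N) * q := by
  induction q using QuotientGroup.induction_on with
  | H z => rfl

section

variable (N : Subgroup P) [N.Normal] (φ : Gam ι →* P) (r : P ⧸ N → Gam ι)
    (hr : ∀ q, (QuotientGroup.mk (φ (r q)) : P ⧸ N) = q)

include hr in
theorem coc_mem (x : Gam ι) (q : P ⧸ N) : (r (φ x • q))⁻¹ * x * r q ∈ N.comap φ := by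
  rw [Subgroup.mem_comap, ← QuotientGroup.eq_one_iff]
  rw [map_mul, map_mul, map_inv, QuotientGroup.mk_mul, QuotientGroup.mk_mul,
    QuotientGroup.mk_inv, hr, hr, smul_eq_mk_mul, mul_assoc, inv_mul_cancel]

/-- The cocycle attached to a character. -/
noncomputable def coc (χ : N.comap φ →* F2) (x : Gam ι) (q : P ⧸ N) : F2 :=
  χ ⟨(r (φ x • q))⁻¹ * x * r q, coc_mem N φ r hr x q⟩

theorem coc_mul (χ : N.comap φ →* F2) (x y : Gam ι) (q : P ⧸ N) :
    coc N φ r hr χ (x * y) q = coc N φ r hr χ x (φ y • q) * coc N φ r hr χ y q := by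
  unfold coc
  rw [← map_mul]
  congr 1
  apply Subtype.ext
  change (r (φ (x * y) • q))⁻¹ * (x * y) * r q =
    ((r (φ x • φ y • q))⁻¹ * x * r (φ y • q)) * ((r (φ y • q))⁻¹ * y * r q)
  rw [map_mul, mul_smul]
  group

theorem coc_one_arg (χ : N.comap φ →* F2) (h1 : r 1 = 1) (x : Gam ι) (hx : x ∈ N.comap φ) :
    coc N φ r hr χ x 1 = χ ⟨x, hx⟩ := by
  unfold coc
  congr 1
  apply Subtype.ext
  have h2 : φ x • (1 : P ⧸ N) = 1 := by
    rw [smul_eq_mk_mul, mul_one]
    exact (QuotientGroup.eq_one_iff _).2 hx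
  change (r (φ x • (1 : P ⧸ N)))⁻¹ * x * r 1 = x
  rw [h2, h1]
  group

end

/-- The cocycle identity. -/
def IsCoc (N : Subgroup P) [N.Normal] (φ : Gam ι →* P) (f : Gam ι → P ⧸ N → F2) : Prop :=
  ∀ x y q, f (x * y) q = f x (φ y • q) * f y q

variable {N : Subgroup P} [N.Normal] {φ : Gam ι →* P}

theorem IsCoc.one {f : Gam ι → P ⧸ N → F2} (hf : IsCoc N φ f) (q : P ⧸ N) : f 1 q = 1 := by
  have h := hf 1 1 q
  rw [mul_one, map_one, one_smul] at h
  simpa using h

theorem IsCoc.inv {f : Gam ι → P ⧸ N → F2} (hf : IsCoc N φ f) (x : Gam ι) (q : P ⧸ N) :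
    f x⁻¹ q = f x ((φ x)⁻¹ • q) := by
  have h := hf x x⁻¹ q
  rw [mul_inv_cancel, hf.one, map_inv] at h
  exact (F2_eq_of_mul _ _ h.symm).symm

theorem IsCoc.ext {f f' : Gam ι → P ⧸ N → F2} (hf : IsCoc N φ f) (hf' : IsCoc N φ f')
    (h1 : ∀ i q, f (gc i) q = f' (gc i) q) (h2 : ∀ q, f gs q = f' gs q) : f = f' := by
  funext x
  have hx : x ∈ Subgroup.closure (Set.range (gc : ι → Gam ι) ∪ {gs}) := by
    rw [closure_gens]; trivial
  induction hx using Subgroup.closure_induction with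
  | mem x hx =>
    funext q
    rcases hx with ⟨i, rfl⟩ | hx
    · exact h1 i q
    · rw [Set.mem_singleton_iff] at hx
      subst hx
      exact h2 q
  | one => funext q; rw [hf.one, hf'.one]
  | mul x y _ _ ihx ihy => funext q; rw [hf, hf', ihx, ihy]
  | inv x _ ih => funext q; rw [hf.inv, hf'.inv, ih]

theorem IsCoc.inv_gc {f : Gam ι → P ⧸ N → F2} (hf : IsCoc N φ f) (i : ι) (q : P ⧸ N) :
    f (gc i) (φ (gc i) • q) = f (gc i) q := by
  have h := hf (gc i) (gc i) q
  rw [gc_mul_self, hf.one] at h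
  exact F2_eq_of_mul _ _ h.symm

theorem IsCoc.orbit {f : Gam ι → P ⧸ N → F2} (hf : IsCoc N φ f) (i : ι) (g : P)
    (hg : g ∈ Subgroup.zpowers (φ (gc i))) (q : P ⧸ N) : f (gc i) (g • q) = f (gc i) q := by
  let S : Subgroup P :=
    { carrier := {g | ∀ q : P ⧸ N, f (gc i) (g • q) = f (gc i) q}
      one_mem' := fun q => by rw [one_smul]
      mul_mem' := fun {a b} ha hb q => by rw [mul_smul, ha, hb]
      inv_mem' := fun {a} ha q => by rw [← ha (a⁻¹ • q), smul_inv_smul] }
  have h : Subgroup.zpowers (φ (gc i)) ≤ S := by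
    rw [Subgroup.zpowers_le]
    exact hf.inv_gc i
  exact h hg q

/-- The cocycle of a character and a function. -/
noncomputable def cob (N : Subgroup P) [N.Normal] (φ : Gam ι →* P) (r : P ⧸ N → Gam ι)
    (hr : ∀ q, (QuotientGroup.mk (φ (r q)) : P ⧸ N) = q)
    (z : (N.comap φ →* F2) × (P ⧸ N → F2)) (x : Gam ι) (q : P ⧸ N) : F2 :=
  coc N φ r hr z.1 x q * (z.2 (φ x • q) * z.2 q)

theorem cob_isCoc (r : P ⧸ N → Gam ι)
    (hr : ∀ q, (QuotientGroup.mk (φ (r q)) : P ⧸ N) = q)
    (z : (N.comap φ →* F2) × (P ⧸ N → F2)) : IsCoc N φ (cob N φ r hr z) := by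
  intro x y q
  unfold cob
  rw [coc_mul, map_mul, mul_smul]
  have h := F2_sq (z.2 (φ y • q))
  calc coc N φ r hr z.1 x (φ y • q) * coc N φ r hr z.1 y q * (z.2 (φ x • φ y • q) * z.2 q)
      = coc N φ r hr z.1 x (φ y • q) * coc N φ r hr z.1 y q * (z.2 (φ x • φ y • q) * z.2 q) *
        (z.2 (φ y • q) * z.2 (φ y • q)) := by rw [h, mul_one]
    _ = _ := by
      generalize coc N φ r hr z.1 x (φ y • q) = a1
      generalize coc N φ r hr z.1 y q = a2
      generalize z.2 (φ x • φ y • q) = a3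
      generalize z.2 (φ y • q) = a4
      generalize z.2 q = a5
      revert a1 a2 a3 a4 a5
      decide

/-- The orbits of `c i` on the quotient. -/
abbrev Orb (N : Subgroup P) (c : P) : Type _ :=
  orbitRel.Quotient (Subgroup.zpowers c) (P ⧸ N)

/-- **The count.**  A normal subgroup of finite index of a group generated by involutions `c i`
and one more element has at most `2 ^ (orbits + 1)` characters of order two. -/
theorem card_hom_le [Fintype ι] [Finite (P ⧸ N)]
    (hsurj : ∀ q : P ⧸ N, ∃ x, (QuotientGroup.mk (φ x) : P ⧸ N) = q) :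
    Finite (N.comap φ →* F2) ∧
    Nat.card (N.comap φ →* F2) ≤ 2 ^ ((∑ i : ι, Nat.card (Orb N (φ (gc i)))) + 1) := by
  classical
  choose r0 hr0 using hsurj
  let r : P ⧸ N → Gam ι := fun q => if q = 1 then 1 else r0 q
  have hr : ∀ q, (QuotientGroup.mk (φ (r q)) : P ⧸ N) = q := by
    intro q
    by_cases hq : q = 1
    · simp [r, hq]
    · simp [r, hq, hr0]
  have h1 : r 1 = 1 := by simp [r]
  have hfin : ∀ i : ι, Finite (Orb N (φ (gc i))) := fun i => inferInstance
  let Ψ : (N.comap φ →* F2) × (P ⧸ N → F2) →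
      ((i : ι) → Orb N (φ (gc i)) → F2) × (P ⧸ N → F2) × F2 := fun z =>
    (fun i ω => cob N φ r hr z (gc i) (Quotient.out ω), fun q => cob N φ r hr z gs q, z.2 1)
  have hinj : Function.Injective Ψ := by
    intro z z' h
    have ha : ∀ i (ω : Orb N (φ (gc i))), cob N φ r hr z (gc i) (Quotient.out ω) =
        cob N φ r hr z' (gc i) (Quotient.out ω) := fun i ω =>
      congrFun (congrFun (congrArg Prod.fst h) i) ω
    have hb : ∀ q, cob N φ r hr z gs q = cob N φ r hr z' gs q := fun q =>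
      congrFun (congrArg Prod.fst (congrArg Prod.snd h)) q
    have hc : z.2 1 = z'.2 1 := congrArg Prod.snd (congrArg Prod.snd h)
    have hz := cob_isCoc r hr z
    have hz' := cob_isCoc r hr z'
    have he : cob N φ r hr z = cob N φ r hr z' := by
      apply hz.ext hz' _ hb
      intro i q
      have hrel : (orbitRel (Subgroup.zpowers (φ (gc i))) (P ⧸ N))
          (Quotient.out (Quotient.mk (orbitRel (Subgroup.zpowers (φ (gc i))) (P ⧸ N)) q)) q :=
        Quotient.mk_out q
      rw [orbitRel_apply] at hrel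
      obtain ⟨g, hg⟩ := hrel
      have e1 := hz.orbit i g g.2 q
      have e2 := hz'.orbit i g g.2 q
      have hg' : (g : P) • q =
        Quotient.out (Quotient.mk (orbitRel (Subgroup.zpowers (φ (gc i))) (P ⧸ N)) q) := hg
      rw [hg'] at e1 e2
      rw [← e1, ← e2]
      exact ha i _
    have hχ : z.1 = z'.1 := by
      ext ⟨x, hx⟩
      have h2 : φ x • (1 : P ⧸ N) = 1 := by
        rw [smul_eq_mk_mul, mul_one]
        exact (QuotientGroup.eq_one_iff _).2 hx
      have e := congrFun (congrFun he x) 1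
      unfold cob at e
      rw [coc_one_arg N φ r hr z.1 h1 x hx, coc_one_arg N φ r hr z'.1 h1 x hx, h2, F2_sq, F2_sq,
        mul_one, mul_one] at e
      rw [e]
    have hb : z.2 = z'.2 := by
      funext q
      have e := congrFun (congrFun he (r q)) 1
      unfold cob at e
      rw [hχ] at e
      have h2 : φ (r q) • (1 : P ⧸ N) = q := by
        rw [smul_eq_mk_mul, mul_one, hr]
      rw [h2, hc] at e
      have e3 := mul_left_cancel e
      exact mul_right_cancel e3
    exact Prod.ext hχ hb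
  have hfinT : Finite (((i : ι) → Orb N (φ (gc i)) → F2) × (P ⧸ N → F2) × F2) := inferInstance
  have hfinS : Finite ((N.comap φ →* F2) × (P ⧸ N → F2)) := Finite.of_injective Ψ hinj
  have hfin1 : Finite (N.comap φ →* F2) := Finite.prod_left (P ⧸ N → F2)
  refine ⟨hfin1, ?_⟩
  have hcard := Nat.card_le_card_of_injective Ψ hinj
  have hF : Nat.card F2 = 2 := by
    rw [Nat.card_eq_fintype_card]; rfl
  have hfun : ∀ (α : Type _) [Finite α], Nat.card (α → F2) = 2 ^ Nat.card α := by
    intro α _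
    rw [Nat.card_fun, hF]
  have hprod : Nat.card ((i : ι) → Orb N (φ (gc i)) → F2) =
      2 ^ (∑ i : ι, Nat.card (Orb N (φ (gc i)))) := by
    rw [Nat.card_pi, ← Finset.prod_pow_eq_pow_sum]
    exact Finset.prod_congr rfl fun i _ => hfun _
  rw [Nat.card_prod, Nat.card_prod, Nat.card_prod, hprod, hfun (P ⧸ N), hF] at hcard
  have hpos : 0 < 2 ^ Nat.card (P ⧸ N) := by positivity
  rw [pow_succ]
  nlinarith [hcard, hpos]

end Count

section Lift

variable {ι : Type} {P : Type*} [Group P] [TopologicalSpace P]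

/-- Continuous characters on an open subgroup are determined by a dense subgroup. -/
theorem eq_of_dense {φ : Gam ι →* P} (hd : Dense (Set.range φ)) {N : Subgroup P}
    (hN : IsOpen (N : Set P)) (α β : N →* F2) (hα : Continuous α) (hβ : Continuous β)
    (h : ∀ x (hx : φ x ∈ N), α ⟨φ x, hx⟩ = β ⟨φ x, hx⟩) : α = β := by
  by_contra hne
  obtain ⟨n, hn⟩ : ∃ n, α n ≠ β n := by
    by_contra hcon
    push Not at hcon
    exact hne (MonoidHom.ext hcon)
  have ho : IsOpen {n : N | α n ≠ β n} := isOpen_ne_fun hα hβ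
  have ho' : IsOpen ((Subtype.val : N → P) '' {n : N | α n ≠ β n}) :=
    hN.isOpenMap_subtype_val _ ho
  obtain ⟨_, ⟨y, hy, hyx⟩, ⟨x, rfl⟩⟩ := hd.inter_open_nonempty _ ho' ⟨n.1, ⟨n, hn, rfl⟩⟩
  have hx : φ x ∈ N := hyx ▸ y.2
  apply hy
  have : y = ⟨φ x, hx⟩ := Subtype.ext hyx
  rw [this]
  exact h x hx

theorem surj_quot [IsTopologicalGroup P] {φ : Gam ι →* P} (hd : Dense (Set.range φ)) {N : Subgroup P}
    (hN : IsOpen (N : Set P)) (q : P ⧸ N) : ∃ x, (QuotientGroup.mk (φ x) : P ⧸ N) = q := by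
  obtain ⟨p, rfl⟩ := QuotientGroup.mk_surjective q
  have ho : IsOpen ((fun y : P => p⁻¹ * y) ⁻¹' (N : Set P)) :=
    hN.preimage (continuous_const.mul continuous_id)
  obtain ⟨_, hy, ⟨x, rfl⟩⟩ := hd.inter_open_nonempty _ ho ⟨p, by simp [N.one_mem]⟩
  refine ⟨x, ?_⟩
  symm
  rw [QuotientGroup.eq]
  exact hy

/-- Every character of the discrete group extends to a continuous character. -/
theorem exists_ext [Fintype ι] [IsTopologicalGroup P] {φ : Gam ι →* P} (hd : Dense (Set.range φ)) (N : Subgroup P) [N.Normal]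
    (hN : IsOpen (N : Set P)) [Finite (P ⧸ N)]
    (hcount : 2 ^ ((∑ i : ι, Nat.card (Orb N (φ (gc i)))) + 1) ≤ Nat.card (N →ₜ* F2))
    (χ : N.comap φ →* F2) :
    ∃ ψ : N →* F2, Continuous ψ ∧ ∀ x (hx : φ x ∈ N), ψ ⟨φ x, hx⟩ = χ ⟨x, hx⟩ := by
  obtain ⟨hfin, hle⟩ := card_hom_le (N := N) (φ := φ) (surj_quot hd hN)
  let res : (N →ₜ* F2) → (N.comap φ →* F2) := fun ψ =>
    ψ.toMonoidHom.comp ((φ.comp (N.comap φ).subtype).codRestrict N fun x => x.2)
  have hinj : Function.Injective res := by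
    intro α β h
    have h1 : α.toMonoidHom = β.toMonoidHom := by
      apply eq_of_dense hd hN _ _ α.continuous_toFun β.continuous_toFun
      intro x hx
      exact DFunLike.congr_fun h ⟨x, hx⟩
    exact ContinuousMonoidHom.ext fun x => DFunLike.congr_fun h1 x
  have hfin' : Finite (N →ₜ* F2) := Finite.of_injective res hinj
  have hcard : Nat.card (N.comap φ →* F2) ≤ Nat.card (N →ₜ* F2) := hle.trans hcount
  have hbij : Function.Bijective res :=
    (Nat.bijective_iff_injective_and_card res).2 ⟨hinj, le_antisymm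
      (Nat.card_le_card_of_injective res hinj) hcard⟩
  obtain ⟨ψ, hψ⟩ := hbij.2 χ
  refine ⟨ψ.toMonoidHom, ψ.continuous_toFun, fun x hx => ?_⟩
  rw [← hψ]
  rfl

/-- A normal subgroup of index two inside a normal subgroup as the kernel of a character. -/
theorem exists_char {Γ : Type*} [Group Γ] (K K' : Subgroup Γ) [K.Normal]
    (z : Γ ⧸ K) (hz1 : z ≠ 1) (hz2 : z * z = 1)
    (hK' : ∀ x, x ∈ K' ↔ (QuotientGroup.mk x : Γ ⧸ K) = 1 ∨ (QuotientGroup.mk x : Γ ⧸ K) = z) :
    ∃ χ : K' →* F2, ∀ x (hx : x ∈ K'), χ ⟨x, hx⟩ = 1 ↔ x ∈ K := by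
  classical
  let f : K' → F2 := fun x => if (QuotientGroup.mk x.1 : Γ ⧸ K) = 1 then 1 else Multiplicative.ofAdd 1
  have hf1 : ∀ x : K', (QuotientGroup.mk x.1 : Γ ⧸ K) = 1 → f x = 1 := fun x hx => if_pos hx
  have hfz : ∀ x : K', (QuotientGroup.mk x.1 : Γ ⧸ K) = z → f x = Multiplicative.ofAdd 1 :=
    fun x hx => if_neg (by rw [hx]; exact hz1)
  have hne : (Multiplicative.ofAdd (1 : ZMod 2) : F2) ≠ 1 := by decide
  have hsq : (Multiplicative.ofAdd (1 : ZMod 2) : F2) * Multiplicative.ofAdd 1 = 1 := by decide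
  refine ⟨MonoidHom.mk' f ?_, ?_⟩
  · intro x y
    have hm : (QuotientGroup.mk (x * y).1 : Γ ⧸ K) =
        (QuotientGroup.mk x.1 : Γ ⧸ K) * QuotientGroup.mk y.1 := rfl
    rcases (hK' x.1).1 x.2 with hx | hx <;> rcases (hK' y.1).1 y.2 with hy | hy
    · rw [hf1 x hx, hf1 y hy, hf1 (x * y) (by rw [hm, hx, hy, mul_one]), mul_one]
    · rw [hf1 x hx, hfz y hy, hfz (x * y) (by rw [hm, hx, hy, one_mul]), one_mul]
    · rw [hfz x hx, hf1 y hy, hfz (x * y) (by rw [hm, hx, hy, mul_one]), mul_one]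
    · rw [hfz x hx, hfz y hy, hf1 (x * y) (by rw [hm, hx, hy, hz2]), hsq]
  · intro x hx
    change f ⟨x, hx⟩ = 1 ↔ _
    rw [← QuotientGroup.eq_one_iff (N := K)]
    constructor
    · intro h
      rcases (hK' x).1 hx with h1 | h1
      · exact h1
      · rw [hfz ⟨x, hx⟩ h1] at h
        exact absurd h hne
    · intro h
      exact hf1 ⟨x, hx⟩ h

/-- Every normal subgroup of 2-power index of the discrete group comes from an open normal
subgroup. -/
theorem exists_open [Fintype ι] [IsTopologicalGroup P] [CompactSpace P]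
    {φ : Gam ι →* P} (hd : Dense (Set.range φ))
    (hcount : ∀ (N : Subgroup P) [N.Normal], IsOpen (N : Set P) →
      2 ^ ((∑ i : ι, Nat.card (Orb N (φ (gc i)))) + 1) ≤ Nat.card (N →ₜ* F2)) :
    ∀ (n : ℕ) (K : Subgroup (Gam ι)) [K.Normal] [Finite (Gam ι ⧸ K)], IsPGroup 2 (Gam ι ⧸ K) →
      Nat.card (Gam ι ⧸ K) = n →
      ∃ N : Subgroup P, N.Normal ∧ IsOpen (N : Set P) ∧ N.comap φ = K := by
  intro n
  induction n using Nat.strong_induction_on with
  | _ n ih =>
  intro K _ _ hp hn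
  by_cases htop : K = ⊤
  · refine ⟨⊤, inferInstance, by simp, ?_⟩
    rw [htop, Subgroup.comap_top]
  have hnt : Nontrivial (Gam ι ⧸ K) := by
    rw [← not_subsingleton_iff_nontrivial]
    intro hs
    apply htop
    rw [eq_top_iff]
    intro x _
    rw [← QuotientGroup.eq_one_iff (N := K)]
    exact Subsingleton.elim _ _
  have : Fact (Nat.Prime 2) := ⟨Nat.prime_two⟩
  have hcn := hp.center_nontrivial
  obtain ⟨z, hz⟩ : ∃ z : Subgroup.center (Gam ι ⧸ K), orderOf z = 2 := by
    have : Fintype (Subgroup.center (Gam ι ⧸ K)) := Fintype.ofFinite _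
    apply exists_prime_orderOf_dvd_card 2
    rw [← Nat.card_eq_fintype_card]
    have hpc : IsPGroup 2 (Subgroup.center (Gam ι ⧸ K)) := hp.to_subgroup _
    obtain ⟨k, hk⟩ := IsPGroup.iff_card.1 hpc
    rw [hk]
    have hk0 : k ≠ 0 := by
      rintro rfl
      rw [pow_zero] at hk
      exact absurd hk (Finite.one_lt_card (α := Subgroup.center (Gam ι ⧸ K))).ne'
    exact dvd_pow_self 2 hk0
  have hz1 : (z : Gam ι ⧸ K) ≠ 1 := by
    intro h
    have : z = 1 := Subtype.ext h
    rw [this, orderOf_one] at hz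
    exact absurd hz (by norm_num)
  have hz2 : (z : Gam ι ⧸ K) * z = 1 := by
    have h := pow_orderOf_eq_one z
    rw [hz, pow_two] at h
    exact congrArg Subtype.val h
  have hcomm : ∀ x : Gam ι ⧸ K, x * z = z * x := fun x =>
    (Subgroup.mem_center_iff.1 z.2 x)
  -- the subgroup generated by z
  let Z : Subgroup (Gam ι ⧸ K) :=
    { carrier := {x | x = 1 ∨ x = z}
      one_mem' := Or.inl rfl
      mul_mem' := by
        rintro a b (rfl | rfl) (rfl | rfl)
        · left; exact mul_one _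
        · right; exact one_mul _
        · right; exact mul_one _
        · left; exact hz2
      inv_mem' := by
        rintro a (rfl | rfl)
        · left; exact inv_one
        · right; exact (eq_inv_of_mul_eq_one_left hz2).symm }
  have hZn : Z.Normal := by
    constructor
    rintro a (rfl | rfl) g
    · left; group
    · right
      rw [hcomm, mul_inv_cancel_right]
  let K' : Subgroup (Gam ι) := Z.comap (QuotientGroup.mk' K)
  have hK'n : K'.Normal := hZn.comap _
  have hmem : ∀ x, x ∈ K' ↔ (QuotientGroup.mk x : Gam ι ⧸ K) = 1 ∨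
      (QuotientGroup.mk x : Gam ι ⧸ K) = z := fun x => Iff.rfl
  have hKK' : K ≤ K' := by
    intro x hx
    rw [hmem]
    left
    exact (QuotientGroup.eq_one_iff x).2 hx
  let π : Gam ι ⧸ K →* Gam ι ⧸ K' := QuotientGroup.map K K' (MonoidHom.id _) hKK'
  have hπ : Function.Surjective π := by
    intro y
    obtain ⟨x, rfl⟩ := QuotientGroup.mk_surjective y
    exact ⟨QuotientGroup.mk x, rfl⟩
  have hfin' : Finite (Gam ι ⧸ K') := Finite.of_surjective π hπ
  have hp' : IsPGroup 2 (Gam ι ⧸ K') := hp.of_surjective π hπ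
  have hlt : Nat.card (Gam ι ⧸ K') < n := by
    rw [← hn]
    refine lt_of_le_of_ne (Nat.card_le_card_of_surjective π hπ) ?_
    intro heq
    have hb := (Nat.bijective_iff_surjective_and_card π).2 ⟨hπ, heq.symm⟩
    obtain ⟨x, hx⟩ := QuotientGroup.mk_surjective (z : Gam ι ⧸ K)
    have hx' : x ∈ K' := (hmem x).2 (Or.inr hx)
    have h1 : π z = π 1 := by
      rw [map_one, ← hx]
      exact (QuotientGroup.eq_one_iff x).2 hx'
    exact hz1 (hb.1 h1)
  obtain ⟨N', hN'n, hN'o, hN'K⟩ := ih _ hlt K' hp' rfl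
  obtain ⟨χ, hχ⟩ := exists_char K K' z hz1 hz2 hmem
  have hNfin : Finite (P ⧸ N') := Subgroup.quotient_finite_of_isOpen N' hN'o
  let χ' : N'.comap φ →* F2 := χ.comp (Subgroup.inclusion hN'K.le)
  have hχ' : ∀ x (hx : x ∈ N'.comap φ), χ' ⟨x, hx⟩ = 1 ↔ x ∈ K := fun x hx => hχ x _
  obtain ⟨ψ, hψc, hψ⟩ := exists_ext hd N' hN'o (hcount N' hN'o) χ'
  have hm : ∀ p : P, p ∈ ψ.ker.map N'.subtype ↔ ∃ h : p ∈ N', ψ ⟨p, h⟩ = 1 := by
    intro p
    rw [Subgroup.mem_map]
    constructor
    · rintro ⟨y, hy, rfl⟩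
      exact ⟨y.2, hy⟩
    · rintro ⟨h, h1⟩
      exact ⟨⟨p, h⟩, h1, rfl⟩
  have hconj : ∀ (x : Gam ι) (m : P) (hm : m ∈ N') (hm' : φ x * m * (φ x)⁻¹ ∈ N'),
      ψ ⟨φ x * m * (φ x)⁻¹, hm'⟩ = ψ ⟨m, hm⟩ := by
    intro x m hm hm'
    let cj : N' →* N' := MonoidHom.mk' (fun n => ⟨φ x * n.1 * (φ x)⁻¹, hN'n.conj_mem _ n.2 _⟩) (by
      intro a b
      apply Subtype.ext
      change φ x * (a.1 * b.1) * (φ x)⁻¹ = (φ x * a.1 * (φ x)⁻¹) * (φ x * b.1 * (φ x)⁻¹)
      group)
    have hcj : Continuous cj := by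
      apply Continuous.subtype_mk
      exact (continuous_const.mul continuous_subtype_val).mul continuous_const
    have h := eq_of_dense hd hN'o (ψ.comp cj) ψ (hψc.comp hcj) hψc (by
      intro y hy
      have hy' : φ (x * y * x⁻¹) ∈ N' := by
        rw [map_mul, map_mul, map_inv]
        exact hN'n.conj_mem _ hy _
      have e1 : cj ⟨φ y, hy⟩ = ⟨φ (x * y * x⁻¹), hy'⟩ := by
        apply Subtype.ext
        change φ x * φ y * (φ x)⁻¹ = φ (x * y * x⁻¹)
        rw [map_mul, map_mul, map_inv]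
      rw [MonoidHom.comp_apply, e1, hψ, hψ]
      apply F2_eq_iff
      refine (hχ' _ hy').trans (Iff.trans ?_ (hχ' _ hy).symm)
      constructor
      · intro h
        have := Subgroup.Normal.conj_mem inferInstance _ h x⁻¹
        simpa [mul_assoc] using this
      · intro h
        exact Subgroup.Normal.conj_mem inferInstance _ h x)
    exact DFunLike.congr_fun h ⟨m, hm⟩
  refine ⟨ψ.ker.map N'.subtype, ⟨?_⟩, ?_, ?_⟩
  · intro n hn p
    obtain ⟨hn1, hn2⟩ := (hm n).1 hn
    rw [hm]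
    have hpn : p * n * p⁻¹ ∈ N' := hN'n.conj_mem _ hn1 _
    refine ⟨hpn, ?_⟩
    obtain ⟨x, hx⟩ := surj_quot hd hN'o (QuotientGroup.mk p)
    rw [QuotientGroup.eq] at hx
    set n0 : P := (φ x)⁻¹ * p with hn0
    have hp0 : p = φ x * n0 := by rw [hn0]; group
    have h1 : n0 * n * n0⁻¹ ∈ N' := hN'n.conj_mem _ hn1 _
    have h2 : φ x * (n0 * n * n0⁻¹) * (φ x)⁻¹ ∈ N' := hN'n.conj_mem _ h1 _
    have e1 : (⟨p * n * p⁻¹, hpn⟩ : N') = ⟨φ x * (n0 * n * n0⁻¹) * (φ x)⁻¹, h2⟩ := by
      apply Subtype.ext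
      change p * n * p⁻¹ = _
      rw [hp0]
      group
    rw [e1, hconj x _ h1 h2]
    have e2 : (⟨n0 * n * n0⁻¹, h1⟩ : N') = ⟨n0, hx⟩ * ⟨n, hn1⟩ * ⟨n0, hx⟩⁻¹ := rfl
    rw [e2, map_mul, map_mul, hn2, mul_one, map_inv, mul_inv_cancel]
  · have ho : IsOpen {n : N' | ψ n = 1} := (isOpen_discrete ({1} : Set F2)).preimage hψc
    have := hN'o.isOpenMap_subtype_val _ ho
    convert this using 1
    ext p
    rw [SetLike.mem_coe, hm]
    constructor
    · rintro ⟨h, h1⟩
      exact ⟨⟨p, h⟩, h1, rfl⟩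
    · rintro ⟨y, hy, rfl⟩
      exact ⟨y.2, hy⟩
  · ext x
    rw [Subgroup.mem_comap, hm]
    constructor
    · rintro ⟨h, h1⟩
      rw [hψ x h] at h1
      exact (hχ' x h).1 h1
    · intro hx
      have h : x ∈ N'.comap φ := hN'K ▸ hKK' hx
      refine ⟨h, ?_⟩
      rw [hψ x h]
      exact (hχ' x h).2 hx

/-- **Theorem T.**  A compact group topologically generated by involutions `c i` and one more
element `σ`, in which every open normal subgroup has enough characters of order two, has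
continuous homomorphisms to finite 2-groups with prescribed values on the generators. -/
theorem main [Fintype ι] [IsTopologicalGroup P] [CompactSpace P]
    (c : ι → P) (σ : P) (hc : ∀ i, c i * c i = 1)
    (hgen : (Subgroup.closure (Set.range c ∪ {σ})).topologicalClosure = ⊤)
    (hcount : ∀ (N : Subgroup P) [N.Normal], IsOpen (N : Set P) →
      2 ^ ((∑ i : ι, Nat.card (Orb N (c i))) + 1) ≤ Nat.card (N →ₜ* F2))
    {H : Type*} [Group H] [Finite H] (hH : IsPGroup 2 H) (t : ι → H) (u : H)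
    (ht : ∀ i, t i * t i = 1) :
    ∃ f : P →* H, IsOpen (f.ker : Set P) ∧ (∀ i, f (c i) = t i) ∧ f σ = u := by
  let φ : Gam ι →* P := lift c σ hc
  have hd : Dense (Set.range φ) := by
    have h1 : Subgroup.closure (Set.range c ∪ {σ}) ≤ φ.range := by
      rw [Subgroup.closure_le]
      rintro _ (⟨i, rfl⟩ | hx)
      · exact ⟨gc i, lift_gc c σ hc i⟩
      · rw [Set.mem_singleton_iff] at hx
        rw [hx]
        exact ⟨gs, lift_gs c σ hc⟩
    have h2 : (⊤ : Subgroup P) ≤ φ.range.topologicalClosure := by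
      rw [← hgen]
      exact Subgroup.topologicalClosure_mono h1
    intro p
    exact h2 (Subgroup.mem_top p)
  let ψ : Gam ι →* H := lift t u ht
  have hcount' : ∀ (N : Subgroup P) [N.Normal], IsOpen (N : Set P) →
      2 ^ ((∑ i : ι, Nat.card (Orb N (φ (gc i)))) + 1) ≤ Nat.card (N →ₜ* F2) := by
    intro N _ hN
    have := hcount N hN
    simpa only [φ, lift_gc] using this
  have hfinK : Finite (Gam ι ⧸ ψ.ker) :=
    Finite.of_injective _ (QuotientGroup.kerLift_injective ψ)
  have hpK : IsPGroup 2 (Gam ι ⧸ ψ.ker) :=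
    hH.of_injective _ (QuotientGroup.kerLift_injective ψ)
  obtain ⟨N, hNn, hNo, hNK⟩ := exists_open hd hcount' _ ψ.ker hpK rfl
  -- the map `P → P / N ≃ Gam / ker ψ → H`
  let a : Gam ι →* P ⧸ N := (QuotientGroup.mk' N).comp φ
  have ha : Function.Surjective a := surj_quot hd hNo
  have hker : a.ker ≤ ψ.ker := by
    intro x hx
    rw [← hNK]
    exact (QuotientGroup.eq_one_iff (N := N) _).1 hx
  let f : P →* H := (a.liftOfSurjective ha ⟨ψ, hker⟩).comp (QuotientGroup.mk' N)
  have hf : ∀ x, f (φ x) = ψ x := fun x => by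
    have := a.liftOfRightInverse_comp_apply (Function.surjInv ha) (Function.rightInverse_surjInv ha)
      ⟨ψ, hker⟩ x
    exact this
  refine ⟨f, ?_, ?_, ?_⟩
  · apply Subgroup.isOpen_mono (H₁ := N) _ hNo
    intro n hn
    rw [MonoidHom.mem_ker]
    change (a.liftOfSurjective ha ⟨ψ, hker⟩) (QuotientGroup.mk' N n) = 1
    have : (QuotientGroup.mk' N n) = 1 := (QuotientGroup.eq_one_iff n).2 hn
    rw [this, map_one]
  · intro i
    have := hf (gc i)
    simpa only [φ, ψ, lift_gc] using this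
  · have := hf gs
    simpa only [φ, ψ, lift_gs] using this

end Lift

end Pool.Agent.W384.MZT
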