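import Pool.Agent.W384.MZT
import Pool.Agent.W566.MZ.Stmts

set_option autoImplicit false

/-! PART T of MP_aa8fd2_nt. -/

namespace Pool.Agent.W384.MZTF

open MulAction Pool.Agent.W384.MZT

section

variable {P : Type} [Group P]

/-- The number of orbits of an involution on a quotient. -/
theorem card_orb_le (N : Subgroup P) [N.Normal] [Finite (P ⧸ N)] (c : P) :
    Nat.card (Orb N c) ≤ MZ.orb N c := by
  classical
  unfold MZ.orb
  by_cases h : c ∈ N
  · rw [if_pos h]
    exact Nat.card_le_card_of_surjective _ (Quotient.mk_surjective)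
  · rw [if_neg h]
    have hfin : Finite (Orb N c) := inferInstance
    rw [Nat.le_div_iff_mul_le (by norm_num)]
    let g : Orb N c × Bool → P ⧸ N := fun z => if z.2 then c • Quotient.out z.1 else Quotient.out z.1
    have hg0 : ∀ ω, g (ω, false) = Quotient.out ω := fun ω => by simp [g]
    have hg1 : ∀ ω, g (ω, true) = c • Quotient.out ω := fun ω => by simp [g]
    have hmk : ∀ z : Orb N c × Bool, (Quotient.mk _ (g z) : Orb N c) = z.1 := by
      rintro ⟨ω, b⟩
      cases b with
      | false => rw [hg0]; exact Quotient.out_eq ω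
      | true =>
        rw [hg1]
        have h1 : (Quotient.mk _ (c • Quotient.out ω) : Orb N c) = Quotient.mk _ (Quotient.out ω) := by
          apply Quotient.sound
          change orbitRel (Subgroup.zpowers c) (P ⧸ N) _ _
          rw [orbitRel_apply]
          exact ⟨⟨c, Subgroup.mem_zpowers c⟩, rfl⟩
        rw [h1]
        exact Quotient.out_eq ω
    have hne : ∀ q : P ⧸ N, c • q ≠ q := by
      intro q hq
      rw [smul_eq_mk_mul] at hq
      apply h
      rw [← QuotientGroup.eq_one_iff]
      exact mul_eq_right.1 hq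
    have hinj : Function.Injective g := by
      rintro ⟨ω, b⟩ ⟨ω', b'⟩ he
      have h1 : ω = ω' := by
        have := congrArg (fun q => (Quotient.mk _ q : Orb N c)) he
        simp only [hmk] at this
        exact this
      subst h1
      cases b <;> cases b'
      · rfl
      · rw [hg0, hg1] at he
        exact absurd he.symm (hne _)
      · rw [hg0, hg1] at he
        exact absurd he (hne _)
      · rfl
    have := Nat.card_le_card_of_injective g hinj
    rw [Nat.card_prod] at this
    simpa using this

end

section

variable {P : Type} [Group P] [TopologicalSpace P] [IsTopologicalGroup P]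

theorem continuous_of_ker {N : Type} [Group N] [TopologicalSpace N] [IsTopologicalGroup N]
    (χ : N →* F2) (h : IsOpen (χ.ker : Set N)) : Continuous χ := by
  apply continuous_of_continuousAt_one
  rw [ContinuousAt, map_one, nhds_discrete F2]
  refine Filter.tendsto_pure.2 ?_
  exact Filter.mem_of_superset (h.mem_nhds χ.ker.one_mem) fun x hx => hx

theorem numHom2_eq (N : Subgroup P) : MZ.numHom2 N = Nat.card (N →ₜ* F2) := by
  unfold MZ.numHom2
  refine Nat.card_congr
    { toFun := fun χ => ⟨χ.1, continuous_of_ker χ.1 χ.2⟩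
      invFun := fun χ => ⟨χ.toMonoidHom, ?_⟩
      left_inv := fun χ => rfl
      right_inv := fun χ => rfl }
  exact (isOpen_discrete ({1} : Set F2)).preimage χ.continuous_toFun

theorem topGen_closure [CompactSpace P] [TotallyDisconnectedSpace P] {ι : Type} (c : ι → P) (σ : P)
    (h : MZ.TopGen c σ) : (Subgroup.closure (Set.range c ∪ {σ})).topologicalClosure = ⊤ := by
  rw [eq_top_iff]
  intro p _
  change p ∈ closure ((Subgroup.closure (Set.range c ∪ {σ}) : Subgroup P) : Set P)
  rw [mem_closure_iff]
  intro U hU hp
  obtain ⟨V, hV⟩ := ProfiniteGrp.exist_openNormalSubgroup_sub_open_nhds_of_one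
    (U := (fun y => p * y) ⁻¹' U) (hU.preimage (continuous_const.mul continuous_id))
    (by simpa using hp)
  have hVn : (V.toSubgroup).Normal := V.isNormal'
  have htop : Subgroup.closure (Set.range c ∪ {σ}) ⊔ V.toSubgroup = ⊤ := by
    apply h
    · exact Subgroup.isOpen_mono le_sup_right V.isOpen'
    · intro i
      exact Subgroup.mem_sup_left (Subgroup.subset_closure (Or.inl ⟨i, rfl⟩))
    · exact Subgroup.mem_sup_left (Subgroup.subset_closure (Or.inr rfl))
  have hpm : p ∈ Subgroup.closure (Set.range c ∪ {σ}) ⊔ V.toSubgroup := htop ▸ Subgroup.mem_top p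
  rw [← SetLike.mem_coe, Subgroup.mul_normal] at hpm
  obtain ⟨x, hx, v, hv, rfl⟩ := hpm
  refine ⟨x, ?_, hx⟩
  have : v⁻¹ ∈ V.toSubgroup := V.toSubgroup.inv_mem hv
  have h2 := hV this
  simpa using h2

end

theorem stmT : MZ.StmT := by
  intro P _ _ _ _ _ hpro ι _ c σ hc hgen hcount H _ _ hH t u ht
  have hHp : IsPGroup 2 H := by
    obtain ⟨e, he⟩ := hH
    exact IsPGroup.of_card he
  refine main c σ hc (topGen_closure c σ hgen) ?_ hHp t u ht
  intro N hN hNo
  have hfin : Finite (P ⧸ N) := Subgroup.quotient_finite_of_isOpen N hNo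
  have h := hcount N hN hNo
  rw [numHom2_eq] at h
  refine le_trans (Nat.pow_le_pow_right (by norm_num) ?_) h
  apply Nat.succ_le_succ
  exact Finset.sum_le_sum fun i _ => card_orb_le N (c i)

end Pool.Agent.W384.MZTF
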