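import Pool.Agent.W384.Hecke

set_option autoImplicit false

open UpperHalfPlane MeasureTheory Filter Topology
open scoped MatrixGroups BoundedContinuousFunction ContDiff Pointwise Modular

namespace Pool.Agent.W384

instance instOpenPosH : (volume : Measure ℍ).IsOpenPosMeasure := by
  refine ⟨fun U hU hne h0 => ?_⟩
  rw [volume_eq_lintegral] at h0
  have hU' : IsOpen (UpperHalfPlane.coe '' U) := isOpenEmbedding_coe.isOpenMap U hU
  rw [setLIntegral_eq_zero_iff hU'.measurableSet] at h0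
  · have h1 : ∀ᵐ z : ℂ, z ∉ UpperHalfPlane.coe '' U := by
      filter_upwards [h0] with z hz hmem
      have := hz hmem
      obtain ⟨τ, _, rfl⟩ := hmem
      have h2 := τ.im_pos
      have h3 : (1 / ‖(τ : ℂ).im‖₊) ^ 2 = 0 := by
        simpa using this
      have h4 : ‖(τ : ℂ).im‖₊ ≠ 0 := by
        simpa using h2.ne'
      exact (pow_ne_zero 2 (one_div_ne_zero h4)) h3
    have h2 : (volume : Measure ℂ) (UpperHalfPlane.coe '' U) = 0 := by
      rw [ae_iff] at h1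
      simp only [not_not] at h1
      exact h1
    exact (hU'.measure_pos volume (hne.image _)).ne' h2
  · fun_prop

lemma dist_gl (g : GL (Fin 2) ℝ) (z w : ℍ) : dist (g • z) (g • w) = dist z w := by
  have h1 : Real.cosh (dist (g • z) (g • w)) = Real.cosh (dist z w) := by
    rw [cosh_dist_eq, cosh_dist_eq, uu_smul]
  exact Real.cosh_strictMonoOn.injOn dist_nonneg dist_nonneg h1

lemma dist_sl (g : SL(2, ℤ)) (z w : ℍ) : dist (g • z) (g • w) = dist z w :=
  dist_gl (g : GL (Fin 2) ℝ) z w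

/-- the conjugate of an element of `SL(2,ℤ)` by `J` -/
def jconj (γ : SL(2, ℤ)) : SL(2, ℤ) :=
  ⟨!![γ 0 0, -γ 0 1; -γ 1 0, γ 1 1], by
    have := γ.det_coe
    rw [Matrix.det_fin_two] at this
    rw [Matrix.det_fin_two_of]; linarith⟩

lemma J_mul_sl (γ : SL(2, ℤ)) : J * (γ : GL (Fin 2) ℝ) = (jconj γ : GL (Fin 2) ℝ) * J := by
  have e00 : (jconj γ 0 0 : ℤ) = γ 0 0 := rfl
  have e01 : (jconj γ 0 1 : ℤ) = -γ 0 1 := rfl
  have e10 : (jconj γ 1 0 : ℤ) = -γ 1 0 := rfl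
  have e11 : (jconj γ 1 1 : ℤ) = γ 1 1 := rfl
  apply gl_ext <;> simp only [gl_mul, J00, J01, J10, J11, sl00, sl01, sl10, sl11, e00, e01, e10,
    e11]
  all_goals push_cast; ring

lemma J_smul_sl (γ : SL(2, ℤ)) (z : ℍ) : J • (γ • z) = jconj γ • (J • z) := by
  change J • ((γ : GL (Fin 2) ℝ) • z) = (jconj γ : GL (Fin 2) ℝ) • (J • z)
  rw [← mul_smul, J_mul_sl, mul_smul]

lemma J_J (z : ℍ) : J • J • z = z := by
  rw [← mul_smul, ← sq, J_sq, one_smul]

/-- distance to the orbit of `z₀` -/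
noncomputable def DD (z₀ z : ℍ) : ℝ := Metric.infDist z (MulAction.orbit SL(2, ℤ) z₀)

lemma DD_smul (z₀ z : ℍ) (γ : SL(2, ℤ)) : DD z₀ (γ • z) = DD z₀ z := by
  have key : ∀ (γ : SL(2, ℤ)) (z : ℍ), DD z₀ (γ • z) ≤ DD z₀ z := by
    intro γ z
    unfold DD
    refine le_of_forall_pos_le_add fun ε hε => ?_
    obtain ⟨w, hw, hlt⟩ := (Metric.infDist_lt_iff (MulAction.nonempty_orbit z₀)).1
      (lt_add_of_pos_right (Metric.infDist z (MulAction.orbit SL(2, ℤ) z₀)) hε)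
    have hw' : γ • w ∈ MulAction.orbit SL(2, ℤ) z₀ := by
      obtain ⟨g, rfl⟩ := hw
      exact ⟨γ * g, mul_smul γ g z₀⟩
    refine (Metric.infDist_le_dist_of_mem hw').trans ?_
    rw [dist_sl]
    exact hlt.le
  apply le_antisymm (key γ z)
  have := key γ⁻¹ (γ • z)
  rwa [inv_smul_smul] at this

lemma continuous_DD (z₀ : ℍ) : Continuous (DD z₀) := Metric.continuous_infDist_pt _

lemma DD_self (z₀ : ℍ) : DD z₀ z₀ = 0 := Metric.infDist_zero_of_mem (MulAction.mem_orbit_self z₀)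

lemma DD_nonneg (z₀ z : ℍ) : 0 ≤ DD z₀ z := Metric.infDist_nonneg

/-- an odd invariant function -/
noncomputable def f0 (z₀ z : ℍ) : ℝ := min (DD z₀ (J • z)) 1 - min (DD z₀ z) 1

lemma f0_abs_le (z₀ z : ℍ) : |f0 z₀ z| ≤ 1 := by
  unfold f0
  have h1 : 0 ≤ min (DD z₀ (J • z)) 1 := le_min (DD_nonneg _ _) zero_le_one
  have h2 : 0 ≤ min (DD z₀ z) 1 := le_min (DD_nonneg _ _) zero_le_one
  have h3 : min (DD z₀ (J • z)) 1 ≤ 1 := min_le_right _ _
  have h4 : min (DD z₀ z) 1 ≤ 1 := min_le_right _ _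
  rw [abs_le]; constructor <;> linarith

lemma continuous_f0 (z₀ : ℍ) : Continuous (f0 z₀) := by
  unfold f0
  exact (((continuous_DD z₀).comp (continuous_const_smul J)).min continuous_const).sub
    ((continuous_DD z₀).min continuous_const)

lemma f0_inv (z₀ z : ℍ) (γ : SL(2, ℤ)) : f0 z₀ (γ • z) = f0 z₀ z := by
  unfold f0
  rw [J_smul_sl, DD_smul, DD_smul]

lemma f0_odd (z₀ z : ℍ) : f0 z₀ (J • z) = - f0 z₀ z := by
  unfold f0
  rw [J_J]; ring

noncomputable def f0B (z₀ : ℍ) : OddInv :=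
  ⟨BoundedContinuousFunction.ofNormedAddCommGroup (fun z => ((f0 z₀ z : ℝ) : ℂ))
    (Complex.continuous_ofReal.comp (continuous_f0 z₀)) 1 (fun z => by
      rw [Complex.norm_real]; exact f0_abs_le z₀ z), by
    constructor
    · intro γ z
      change ((f0 z₀ (γ • z) : ℝ) : ℂ) = ((f0 z₀ z : ℝ) : ℂ)
      rw [f0_inv]
    · intro z
      change ((f0 z₀ (J • z) : ℝ) : ℂ) = -((f0 z₀ z : ℝ) : ℂ)
      rw [f0_odd]; push_cast; rfl⟩

lemma f0B_apply (z₀ z : ℍ) : (f0B z₀ : ℍ →ᵇ ℂ) z = ((f0 z₀ z : ℝ) : ℂ) := rfl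

/-- the base point `1/4 + 2i` -/
noncomputable def zb : ℍ := ⟨⟨1 / 4, 2⟩, by norm_num⟩

lemma zb_re : zb.re = 1 / 4 := rfl
lemma zb_im : zb.im = 2 := rfl

lemma coe_zb : (zb : ℂ) = ⟨1 / 4, 2⟩ := rfl

lemma zb_mem : zb ∈ 𝒟ᵒ := by
  constructor
  · rw [coe_zb, Complex.normSq_mk]; norm_num
  · rw [zb_re, abs_of_pos] <;> norm_num

lemma J_re (z : ℍ) : (J • z).re = -z.re := by
  have := congrArg Complex.re (coe_J_smul z)
  simpa using this

lemma J_im (z : ℍ) : (J • z).im = z.im := by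
  have := congrArg Complex.im (coe_J_smul z)
  simpa using this

lemma J_mem_fdo {z : ℍ} (hz : z ∈ 𝒟ᵒ) : J • z ∈ 𝒟ᵒ := by
  obtain ⟨h1, h2⟩ := hz
  constructor
  · rw [coe_J_smul, Complex.normSq_neg, Complex.normSq_conj]; exact h1
  · rw [J_re, abs_neg]; exact h2

lemma DD_J_pos : 0 < DD zb (J • zb) := by
  have hU : IsOpen (𝒟ᵒ ∩ {z : ℍ | 0 < z.re}) :=
    ModularGroup.isOpen_fdo.inter (isOpen_lt continuous_const UpperHalfPlane.continuous_re)
  have hz : zb ∈ 𝒟ᵒ ∩ {z : ℍ | 0 < z.re} := ⟨zb_mem, by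
    change 0 < zb.re; rw [zb_re]; norm_num⟩
  obtain ⟨r, hr, hball⟩ := Metric.isOpen_iff.1 hU zb hz
  refine lt_of_lt_of_le hr ?_
  unfold DD
  refine (Metric.le_infDist (MulAction.nonempty_orbit zb)).2 ?_
  rintro w ⟨γ, rfl⟩
  by_contra hlt
  push Not at hlt
  have h1 : dist (J • γ • zb) zb < r := by
    have : dist (J • γ • zb) zb = dist (J • zb) (γ • zb) := by
      conv_lhs => rw [← J_J zb]
      rw [dist_gl, J_J, dist_comm]
    rw [this]; exact hlt
  have h2 := hball h1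
  rw [J_smul_sl] at h2
  have h3 : J • zb = jconj γ • J • zb :=
    ModularGroup.eq_smul_self_of_mem_fdo_mem_fdo (J_mem_fdo zb_mem) h2.1
  have h4 : 0 < (jconj γ • J • zb).re := h2.2
  rw [← h3, J_re, zb_re] at h4
  norm_num at h4

lemma f0_zb_pos : 0 < f0 zb zb := by
  unfold f0
  rw [DD_self]
  have : 0 < min (DD zb (J • zb)) 1 := lt_min DD_J_pos one_pos
  simpa using this

lemma exists_ker : ∃ (Φ : ℝ → ℝ) (hΦ : ContDiff ℝ ∞ Φ) (hc : HasCompactSupport Φ),
    kerL Φ hΦ hc (f0B zb) ≠ 0 := by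
  have hpos := f0_zb_pos
  obtain ⟨δ, hδ, hball⟩ := Metric.continuous_iff.1 (continuous_f0 zb) zb (f0 zb zb) hpos
  set ε : ℝ := Real.cosh δ - 1 with hε
  have hε0 : 0 < ε := by
    have : 1 < Real.cosh δ := Real.one_lt_cosh.mpr hδ.ne'
    linarith
  let b : ContDiffBump (0 : ℝ) := ⟨ε / 2, ε, by positivity, by linarith⟩
  refine ⟨b, b.contDiff, b.hasCompactSupport, fun h0 => ?_⟩
  have h1 : kerOp b (f0B zb : ℍ →ᵇ ℂ) zb = 0 := by
    have := congrArg (fun f : OddInv => (f : ℍ →ᵇ ℂ) zb) h0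
    simpa using this
  unfold kerOp at h1
  simp only [f0B_apply] at h1
  have h2 : (∫ w : ℍ, b (uu zb w) * f0 zb w) = 0 := by
    have : (∫ w : ℍ, ((b (uu zb w) : ℂ)) * ((f0 zb w : ℝ) : ℂ)) =
        ((∫ w : ℍ, b (uu zb w) * f0 zb w : ℝ) : ℂ) := by
      rw [← integral_complex_ofReal]
      push_cast
      rfl
    rw [this] at h1
    exact_mod_cast h1
  have hcont : Continuous (fun w : ℍ => b (uu zb w) * f0 zb w) :=
    (continuous_ker (Φ := b) b.continuous zb).mul (continuous_f0 zb)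
  have hcomp : HasCompactSupport (fun w : ℍ => b (uu zb w) * f0 zb w) :=
    (compact_ker b.hasCompactSupport zb).mul_right
  have hnn : 0 ≤ (fun w : ℍ => b (uu zb w) * f0 zb w) := by
    intro w
    by_cases hw : dist w zb < δ
    · have h3 := hball w hw
      rw [Real.dist_eq, abs_lt] at h3
      exact mul_nonneg b.nonneg (by linarith)
    · have h4 : b (uu zb w) = 0 := by
        apply b.zero_of_le_dist
        rw [dist_zero_right, Real.norm_of_nonneg (uu_nonneg _ _), uu_eq]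
        change ε ≤ _
        rw [hε]
        have : Real.cosh δ ≤ Real.cosh (dist zb w) := by
          rw [Real.cosh_le_cosh, abs_of_pos hδ, abs_of_nonneg dist_nonneg, dist_comm]
          exact not_lt.mp hw
        linarith
      simp [h4]
  have hne : (fun w : ℍ => b (uu zb w) * f0 zb w) zb ≠ 0 := by
    simp only [uu_self]
    have : b (0 : ℝ) = 1 := b.one_of_mem_closedBall (Metric.mem_closedBall_self (by positivity))
    rw [this, one_mul]
    exact hpos.ne'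
  have := hcont.integral_pos_of_hasCompactSupport_nonneg_nonzero (μ := (volume : Measure ℍ))
    hcomp hnn hne
  exact this.ne' h2

end Pool.Agent.W384
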