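import Pool.Agent.W384.Cusp

set_option autoImplicit false

open UpperHalfPlane MeasureTheory Filter Topology Function
open scoped MatrixGroups ContDiff

namespace Pool.Agent.W384
namespace HeckeMaassCuspForm

variable (F : HeckeMaassCuspForm)

lemma norm_A_exp_nat (hF : F.IsOdd) : ∃ C : ℝ, 0 ≤ C ∧ ∀ (n : ℕ) (y : ℝ), 0 < y →
    ‖F.A n y‖ ≤ C * Real.exp (-(Real.pi * y) * n) := by
  obtain ⟨C₁, hC₁, h1⟩ := F.A_one_decay
  have hA : 0 < ‖F.A 1 (F.t0 hF)‖ := norm_pos_iff.2 (F.A_t0 hF)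
  have hM := F.M_nonneg
  refine ⟨F.M / ‖F.A 1 (F.t0 hF)‖ * C₁ + F.M * Real.exp Real.pi, by positivity, fun n y hy => ?_⟩
  have he : ∀ x : ℝ, 0 < Real.exp x := Real.exp_pos
  rcases Nat.eq_zero_or_pos n with rfl | hn
  · have := F.A_zero hF hy
    simp only [Nat.cast_zero, this, norm_zero]
    positivity
  · have hnR : (0 : ℝ) < n := by exact_mod_cast hn
    rcases le_or_gt 1 (n * y) with hny | hny
    · have h2 : ‖F.A n y‖ ≤ F.M / ‖F.A 1 (F.t0 hF)‖ * (C₁ * Real.exp (-Real.pi * (n * y))) := by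
        rw [F.A_eq hF n hn y hy, norm_mul, norm_mul, norm_inv, Complex.norm_real,
          Real.norm_of_nonneg (Real.sqrt_nonneg _)]
        refine mul_le_mul ?_ (h1 _ hny) (norm_nonneg _) (by positivity)
        have h3 := F.norm_l_le hF n
        have h4 : 0 < Real.sqrt n := Real.sqrt_pos.2 hnR
        rw [inv_mul_le_iff₀ h4]
        linarith
      have h5 : -Real.pi * (n * y) = -(Real.pi * y) * n := by ring
      rw [h5] at h2
      refine h2.trans ?_
      have : 0 ≤ F.M * Real.exp Real.pi * Real.exp (-(Real.pi * y) * n) := by positivity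
      nlinarith
    · refine (F.norm_A_le n y).trans ?_
      have h6 : 1 ≤ Real.exp Real.pi * Real.exp (-(Real.pi * y) * n) := by
        rw [← Real.exp_add]
        apply Real.one_le_exp
        nlinarith [Real.pi_pos]
      have : 0 ≤ F.M / ‖F.A 1 (F.t0 hF)‖ * C₁ * Real.exp (-(Real.pi * y) * n) := by positivity
      nlinarith

lemma summable_A (hF : F.IsOdd) (k : ℕ) {y : ℝ} (hy : 0 < y) :
    Summable (fun n : ℤ => (n : ℂ) ^ k * F.A n y) := by
  obtain ⟨C, hC, h1⟩ := F.norm_A_exp_nat hF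
  have h2 : Summable (fun n : ℕ => C * ((n : ℝ) ^ k * Real.exp (-(Real.pi * y) * n))) :=
    (Real.summable_pow_mul_exp_neg_nat_mul k (by positivity : 0 < Real.pi * y)).mul_left C
  have h3 : Summable (fun n : ℕ => ((n : ℤ) : ℂ) ^ k * F.A (n : ℤ) y) := by
    refine Summable.of_norm_bounded h2 fun n => ?_
    rw [norm_mul, norm_pow]
    simp only [Int.cast_natCast, Complex.norm_natCast]
    have := mul_le_mul_of_nonneg_left (h1 n y hy) (by positivity : 0 ≤ (n : ℝ) ^ k)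
    linarith
  refine Summable.of_nat_of_neg h3 ?_
  refine Summable.of_norm_bounded h2 fun n => ?_
  rw [norm_mul, norm_pow, F.A_neg hF hy, norm_neg]
  simp only [Int.cast_neg, norm_neg, Int.cast_natCast, Complex.norm_natCast]
  have := mul_le_mul_of_nonneg_left (h1 n y hy) (by positivity : 0 ≤ (n : ℝ) ^ k)
  linarith

lemma hasSum_Gx (hF : F.IsOdd) {y : ℝ} (hy : 0 < y) (x : ℝ) :
    HasSum (fun n : ℤ => 2 * Real.pi * Complex.I * n * F.A n y * ee n x) (F.Gx (pt x y)) := by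
  have h0 : cf (fun x => F.Gx (pt x y)) = fun n : ℤ => 2 * Real.pi * Complex.I * n * F.A n y := by
    funext n; exact F.cf_Gx hy n
  have h1 := cf_hasSum (continuous_hor F.Gx_smooth.continuousOn hy) (F.periodic_Gx hy) (by
    rw [h0]
    have := (F.summable_A hF 1 hy).mul_left (2 * Real.pi * Complex.I)
    refine this.congr fun n => ?_
    ring) x
  rw [h0] at h1
  exact h1

variable {N : ℕ} [NeZero N] (χ : DirichletCharacter ℂ N)

omit [NeZero N] in
lemma chi_neg (n : ℤ) : χ ((-n : ℤ) : ZMod N) = χ (-1) * χ (n : ZMod N) := by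
  rw [← map_mul]; congr 1; push_cast; ring

lemma S_eq (hF : F.IsOdd) (hχ : χ.IsPrimitive) (hsq : χ ^ 2 = 1) (hodd : χ (-1) = -1) {y : ℝ}
    (hy : 0 < y) : F.S χ y = 2 * tau χ * ∑' n : ℕ, F.A n y * χ n := by
  unfold S
  refine twist_sum χ hχ hsq (fun x => F.G (pt x y)) (fun n => F.A n y) ?_ ?_ (F.A_zero hF hy) ?_
  · simpa using F.summable_A hF 0 hy
  · intro x
    exact F.hasSum_G hy (by simpa using F.summable_A hF 0 hy) x
  · intro n
    rw [F.A_neg hF hy, chi_neg, hodd]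
    ring

lemma S'_eq (hF : F.IsOdd) (hχ : χ.IsPrimitive) (hsq : χ ^ 2 = 1) (heven : χ (-1) = 1) {y : ℝ}
    (hy : 0 < y) : F.S' χ y = 2 * tau χ * (2 * Real.pi * Complex.I) *
      ∑' n : ℕ, n * F.A n y * χ n := by
  unfold S'
  rw [twist_sum χ hχ hsq (fun x => F.Gx (pt x y)) (fun n => 2 * Real.pi * Complex.I * n * F.A n y)
    ?_ (fun x => F.hasSum_Gx hF hy x) (by simp) ?_]
  · rw [mul_assoc (2 * tau χ)]
    congr 1
    rw [← tsum_mul_left]
    refine tsum_congr fun n => ?_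
    push_cast
    ring
  · have := (F.summable_A hF 1 hy).mul_left (2 * Real.pi * Complex.I)
    refine this.congr fun n => ?_
    ring
  · intro n
    rw [F.A_neg hF hy, chi_neg, heven]
    push_cast
    ring

/-- coefficients of the twisted Dirichlet series -/
noncomputable def bb (hF : F.IsOdd) (e : ℕ) (n : ℕ) : ℂ :=
  (n : ℂ) ^ e * (χ n * F.l hF n * (Real.sqrt n : ℂ)⁻¹)

omit [NeZero N] in
lemma bb_zero (hF : F.IsOdd) (e : ℕ) : F.bb χ hF e 0 = 0 := by
  simp [bb, F.l_zero hF]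

omit [NeZero N] in
lemma bb_mul (hF : F.IsOdd) (e : ℕ) (n : ℕ) {y : ℝ} (hy : 0 < y) :
    F.bb χ hF e n * F.A 1 (n * y) = (n : ℂ) ^ e * F.A n y * χ n := by
  rcases Nat.eq_zero_or_pos n with rfl | hn
  · rw [bb_zero]
    have := F.A_zero hF hy
    simp only [Nat.cast_zero, this]
    ring
  · rw [F.A_eq hF n hn y hy]
    unfold bb
    ring

lemma hsum_fe (hF : F.IsOdd) (hχ : χ.IsPrimitive) (hsq : χ ^ 2 = 1) (e : ℕ)
    (he : (e = 0 ∧ χ (-1) = -1) ∨ (e = 1 ∧ χ (-1) = 1)) (t : ℝ) (ht : 0 < t) :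
    ∑' n : ℕ, F.bb χ hF e n * F.A 1 (n * t⁻¹ / N) =
      -((t ^ (2 * e : ℝ) : ℝ) : ℂ) * ∑' n : ℕ, F.bb χ hF e n * F.A 1 (n * t / N) := by
  have hN : (0 : ℝ) < N := by exact_mod_cast NeZero.pos N
  have hNC : (N : ℂ) ≠ 0 := by exact_mod_cast (NeZero.pos N).ne'
  have htC : (t : ℂ) ≠ 0 := by exact_mod_cast ht.ne'
  have h1 : ∀ n : ℕ, F.bb χ hF e n * F.A 1 (n * t⁻¹ / N) =
      (n : ℂ) ^ e * F.A n (t⁻¹ / N) * χ n := by
    intro n
    rw [mul_div_assoc]
    exact F.bb_mul χ hF e n (by positivity)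
  have h2 : ∀ n : ℕ, F.bb χ hF e n * F.A 1 (n * t / N) = (n : ℂ) ^ e * F.A n (t / N) * χ n := by
    intro n
    rw [mul_div_assoc]
    exact F.bb_mul χ hF e n (by positivity)
  simp_rw [h1, h2]
  have htau := tau_ne_zero χ hχ
  have harg : 1 / ((N : ℝ) ^ 2 * (t / N)) = t⁻¹ / N := by field_simp
  rcases he with ⟨rfl, hodd⟩ | ⟨rfl, heven⟩
  · simp only [pow_zero, one_mul, Nat.cast_zero, mul_zero, Real.rpow_zero, Complex.ofReal_one]
    have h3 := F.S_fe χ hsq (y := t / N) (by positivity)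
    rw [harg, hodd, F.S_eq χ hF hχ hsq hodd (by positivity), F.S_eq χ hF hχ hsq hodd (by positivity)]
      at h3
    have h4 : (2 * tau χ) ≠ 0 := mul_ne_zero two_ne_zero htau
    apply mul_left_cancel₀ h4
    linear_combination h3
  · simp only [pow_one, Nat.cast_one, mul_one]
    have h3 := F.S'_fe χ hsq (y := t / N) (by positivity)
    rw [harg, heven, F.S'_eq χ hF hχ hsq heven (by positivity),
      F.S'_eq χ hF hχ hsq heven (by positivity)] at h3
    have h4 : (2 * tau χ * (2 * Real.pi * Complex.I)) ≠ 0 :=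
      mul_ne_zero (mul_ne_zero two_ne_zero htau) Complex.two_pi_I_ne_zero
    apply mul_left_cancel₀ h4
    have h5 : ((N : ℂ) ^ 2 * ((t / N : ℝ) : ℂ) ^ 2) = (t : ℂ) ^ 2 := by
      push_cast; field_simp
    rw [h5] at h3
    have h6 : ((t ^ (2 : ℝ) : ℝ) : ℂ) = (t : ℂ) ^ 2 := by
      rw [Real.rpow_two]; push_cast; rfl
    rw [h6]
    generalize ∑' n : ℕ, (n : ℂ) * F.A n (t⁻¹ / N) * χ n = X at h3 ⊢
    generalize ∑' n : ℕ, (n : ℂ) * F.A n (t / N) * χ n = Y at h3 ⊢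
    have h7 : (t : ℂ) ^ 2 * ((t : ℂ) ^ 2)⁻¹ = 1 := mul_inv_cancel₀ (pow_ne_zero 2 htC)
    linear_combination ((t : ℂ) ^ 2) * h3 - (2 * tau χ * (2 * Real.pi * Complex.I)) * X * h7

end HeckeMaassCuspForm
end Pool.Agent.W384
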